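import Pool.Agent.W355.LJ.Lst
import Pool.Agent.H986R2.GD.Inst

set_option autoImplicit false

/-!
# The heat flow of completed L-functions
-/

namespace Pool.Agent.W355.LJ

open Complex Filter Topology
open scoped ComplexConjugate
open Pool.Agent.H986R2.GD (Crit crit_of_scale crit_congr)

theorem critHL {D : LD} (h : IsLD D) :
    Crit (fun z => D.Λ (1 / 2 + z)) (∀ s : ℂ, D.Λ s = 0 → s.re = 1 / 2) :=
  crit_congr (fun _ => rfl) (rhL h) (crit_of_scale (scaleL h))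

theorem IsC.critH {l : List Pc} {L : ℝ} {b : ℕ → ℂ} {w : ℂ} {Λ : ℂ → ℂ} (h : IsC l L b w Λ)
    (hw : ‖w‖ = 1) (hl : l ≠ []) :
    Crit (fun z => Λ (1 / 2 + z) * st Λ (1 / 2 + z)) (∀ s : ℂ, Λ s = 0 → s.re = 1 / 2) := by
  obtain ⟨D, hD, hD1, -⟩ := h.double hw hl
  have h1 := critHL hD
  rw [hD1] at h1
  exact crit_congr (fun _ => rfl) (rh_double Λ) h1

theorem IsC.critRH {l : List Pc} {L : ℝ} {b : ℕ → ℂ} {w : ℂ} {Λ : ℂ → ℂ} (h : IsC l L b w Λ)
    (hb : ∀ n, conj (b n) = b n) (hl : l ≠ []) :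
    Crit (fun z => Λ (1 / 2 + z)) (∀ s : ℂ, Λ s = 0 → s.re = 1 / 2) := by
  obtain ⟨D, hD, hD1, -⟩ := h.toLD hb hl
  have h1 := critHL hD
  rw [hD1] at h1
  exact h1

theorem IsC.critSH {l : List Pc} {M : ℝ} {b : ℕ → ℂ} {w : ℂ} {Λ : ℂ → ℂ} (h : IsC l M b w Λ)
    (hl : l ≠ []) (hs : st Λ = Λ) :
    Crit (fun z => Λ (1 / 2 + z)) (∀ s : ℂ, Λ s = 0 → s.re = 1 / 2) := by
  classical
  have h1 : IsC l M (fun n => if n = 0 then 0 else b n) w Λ := by
    refine h.congr' fun n hn => ?_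
    rw [if_neg (by omega)]
  refine h1.critRH (fun n => ?_) hl
  by_cases hn : n = 0
  · simp [hn]
  · rw [if_neg hn]
    exact h.real_of_star hl hs n (Nat.one_le_iff_ne_zero.2 hn)

open Classical in
theorem IsC.finalH {l : List Pc} {M : ℝ} {b : ℕ → ℂ} {w : ℂ} {Λ : ℂ → ℂ} (h : IsC l M b w Λ)
    (hw : ‖w‖ = 1) (hl : l ≠ []) : Crit (FL Λ) (∀ s : ℂ, Λ s = 0 → s.re = 1 / 2) := by
  by_cases hs : ∀ s : ℂ, Λ (conj s) = conj (Λ s)
  · have hst : st Λ = Λ := by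
      funext s
      unfold st
      rw [hs, Complex.conj_conj]
    have hF : FL Λ = fun z => Λ (1 / 2 + z) := by
      funext z
      unfold FL
      rw [if_pos hs]
    rw [hF]
    exact h.critSH hl hst
  · have hF : FL Λ = fun z => Λ (1 / 2 + z) * st Λ (1 / 2 + z) := by
      funext z
      unfold FL st
      rw [if_neg hs]
      congr 3
      rw [map_add, map_div₀, map_one, map_ofNat]
    rw [hF]
    exact h.critH hw hl

theorem good_finalH {w : ℂ} {Λ G : ℂ → ℂ} (h : Good w Λ G) :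
    Crit (FL Λ) (∀ s : ℂ, Λ s = 0 → s.re = 1 / 2) := by
  obtain ⟨l, M, b, n, u, c, e⟩ := h
  exact c.finalH u n

end Pool.Agent.W355.LJ
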