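import Pool.Agent.W355.LJ.Lst
import Pool.Agent.W354.PK.FinK

set_option autoImplicit false

/-!
# Hecke characters of `ℚ(i)` of infinity type `k` as completed L-functions
-/

namespace Pool.Agent.W355.LJ

open Complex Filter Topology MeasureTheory Set
open scoped ComplexConjugate
open Pool.Agent.H471R3.GJ (Hc IsHc)
open Pool.Agent.W354.PK (THk bK HCk)

/-- The data of a theta series `∑ b(n) n^(k/2) e^{-π n y}` of weight `k + 1`. -/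
noncomputable def tkHc (k : ℕ) (κ : ℝ) (b : ℕ → ℂ) (w : ℂ) : Hc where
  φ y := THk k b (y / κ)
  b n := b n * (Real.sqrt n : ℂ) ^ k
  k := k + 1
  h := 2 * κ
  p := 1
  β := 1 + k / 2
  B := 1
  ε := w

theorem sqrt_pow_eq (n : ℕ) (k : ℕ) : (Real.sqrt n : ℝ) ^ k = (n : ℝ) ^ ((k : ℝ) / 2) := by
  rw [Real.sqrt_eq_rpow, ← Real.rpow_natCast, ← Real.rpow_mul (Nat.cast_nonneg n)]
  congr 1
  ring

theorem tk_isHc {k : ℕ} {κ : ℝ} {b : ℕ → ℂ} {w : ℂ} (h : Pool.Agent.W354.PK.Thk k κ b w)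
    (h1 : b 1 = 1) : IsHc (tkHc k κ b w) := by
  have hκ : 0 < κ := lt_of_lt_of_le one_pos h.k1
  have hk0 : (0 : ℝ) ≤ k := Nat.cast_nonneg k
  refine ⟨by show 0 < (k : ℝ) + 1; positivity, by show 0 < 2 * κ; positivity, le_refl 1,
    by show 0 ≤ 1 + (k : ℝ) / 2; positivity, le_refl 1, ?_, ?_, ?_, h.w1, ?_⟩
  · show b 1 * (Real.sqrt ((1 : ℕ) : ℝ) : ℂ) ^ k = 1
    simp [h1]
  · intro m hm
    show ‖b m * (Real.sqrt m : ℂ) ^ k‖ ≤ 1 * (m : ℝ) ^ (1 + (k : ℝ) / 2)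
    have hm0 : (0 : ℝ) < m := by exact_mod_cast hm
    rw [norm_mul, norm_pow, Complex.norm_real, Real.norm_of_nonneg (Real.sqrt_nonneg _),
      sqrt_pow_eq, one_mul, Real.rpow_add hm0, Real.rpow_one]
    refine mul_le_mul_of_nonneg_right ((h.bd m).trans ?_) (Real.rpow_nonneg hm0.le _)
    exact_mod_cast Nat.card_divisors_le_self m
  · intro y hy
    have h2 := Pool.Agent.W354.PK.L1.TH_hasSum k b h.bd (y := y / κ) (div_pos hy hκ)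
    have h3 := (hasSum_nat_add_iff' 1).2 h2
    have e0 : Pool.Agent.W354.PK.L1.cf k b 0 = 0 := by
      unfold Pool.Agent.W354.PK.L1.cf
      rw [h.b0, zero_mul]
    simp only [Finset.range_one, Finset.sum_singleton, e0, zero_mul, sub_zero] at h3
    refine h3.congr_fun ?_
    intro m
    show b (m + 1) * (Real.sqrt ((m + 1 : ℕ) : ℝ) : ℂ) ^ k *
      ((Real.exp (-(2 * Real.pi * ((m + 1 : ℕ) : ℝ) ^ 1 * y / (2 * κ))) : ℝ) : ℂ) = _
    unfold Pool.Agent.W354.PK.L1.cf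
    congr 3
    rw [pow_one]
    field_simp
  · intro y hy
    show THk k b (1 / y / κ) = w * ((y ^ ((k : ℝ) + 1) : ℝ) : ℂ) * conj (THk k b (y / κ))
    have e1 : ((y ^ ((k : ℝ) + 1) : ℝ) : ℂ) = (y : ℂ) ^ (k + 1) := by
      have : y ^ ((k : ℝ) + 1) = y ^ (k + 1) := by
        rw [← Real.rpow_natCast]
        push_cast
        rfl
      rw [this]
      push_cast
      rfl
    rw [e1, ← h.fe y hy]
    congr 1
    field_simp

/-- Hecke characters of `ℚ(i)` of infinity type `k`. -/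
theorem hecke_isC {k : ℕ} (hk : 1 ≤ k) (q : GaussianInt) (χ : GaussianInt →* ℂ)
    (H : HCk k q χ) : ∃ (w : ℂ) (Λ : ℂ → ℂ), ‖w‖ = 1 ∧
      IsC [Pc.one (k / 2), Pc.one (k / 2 + 1)] (Real.log (2 * ‖Pool.Agent.H304R3.HK.tc q‖))
        (bK k χ) w Λ := by
  obtain ⟨w, hw⟩ := Pool.Agent.W354.PK.th_psik hk q χ H
  have h1 := Pool.Agent.W354.PK.TK.bK_one H
  have h2 := tk_isHc hw h1
  have h3 := hc_isC1 _ h2 rfl
  refine ⟨w, Lam1 (tkHc k ‖Pool.Agent.H304R3.HK.tc q‖ (bK k χ) w), hw.w1, ?_⟩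
  have e1 : ((tkHc k ‖Pool.Agent.H304R3.HK.tc q‖ (bK k χ) w).k - 1) / 2 = (k : ℝ) / 2 := by
    show ((k : ℝ) + 1 - 1) / 2 = k / 2
    ring
  have e2 : ((tkHc k ‖Pool.Agent.H304R3.HK.tc q‖ (bK k χ) w).k + 1) / 2 = (k : ℝ) / 2 + 1 := by
    show ((k : ℝ) + 1 + 1) / 2 = k / 2 + 1
    ring
  rw [e1, e2] at h3
  refine h3.congr fun n hn => ?_
  show bK k χ n = bK k χ n * (Real.sqrt n : ℂ) ^ k * ((((n : ℝ) ^ (-((k : ℝ) / 2)) : ℝ)) : ℂ)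
  have hn0 : (0 : ℝ) < n := by exact_mod_cast hn
  have e3 : (Real.sqrt n : ℂ) ^ k = (((n : ℝ) ^ ((k : ℝ) / 2) : ℝ) : ℂ) := by
    rw [← sqrt_pow_eq]
    push_cast
    rfl
  rw [e3, mul_assoc, ← Complex.ofReal_mul, ← Real.rpow_add hn0, add_neg_cancel, Real.rpow_zero,
    Complex.ofReal_one, mul_one]

theorem GF_pair (a : ℝ) (s : ℂ) : GF [Pc.one a, Pc.one (a + 1)] s = Gammaℂ (s + a) := by
  unfold GF
  simp only [List.map_cons, List.map_nil, List.prod_cons, List.prod_nil, mul_one]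
  show Gammaℝ (s + (a : ℂ)) * Gammaℝ (s + ((a + 1 : ℝ) : ℂ)) = _
  rw [← Complex.Gammaℝ_mul_Gammaℝ_add_one]
  congr 2
  push_cast
  ring

theorem log_tc {q : GaussianInt} (hq : q ≠ 0) : Real.log (2 * ‖Pool.Agent.H304R3.HK.tc q‖) =
    1 / 2 * Real.log ((4 * Zsqrtd.norm q : ℤ) : ℝ) := by
  have h1 : ‖Pool.Agent.H304R3.HK.tc q‖ ^ 2 = ((Zsqrtd.norm q : ℤ) : ℝ) := by
    rw [Pool.Agent.H304R3.HK.T1.tc_norm]
    rw [Zsqrtd.norm_def]
    push_cast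
    ring
  have h3 : ((4 * Zsqrtd.norm q : ℤ) : ℝ) = (2 * ‖Pool.Agent.H304R3.HK.tc q‖) ^ 2 := by
    rw [mul_pow, h1]
    push_cast
    ring
  rw [h3, Real.log_pow]
  push_cast
  ring

theorem good_hecke {k : ℕ} (hk : 1 ≤ k) (q : GaussianInt) (χ : GaussianInt →* ℂ)
    (H : HCk k q χ) : ∃ (w : ℂ) (Λ : ℂ → ℂ), Good w Λ
      (fun s => ((4 * Zsqrtd.norm q : ℤ) : ℂ) ^ (s / 2) * Gammaℂ (s + k / 2) *
        LSeries (bK k χ) s) := by
  obtain ⟨w, Λ, hw, h⟩ := hecke_isC hk q χ H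
  refine ⟨w, Λ, good_of (by simp) hw h ⟨0, fun s _ => ?_⟩⟩
  have hN0 : (0 : ℝ) < ((4 * Zsqrtd.norm q : ℤ) : ℝ) := by
    have h1 := GaussianInt.norm_pos.2 H.q0
    have : 0 < 4 * Zsqrtd.norm q := by omega
    exact_mod_cast this
  rw [GF_pair, log_tc H.q0, exp_half_log hN0, Complex.ofReal_intCast]
  push_cast
  rfl

theorem good_formk {N k : ℕ} [NeZero N] (hk : 1 ≤ k)
    (f : CuspForm (CongruenceSubgroup.Gamma1 N : Subgroup (GL (Fin 2) ℝ)) (k : ℤ))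
    {w : ℂ} (hf : IsNF N k f w) :
    ∃ (w' : ℂ) (Λ : ℂ → ℂ), Good w' Λ
      (fun s => (N : ℂ) ^ (s / 2) * Gammaℂ (s + ((((k : ℝ) - 1) / 2 : ℝ) : ℂ)) *
        LSeries (fun n => (UpperHalfPlane.qExpansion 1 f).coeff n *
          ((((n : ℝ) ^ (-(((k : ℝ) - 1) / 2)) : ℝ)) : ℂ)) s) := by
  obtain ⟨w', Λ, hw, h⟩ := nf_isC f hk hf
  have e2 : ((k : ℝ) + 1) / 2 = ((k : ℝ) - 1) / 2 + 1 := by ring
  rw [e2] at h
  refine ⟨w', Λ, good_of (by simp) hw h ⟨0, fun s _ => ?_⟩⟩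
  have hN0 : (0 : ℝ) < N := by exact_mod_cast Nat.pos_of_ne_zero (NeZero.ne N)
  rw [exp_half_log hN0, Complex.ofReal_natCast, GF_pair]

end Pool.Agent.W355.LJ
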