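import Pool.Agent.W355.LJ.Inst

set_option autoImplicit false

/-!
# L-functions which need not be self-dual; products
-/

namespace Pool.Agent.W355.LJ

open Complex Filter Topology MeasureTheory Set
open scoped ComplexConjugate

/-- A completed L-function: `Λ(s) = e^(sL) ∏ (factors) ∑ b(n) n^(-s)`, `Λ(1-s) = w Λ*(s)`. -/
structure IsC (l : List Pc) (L : ℝ) (b : ℕ → ℂ) (w : ℂ) (Λ : ℂ → ℂ) : Prop where
  real : ∀ q ∈ l, q.real
  one : b 1 = 1
  bd : ∃ B β : ℝ, ∀ m : ℕ, 1 ≤ m → ‖b m‖ ≤ B * (m : ℝ) ^ β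
  entire : Differentiable ℂ Λ
  fe : ∀ s, Λ (1 - s) = w * conj (Λ (conj s))
  order : ∃ A ρ : ℝ, ∀ s : ℂ, ‖Λ s‖ ≤ Real.exp (A * (1 + ‖s‖) ^ ρ)
  dir : ∃ σ0 : ℝ, ∀ s : ℂ, σ0 ≤ s.re → Λ s = cexp (s * L) * GF l s * LSeries b s

/-- `Λ*(s) = conj Λ(conj s)` -/
noncomputable def st (Λ : ℂ → ℂ) (s : ℂ) : ℂ := conj (Λ (conj s))

theorem st_diff {Λ : ℂ → ℂ} (h : Differentiable ℂ Λ) : Differentiable ℂ (st Λ) := by
  intro s
  have h1 := (h (conj s)).hasDerivAt
  have h2 : HasDerivAt (st Λ) (conj (deriv Λ (conj s))) s := by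
    have h3 := HasDerivAt.conj_conj h1
    rw [Complex.conj_conj] at h3
    exact h3
  exact h2.differentiableAt

/-- normalisation of the bounds of the coefficients -/
theorem bd_norm {b : ℕ → ℂ} (h1 : b 1 = 1)
    (h : ∃ B β : ℝ, ∀ m : ℕ, 1 ≤ m → ‖b m‖ ≤ B * (m : ℝ) ^ β) :
    ∃ B β : ℝ, 1 ≤ B ∧ 0 ≤ β ∧ ∀ m : ℕ, 1 ≤ m → ‖b m‖ ≤ B * (m : ℝ) ^ β := by
  obtain ⟨B, β, h⟩ := h
  have hB : 1 ≤ B := by
    have h2 := h 1 le_rfl
    rw [h1, norm_one, Nat.cast_one, Real.one_rpow, mul_one] at h2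
    exact h2
  refine ⟨B, max β 0, hB, le_max_right _ _, fun m hm => (h m hm).trans ?_⟩
  have hm' : (1 : ℝ) ≤ m := by exact_mod_cast hm
  exact mul_le_mul_of_nonneg_left (Real.rpow_le_rpow_of_exponent_le hm' (le_max_left _ _))
    (by linarith)

theorem summ_of_bd {b : ℕ → ℂ} {B β : ℝ} (h : ∀ m : ℕ, 1 ≤ m → ‖b m‖ ≤ B * (m : ℝ) ^ β) {s : ℂ}
    (hs : β + 1 < s.re) : LSeriesSummable b s := by
  refine LSeriesSummable_of_le_const_mul_rpow (x := β + 1) hs ⟨B, fun n hn => ?_⟩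
  rw [add_sub_cancel_right]
  exact h n (Nat.one_le_iff_ne_zero.2 hn)

theorem lseries_tsum {b : ℕ → ℂ} {s : ℂ} (h : LSeriesSummable b s) :
    LSeries b s = ∑' m : ℕ, b (m + 1) * ((m + 1 : ℕ) : ℂ) ^ (-s) := by
  unfold LSeries
  have h1 : Summable (LSeries.term b s) := h
  rw [h1.tsum_eq_zero_add, LSeries.term_zero, zero_add]
  refine tsum_congr fun m => ?_
  rw [LSeries.term_of_ne_zero (Nat.succ_ne_zero m), Complex.cpow_neg, div_eq_mul_inv]

theorem GF_append (l1 l2 : List Pc) (s : ℂ) : GF (l1 ++ l2) s = GF l1 s * GF l2 s := by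
  unfold GF
  rw [List.map_append, List.prod_append]

theorem gr_conj (s : ℂ) : Gammaℝ (conj s) = conj (Gammaℝ s) := by
  rw [Complex.Gammaℝ_def, Complex.Gammaℝ_def, map_mul, ← Complex.Gamma_conj]
  have hpi : ((Real.pi : ℝ) : ℂ) ≠ 0 := by exact_mod_cast Real.pi_ne_zero
  congr 1
  · rw [Complex.cpow_def_of_ne_zero hpi, Complex.cpow_def_of_ne_zero hpi, ← Complex.exp_conj,
      ← Complex.ofReal_log Real.pi_pos.le, map_mul, Complex.conj_ofReal, map_div₀, map_neg]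
    congr 3
    exact (map_ofNat (starRingEnd ℂ) 2).symm
  · congr 1
    rw [map_div₀]
    congr 1
    exact (map_ofNat (starRingEnd ℂ) 2).symm

theorem Pc.g_conj (p : Pc) (s : ℂ) : p.g (conj s) = conj (p.g s) := by
  cases p with
  | one a =>
    show Gammaℝ _ = conj (Gammaℝ _)
    rw [← gr_conj, map_add, Complex.conj_ofReal]
  | two a ν =>
    show Gammaℝ _ * Gammaℝ _ = conj (Gammaℝ _ * Gammaℝ _)
    rw [map_mul, ← gr_conj, ← gr_conj, mul_comm]
    congr 2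
    · simp only [map_add, map_sub, map_mul, Complex.conj_ofReal, Complex.conj_I]
      ring
    · simp only [map_add, map_sub, map_mul, Complex.conj_ofReal, Complex.conj_I]
      ring
  | pol c a =>
    show (_ - _) * Gammaℝ _ = conj ((_ - _) * Gammaℝ _)
    rw [map_mul, map_sub, ← gr_conj, map_add, Complex.conj_ofReal, Complex.conj_ofReal]

theorem GF_conj (l : List Pc) (s : ℂ) : GF l (conj s) = conj (GF l s) := by
  unfold GF
  rw [map_list_prod, List.map_map]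
  congr 1
  refine List.map_congr_left fun p _ => ?_
  exact p.g_conj s

theorem lseries_conj {b : ℕ → ℂ} {s : ℂ} (h : LSeriesSummable b (conj s)) :
    LSeries (fun n => conj (b n)) s = conj (LSeries b (conj s)) := by
  have h2 : ∀ n, LSeries.term (fun n => conj (b n)) s n = conj (LSeries.term b (conj s) n) := by
    intro n
    rcases Nat.eq_zero_or_pos n with rfl | hn
    · simp
    · rw [LSeries.term_of_ne_zero hn.ne', LSeries.term_of_ne_zero hn.ne', map_div₀]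
      congr 1
      have hn' : (n : ℂ) ≠ 0 := by exact_mod_cast hn.ne'
      rw [Complex.cpow_def_of_ne_zero hn', Complex.cpow_def_of_ne_zero hn', ← Complex.exp_conj,
        map_mul, Complex.conj_conj, ← Complex.natCast_log, Complex.conj_ofReal]
  unfold LSeries
  rw [Complex.conj_tsum]
  exact tsum_congr h2

theorem IsC.star {l : List Pc} {L : ℝ} {b : ℕ → ℂ} {w : ℂ} {Λ : ℂ → ℂ} (h : IsC l L b w Λ) :
    IsC l L (fun n => conj (b n)) (conj w) (st Λ) := by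
  refine ⟨h.real, by simp only [h.one, map_one], ?_, st_diff h.entire, fun s => ?_, ?_, ?_⟩
  · obtain ⟨B, β, hb⟩ := h.bd
    exact ⟨B, β, fun m hm => by rw [RCLike.norm_conj]; exact hb m hm⟩
  · unfold st
    rw [map_sub, map_one, h.fe, map_mul, Complex.conj_conj, Complex.conj_conj]
  · obtain ⟨A, ρ, ho⟩ := h.order
    refine ⟨A, ρ, fun s => ?_⟩
    unfold st
    rw [RCLike.norm_conj]
    have := ho (conj s)
    rwa [RCLike.norm_conj] at this
  · obtain ⟨σ0, hd⟩ := h.dir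
    obtain ⟨B, β, hB, hβ, hb⟩ := bd_norm h.one h.bd
    refine ⟨max σ0 (β + 2), fun s hs => ?_⟩
    have h1 : σ0 ≤ (conj s).re := by
      rw [Complex.conj_re]
      exact (le_max_left _ _).trans hs
    have h2 : β + 1 < (conj s).re := by
      rw [Complex.conj_re]
      have := (le_max_right σ0 (β + 2)).trans hs
      linarith
    unfold st
    rw [hd _ h1, map_mul, map_mul, ← GF_conj, Complex.conj_conj, ← Complex.exp_conj, map_mul,
      Complex.conj_conj, Complex.conj_ofReal, lseries_conj (summ_of_bd hb h2)]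

theorem conv_bd {b1 b2 : ℕ → ℂ} {B1 B2 β1 β2 : ℝ} (hB1 : 1 ≤ B1) (hB2 : 1 ≤ B2)
    (hβ1 : 0 ≤ β1) (hβ2 : 0 ≤ β2)
    (h1 : ∀ m : ℕ, 1 ≤ m → ‖b1 m‖ ≤ B1 * (m : ℝ) ^ β1)
    (h2 : ∀ m : ℕ, 1 ≤ m → ‖b2 m‖ ≤ B2 * (m : ℝ) ^ β2) (m : ℕ) (hm : 1 ≤ m) :
    ‖(LSeries.convolution b1 b2) m‖ ≤ B1 * B2 * (m : ℝ) ^ (β1 + β2 + 1) := by
  rw [LSeries.convolution_def]
  simp only
  refine (norm_sum_le _ _).trans ?_
  have hm0 : (0 : ℝ) < m := by exact_mod_cast hm
  have hterm : ∀ p ∈ m.divisorsAntidiagonal, ‖b1 p.1 * b2 p.2‖ ≤ B1 * B2 * (m : ℝ) ^ (β1 + β2) := by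
    intro p hp
    rw [Nat.mem_divisorsAntidiagonal] at hp
    have hp1 : 1 ≤ p.1 := by
      rcases Nat.eq_zero_or_pos p.1 with h0 | h0
      · rw [h0, zero_mul] at hp
        exact absurd hp.1.symm hp.2
      · exact h0
    have hp2 : 1 ≤ p.2 := by
      rcases Nat.eq_zero_or_pos p.2 with h0 | h0
      · rw [h0, mul_zero] at hp
        exact absurd hp.1.symm hp.2
      · exact h0
    have hle1 : (p.1 : ℝ) ≤ m := by
      have : p.1 ≤ m := by
        rw [← hp.1]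
        exact Nat.le_mul_of_pos_right _ hp2
      exact_mod_cast this
    have hle2 : (p.2 : ℝ) ≤ m := by
      have : p.2 ≤ m := by
        rw [← hp.1]
        exact Nat.le_mul_of_pos_left _ hp1
      exact_mod_cast this
    have e1 : (p.1 : ℝ) ^ β1 ≤ (m : ℝ) ^ β1 := Real.rpow_le_rpow (Nat.cast_nonneg _) hle1 hβ1
    have e2 : (p.2 : ℝ) ^ β2 ≤ (m : ℝ) ^ β2 := Real.rpow_le_rpow (Nat.cast_nonneg _) hle2 hβ2
    rw [norm_mul, Real.rpow_add hm0]
    calc ‖b1 p.1‖ * ‖b2 p.2‖ ≤ (B1 * (p.1 : ℝ) ^ β1) * (B2 * (p.2 : ℝ) ^ β2) :=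
          mul_le_mul (h1 _ hp1) (h2 _ hp2) (norm_nonneg _) (by positivity)
      _ ≤ (B1 * (m : ℝ) ^ β1) * (B2 * (m : ℝ) ^ β2) := by gcongr
      _ = _ := by ring
  refine (Finset.sum_le_card_nsmul _ _ _ hterm).trans ?_
  rw [nsmul_eq_mul, Real.rpow_add_one hm0.ne']
  have hcard : ((m.divisorsAntidiagonal).card : ℝ) ≤ m := by
    have h3 : m.divisorsAntidiagonal.card = m.divisors.card := by
      rw [← Nat.map_div_right_divisors, Finset.card_map]
    rw [h3]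
    exact_mod_cast Nat.card_divisors_le_self m
  have h0 : 0 ≤ B1 * B2 * (m : ℝ) ^ (β1 + β2) := by positivity
  calc ((m.divisorsAntidiagonal).card : ℝ) * (B1 * B2 * (m : ℝ) ^ (β1 + β2)) ≤
      m * (B1 * B2 * (m : ℝ) ^ (β1 + β2)) := mul_le_mul_of_nonneg_right hcard h0
    _ = _ := by ring

theorem order_mul {F G : ℂ → ℂ}
    (hF : ∃ A ρ : ℝ, ∀ s : ℂ, ‖F s‖ ≤ Real.exp (A * (1 + ‖s‖) ^ ρ))
    (hG : ∃ A ρ : ℝ, ∀ s : ℂ, ‖G s‖ ≤ Real.exp (A * (1 + ‖s‖) ^ ρ)) :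
    ∃ A ρ : ℝ, ∀ s : ℂ, ‖F s * G s‖ ≤ Real.exp (A * (1 + ‖s‖) ^ ρ) := by
  obtain ⟨A1, ρ1, h1⟩ := hF
  obtain ⟨A2, ρ2, h2⟩ := hG
  refine ⟨|A1| + |A2|, max ρ1 ρ2, fun s => ?_⟩
  rw [norm_mul]
  have hs : 1 ≤ 1 + ‖s‖ := by linarith [norm_nonneg s]
  have key : ∀ A ρ : ℝ, ρ ≤ max ρ1 ρ2 → A * (1 + ‖s‖) ^ ρ ≤ |A| * (1 + ‖s‖) ^ (max ρ1 ρ2) := by
    intro A ρ hρ
    have h3 : 0 ≤ (1 + ‖s‖) ^ ρ := Real.rpow_nonneg (by linarith) _
    exact (mul_le_mul_of_nonneg_right (le_abs_self A) h3).trans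
      (mul_le_mul_of_nonneg_left (Real.rpow_le_rpow_of_exponent_le hs hρ) (abs_nonneg _))
  calc ‖F s‖ * ‖G s‖ ≤ Real.exp (A1 * (1 + ‖s‖) ^ ρ1) * Real.exp (A2 * (1 + ‖s‖) ^ ρ2) :=
        mul_le_mul (h1 s) (h2 s) (norm_nonneg _) (Real.exp_pos _).le
    _ = Real.exp (A1 * (1 + ‖s‖) ^ ρ1 + A2 * (1 + ‖s‖) ^ ρ2) := (Real.exp_add _ _).symm
    _ ≤ _ := by
        refine Real.exp_le_exp.2 ?_
        have h3 := key A1 ρ1 (le_max_left _ _)
        have h4 := key A2 ρ2 (le_max_right _ _)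
        linarith

theorem IsC.mul {l1 l2 : List Pc} {L1 L2 : ℝ} {b1 b2 : ℕ → ℂ} {w1 w2 : ℂ} {Λ1 Λ2 : ℂ → ℂ}
    (h1 : IsC l1 L1 b1 w1 Λ1) (h2 : IsC l2 L2 b2 w2 Λ2) :
    IsC (l1 ++ l2) (L1 + L2) (LSeries.convolution b1 b2) (w1 * w2) (fun s => Λ1 s * Λ2 s) := by
  obtain ⟨B1, β1, hB1, hβ1, hb1⟩ := bd_norm h1.one h1.bd
  obtain ⟨B2, β2, hB2, hβ2, hb2⟩ := bd_norm h2.one h2.bd
  refine ⟨fun q hq => ?_, ?_, ⟨B1 * B2, β1 + β2 + 1, conv_bd hB1 hB2 hβ1 hβ2 hb1 hb2⟩,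
    h1.entire.mul h2.entire, fun s => ?_, order_mul h1.order h2.order, ?_⟩
  · rcases List.mem_append.1 hq with h | h
    · exact h1.real q h
    · exact h2.real q h
  · rw [LSeries.convolution_def]
    simp [h1.one, h2.one]
  · rw [h1.fe, h2.fe, map_mul]
    ring
  · obtain ⟨σ1, hd1⟩ := h1.dir
    obtain ⟨σ2, hd2⟩ := h2.dir
    refine ⟨max (max σ1 (β1 + 2)) (max σ2 (β2 + 2)), fun s hs => ?_⟩
    have a1 : σ1 ≤ s.re := ((le_max_left _ _).trans (le_max_left _ _)).trans hs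
    have a2 : β1 + 2 ≤ s.re := ((le_max_right _ _).trans (le_max_left _ _)).trans hs
    have a3 : σ2 ≤ s.re := ((le_max_left _ _).trans (le_max_right _ _)).trans hs
    have a4 : β2 + 2 ≤ s.re := ((le_max_right _ _).trans (le_max_right _ _)).trans hs
    rw [hd1 s a1, hd2 s a3, GF_append, LSeries_convolution' (summ_of_bd hb1 (by linarith))
      (summ_of_bd hb2 (by linarith))]
    have e1 : cexp (s * ((L1 + L2 : ℝ) : ℂ)) = cexp (s * L1) * cexp (s * L2) := by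
      rw [← Complex.exp_add]
      congr 1
      push_cast
      ring
    rw [e1]
    ring

/-- the trivial product -/
theorem isC_one : IsC [] 0 (fun n => if n = 1 then 1 else 0) 1 (fun _ => 1) := by
  refine ⟨by simp, by simp, ⟨1, 0, fun m hm => ?_⟩, by fun_prop, by simp, ⟨0, 0, by simp⟩,
    ⟨0, fun s hs => ?_⟩⟩
  · rw [Real.rpow_zero, mul_one]
    split_ifs <;> simp
  · have h1 : LSeries (fun n : ℕ => if n = 1 then (1 : ℂ) else 0) s = 1 := by
      unfold LSeries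
      rw [tsum_eq_single 1]
      · rw [LSeries.term_of_ne_zero one_ne_zero]
        simp
      · intro n hn
        rcases Nat.eq_zero_or_pos n with rfl | hn0
        · simp
        · rw [LSeries.term_of_ne_zero hn0.ne']
          simp [hn]
    rw [h1]
    unfold GF
    simp

/-! ## Self-dual functions -/

theorem IsC.real_star {l : List Pc} {L : ℝ} {b : ℕ → ℂ} {w : ℂ} {Λ : ℂ → ℂ} (h : IsC l L b w Λ)
    (hb : ∀ n, conj (b n) = b n) : st Λ = Λ := by
  obtain ⟨σ1, hd1⟩ := h.dir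
  obtain ⟨σ2, hd2⟩ := h.star.dir
  have hb' : (fun n => conj (b n)) = b := funext hb
  rw [hb'] at hd2
  refine AnalyticOnNhd.eq_of_eventuallyEq (𝕜 := ℂ) (z₀ := ((max σ1 σ2 + 1 : ℝ) : ℂ))
    (fun z _ => (st_diff h.entire).analyticAt z) (fun z _ => h.entire.analyticAt z) ?_
  have hopen : IsOpen {z : ℂ | max σ1 σ2 < z.re} := isOpen_lt continuous_const Complex.continuous_re
  filter_upwards [hopen.mem_nhds (show ((max σ1 σ2 + 1 : ℝ) : ℂ) ∈ {z : ℂ | max σ1 σ2 < z.re} by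
    show max σ1 σ2 < _
    rw [Complex.ofReal_re]
    linarith)] with z hz
  have hz' : max σ1 σ2 < z.re := hz
  rw [hd1 z ((le_max_left _ _).trans hz'.le), hd2 z ((le_max_right _ _).trans hz'.le)]

/-- a completed L-function does not vanish identically -/
theorem IsC.exists_ne {l : List Pc} {L : ℝ} {b : ℕ → ℂ} {w : ℂ} {Λ : ℂ → ℂ} (h : IsC l L b w Λ)
    (hl : l ≠ []) : ∃ s, Λ s ≠ 0 := by
  obtain ⟨σ0, hd⟩ := h.dir
  obtain ⟨B, β, hB, hβ, hb⟩ := bd_norm h.one h.bd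
  obtain ⟨p, l', rfl⟩ := List.exists_cons_of_ne_nil hl
  -- the real parts of the coefficients give a nonvanishing argument via the complex series
  set x : ℝ := max σ0 (max (sh (p :: l')) (β + 2 + B)) with hx
  have x1 : σ0 ≤ x := le_max_left _ _
  have x2 : sh (p :: l') ≤ x := (le_max_left _ _).trans (le_max_right _ _)
  have x3 : β + 2 + B ≤ x := (le_max_right _ _).trans (le_max_right _ _)
  refine ⟨(x : ℂ), ?_⟩
  rw [hd _ (by rw [Complex.ofReal_re]; exact x1)]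
  refine mul_ne_zero (mul_ne_zero (Complex.exp_ne_zero _)
    ((GF_isGam p l').ne _ (by rw [Complex.ofReal_re]; exact x2))) ?_
  -- real part of the series
  intro h0
  have hs := summ_of_bd hb (s := (x : ℂ)) (by rw [Complex.ofReal_re]; linarith)
  rw [lseries_tsum hs] at h0
  have hbr : IsB (fun n => (b n).re) β B := by
    refine ⟨hβ, hB, by simp [h.one], fun m hm => (Complex.abs_re_le_norm _).trans (hb m hm)⟩
  have h1 := series_ne hbr (x : ℂ) (by rw [Complex.ofReal_re]; exact x3)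
  apply h1
  have hsum : Summable (fun m : ℕ => b (m + 1) * ((m + 1 : ℕ) : ℂ) ^ (-(x : ℂ))) := by
    have h2 : Summable (LSeries.term b (x : ℂ)) := hs
    have h3 := (summable_nat_add_iff 1).2 h2
    refine h3.congr fun m => ?_
    rw [LSeries.term_of_ne_zero (Nat.succ_ne_zero m), Complex.cpow_neg, div_eq_mul_inv]
  have e1 : ∀ m : ℕ, (((b (m + 1)).re : ℝ) : ℂ) * ((m + 1 : ℕ) : ℂ) ^ (-(x : ℂ)) =
      (((b (m + 1) * ((m + 1 : ℕ) : ℂ) ^ (-(x : ℂ))).re : ℝ) : ℂ) := by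
    intro m
    have e2 : ((m + 1 : ℕ) : ℂ) ^ (-(x : ℂ)) = ((((m + 1 : ℕ) : ℝ) ^ (-x) : ℝ) : ℂ) := by
      rw [Complex.ofReal_cpow (by positivity)]
      push_cast
      rfl
    rw [e2, Complex.re_mul_ofReal]
    push_cast
    rfl
  calc ∑' m : ℕ, (((b (m + 1)).re : ℝ) : ℂ) * ((m + 1 : ℕ) : ℂ) ^ (-(x : ℂ)) =
      ∑' m : ℕ, (((b (m + 1) * ((m + 1 : ℕ) : ℂ) ^ (-(x : ℂ))).re : ℝ) : ℂ) := tsum_congr e1
    _ = (((∑' m : ℕ, b (m + 1) * ((m + 1 : ℕ) : ℂ) ^ (-(x : ℂ))).re : ℝ) : ℂ) := by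
        rw [Complex.re_tsum hsum, Complex.ofReal_tsum]
    _ = 0 := by
        rw [h0]
        simp

theorem IsC.sign {l : List Pc} {L : ℝ} {b : ℕ → ℂ} {w : ℂ} {Λ : ℂ → ℂ} (h : IsC l L b w Λ)
    (hb : ∀ n, conj (b n) = b n) (hl : l ≠ []) : w = 1 ∨ w = -1 := by
  have h1 := h.real_star hb
  have hfe : ∀ s, Λ (1 - s) = w * Λ s := by
    intro s
    rw [h.fe]
    have := congrFun h1 s
    unfold st at this
    rw [this]
  obtain ⟨s, hs⟩ := h.exists_ne hl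
  have h2 := hfe (1 - s)
  rw [sub_sub_cancel, hfe s] at h2
  have h3 : (w - 1) * (w + 1) = 0 := by
    have h4 : ((w - 1) * (w + 1)) * Λ s = 0 := by linear_combination -h2
    exact (mul_eq_zero.1 h4).resolve_right hs
  rcases mul_eq_zero.1 h3 with h4 | h4
  · left
    linear_combination h4
  · right
    linear_combination h4

/-- Completed L-functions with real coefficients are self-dual. -/
theorem IsC.toLD {l : List Pc} {L : ℝ} {b : ℕ → ℂ} {w : ℂ} {Λ : ℂ → ℂ} (h : IsC l L b w Λ)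
    (hb : ∀ n, conj (b n) = b n) (hl : l ≠ []) : ∃ D : LD, IsLD D ∧ D.Λ = Λ ∧ (D.ε : ℂ) = w := by
  obtain ⟨p, l', rfl⟩ := List.exists_cons_of_ne_nil hl
  obtain ⟨σ0, hd⟩ := h.dir
  obtain ⟨B, β, hB, hβ, hbb⟩ := bd_norm h.one h.bd
  have hre : ∀ n, b n = (((b n).re : ℝ) : ℂ) := fun n => (Complex.conj_eq_iff_re.1 (hb n)).symm
  have h1 := h.real_star hb
  have hw := h.sign hb hl
  have hwre : ((w.re : ℝ) : ℂ) = w := by
    rcases hw with h2 | h2 <;> rw [h2] <;> simp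
  refine ⟨⟨p, l', L, fun n => (b n).re, β, B, max σ0 (β + 2), w.re, Λ⟩, ?_, rfl, hwre⟩
  refine ⟨h.real, ⟨hβ, hB, by simp [h.one], fun m hm =>
    (Complex.abs_re_le_norm _).trans (hbb m hm)⟩, ?_, h.entire, fun s => ?_, h.order, fun s hs => ?_⟩
  · rcases hw with h2 | h2
    · left
      simp only
      rw [h2, Complex.one_re]
    · right
      simp only
      rw [h2, Complex.neg_re, Complex.one_re]
  · simp only
    rw [hwre, h.fe]
    have := congrFun h1 s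
    unfold st at this
    rw [this]
  · simp only
    have h2 : σ0 ≤ s.re := (le_max_left _ _).trans hs
    have h3 : β + 2 ≤ s.re := (le_max_right _ _).trans hs
    rw [hd s h2, lseries_tsum (summ_of_bd hbb (by linarith))]
    congr 1
    refine tsum_congr fun m => ?_
    rw [← hre]

/-- the product of a completed L-function and its dual -/
theorem IsC.double {l : List Pc} {L : ℝ} {b : ℕ → ℂ} {w : ℂ} {Λ : ℂ → ℂ} (h : IsC l L b w Λ)
    (hw : ‖w‖ = 1) (hl : l ≠ []) :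
    ∃ D : LD, IsLD D ∧ D.Λ = (fun s => Λ s * st Λ s) ∧ D.ε = 1 := by
  have h1 := h.mul h.star
  have hreal : ∀ n, conj (LSeries.convolution b (fun n => conj (b n)) n) =
      LSeries.convolution b (fun n => conj (b n)) n := by
    intro n
    rw [LSeries.convolution_def]
    simp only
    rw [map_sum]
    have h3 : ∀ p : ℕ × ℕ, conj (b p.1 * conj (b p.2)) = b p.2 * conj (b p.1) := by
      intro p
      rw [map_mul, Complex.conj_conj]
      ring
    simp_rw [h3]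
    refine Finset.sum_nbij' Prod.swap Prod.swap (fun p hp => Nat.swap_mem_divisorsAntidiagonal.2 hp)
      (fun p hp => Nat.swap_mem_divisorsAntidiagonal.2 hp) (fun p _ => Prod.swap_swap p)
      (fun p _ => Prod.swap_swap p) (fun p _ => rfl)
  have hne : l ++ l ≠ [] := by
    intro h0
    exact hl (List.append_eq_nil_iff.1 h0).1
  obtain ⟨D, hD, hD1, hD2⟩ := h1.toLD hreal hne
  refine ⟨D, hD, hD1, ?_⟩
  have h3 : w * conj w = 1 := by
    rw [Complex.mul_conj, Complex.normSq_eq_norm_sq, hw]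
    simp
  rw [h3] at hD2
  exact_mod_cast hD2

end Pool.Agent.W355.LJ
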