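import Pool.Agent.W355.LJ.CD
import Pool.Agent.H471R3.GJ.Crit

set_option autoImplicit false

/-!
# The criterion at logarithmic scale
-/

namespace Pool.Agent.W355.LJ

open Complex Filter Topology
open scoped ComplexConjugate
open Pool.Agent.H471R3.GJ.Crit (Scale LogCriterion logCriterion)

open Classical in
/-- The parity. -/
noncomputable def rL (D : LD) : ℕ := if D.ε = 1 then 0 else 1

section

variable {D : LD} (h : IsLD D)

open Classical in
include h in
theorem scaleL : Scale (datL D) (rL D) (fun z => D.Λ (1 / 2 + z)) (kL D) 1 where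
  isL := isL_datL h
  hr := by
    unfold rL
    by_cases he : D.ε = 1
    · simp [he]
    · simp [he]
  hc := by linarith [kL_ge h]
  hK := one_pos
  hX := by
    intro z
    have h1 := XX_part1 h z
    have h2 : z ^ rL D = if D.ε = 1 then 1 else z := by
      unfold rL
      by_cases he : D.ε = 1
      · simp [he]
      · simp [he]
    rw [h2, h1]
    unfold sL
    rw [Complex.ofReal_one, one_mul]

open Classical in
include h in
theorem rhL : (∀ z : ℂ, (datL D).XX z = 0 → z.re = 0) ↔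
    (∀ s : ℂ, D.Λ s = 0 → s.re = 1 / 2) := by
  have hk : 0 < kL D := by linarith [kL_ge h]
  have hkc : (kL D : ℂ) ≠ 0 := by exact_mod_cast hk.ne'
  constructor
  · intro h3 s hs
    have h4 := XX_part1 h ((s - 1 / 2) / (kL D : ℂ))
    have h5 : sL D ((s - 1 / 2) / (kL D : ℂ)) = s := by
      unfold sL
      rw [mul_div_cancel₀ _ hkc]
      ring
    rw [h5, hs] at h4
    have h6 : ((s - 1 / 2) / (kL D : ℂ)).re = 0 := by
      rcases mul_eq_zero.1 h4 with h7 | h7
      · by_cases he : D.ε = 1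
        · rw [if_pos he] at h7
          exact absurd h7 one_ne_zero
        · rw [if_neg he] at h7
          rw [h7, Complex.zero_re]
      · exact h3 _ h7
    rw [Complex.div_ofReal_re] at h6
    rcases div_eq_zero_iff.1 h6 with h8 | h8
    · have e1 : (s - 1 / 2 : ℂ).re = s.re - 1 / 2 := by simp
      rw [e1] at h8
      linarith
    · exact absurd h8 hk.ne'
  · intro h3 z hz
    have h4 := XX_part1 h z
    rw [hz, mul_zero] at h4
    have h5 := h3 _ h4.symm
    rw [sL_re] at h5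
    have h6 : kL D * z.re = 0 := by linarith
    rcases mul_eq_zero.1 h6 with h7 | h7
    · exact absurd h7 hk.ne'
    · exact h7

include h in
theorem critL : LogCriterion (rL D) (fun z => D.Λ (1 / 2 + z))
    (∀ s : ℂ, D.Λ s = 0 → s.re = 1 / 2) := by
  obtain ⟨C, hC, h3, h4⟩ := logCriterion (scaleL h)
  exact ⟨C, hC, h3, (rhL h).symm.trans h4⟩

open Classical in
include h in
theorem parL (z : ℂ) : D.Λ (1 / 2 + -z) = (-1) ^ rL D * D.Λ (1 / 2 + z) := by
  have h1 := h.fe (1 / 2 + z)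
  have e1 : (1 : ℂ) - (1 / 2 + z) = 1 / 2 + -z := by ring
  rw [e1] at h1
  rw [h1]
  congr 1
  unfold rL
  rcases h.ε_or with he | he
  · simp [he]
  · have : D.ε ≠ 1 := by rw [he]; norm_num
    rw [if_neg this, he]
    simp

theorem rL_le (D : LD) : rL D ≤ 1 := by
  unfold rL
  split_ifs <;> norm_num

end

theorem rh_double (Λ : ℂ → ℂ) : (∀ s : ℂ, Λ s * st Λ s = 0 → s.re = 1 / 2) ↔
    (∀ s : ℂ, Λ s = 0 → s.re = 1 / 2) := by
  constructor
  · intro h s hs
    exact h s (by rw [hs, zero_mul])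
  · intro h s hs
    rcases mul_eq_zero.1 hs with h1 | h1
    · exact h s h1
    · unfold st at h1
      have h2 := h (conj s) ((map_eq_zero _).1 h1)
      rwa [Complex.conj_re] at h2

/-- The criterion for the product of a completed L-function and its dual. -/
theorem IsC.crit {l : List Pc} {L : ℝ} {b : ℕ → ℂ} {w : ℂ} {Λ : ℂ → ℂ} (h : IsC l L b w Λ)
    (hw : ‖w‖ = 1) (hl : l ≠ []) :
    (∀ z : ℂ, Λ (1 / 2 + -z) * st Λ (1 / 2 + -z) = Λ (1 / 2 + z) * st Λ (1 / 2 + z)) ∧
    LogCriterion 0 (fun z => Λ (1 / 2 + z) * st Λ (1 / 2 + z))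
      (∀ s : ℂ, Λ s = 0 → s.re = 1 / 2) := by
  obtain ⟨D, hD, hD1, hD2⟩ := h.double hw hl
  have hr : rL D = 0 := by
    unfold rL
    rw [if_pos hD2]
  have h1 := critL hD
  rw [hr, hD1] at h1
  obtain ⟨C, hC, h3, h4⟩ := h1
  refine ⟨fun z => ?_, C, hC, h3, (rh_double Λ).symm.trans h4⟩
  have h2 := parL hD z
  rw [hr, hD1, pow_zero, one_mul] at h2
  exact h2

/-- The criterion for self-dual completed L-functions. -/
theorem IsC.critR {l : List Pc} {L : ℝ} {b : ℕ → ℂ} {w : ℂ} {Λ : ℂ → ℂ} (h : IsC l L b w Λ)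
    (hb : ∀ n, conj (b n) = b n) (hl : l ≠ []) :
    ∃ r : ℕ, r ≤ 1 ∧ (∀ z : ℂ, Λ (1 / 2 + -z) = (-1) ^ r * Λ (1 / 2 + z)) ∧
      LogCriterion r (fun z => Λ (1 / 2 + z)) (∀ s : ℂ, Λ s = 0 → s.re = 1 / 2) := by
  obtain ⟨D, hD, hD1, hD2⟩ := h.toLD hb hl
  have h1 := critL hD
  have h2 := parL hD
  rw [hD1] at h1 h2
  exact ⟨rL D, rL_le D, h2, h1⟩

end Pool.Agent.W355.LJ
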