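import Mathlib

set_option autoImplicit false

/-!
# Fourier inversion
-/

namespace Pool.Agent.W355.LJ

open Complex Filter Topology MeasureTheory Set
open scoped FourierTransform

theorem fourier_inv (f H : ℝ → ℂ) (hf : Integrable f) (hc : Continuous f)
    (hH : ∀ τ : ℝ, ∫ t : ℝ, f t * cexp (τ * t * I) = H τ) (hHi : Integrable H) (t : ℝ) :
    f t = 1 / (2 * Real.pi) * ∫ τ : ℝ, H τ * cexp (-(τ * t * I)) := by
  have h1 : ∀ w : ℝ, 𝓕 f w = H (-2 * Real.pi * w) := by
    intro w
    rw [Real.fourier_real_eq_integral_exp_smul, ← hH]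
    refine integral_congr_ae (Eventually.of_forall fun v => ?_)
    simp only [smul_eq_mul]
    rw [mul_comm]
    congr 2
    push_cast
    ring
  have hpi : (-2 * Real.pi : ℝ) ≠ 0 := by
    have := Real.pi_pos
    intro h0
    linarith
  have h2 : Integrable (𝓕 f) := by
    have h3 := hHi.comp_mul_left' hpi
    refine h3.congr (Eventually.of_forall fun w => ?_)
    exact (h1 w).symm
  have h3 := hf.fourierInv_fourier_eq h2 hc.continuousAt (v := t)
  rw [← h3]
  have h4 : 𝓕⁻ (𝓕 f) t = ∫ w : ℝ, (fun τ : ℝ => H τ * cexp (-(τ * t * I))) (-2 * Real.pi * w) := by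
    rw [Real.fourierInv_eq']
    refine integral_congr_ae (Eventually.of_forall fun w => ?_)
    simp only [smul_eq_mul]
    rw [h1, mul_comm]
    congr 2
    simp only [RCLike.inner_apply, conj_trivial]
    push_cast
    ring
  rw [h4, Measure.integral_comp_mul_left (fun τ : ℝ => H τ * cexp (-(τ * t * I))) (-2 * Real.pi)]
  have h5 : |(-2 * Real.pi)⁻¹| = 1 / (2 * Real.pi) := by
    have := Real.pi_pos
    rw [abs_inv, show (-2 * Real.pi : ℝ) = -(2 * Real.pi) by ring, abs_neg,
      abs_of_pos (by positivity), one_div]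
  rw [h5, Complex.real_smul]
  push_cast
  rfl

end Pool.Agent.W355.LJ
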