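import Mathlib

set_option autoImplicit false

/-!
# Shift of vertical contours
-/

namespace Pool.Agent.W355.LJ

open Complex Filter Topology MeasureTheory Set

/-- Shift with Gaussian decay. -/
theorem shift_gauss (F : ℂ → ℂ) (hF : Differentiable ℂ F) (a b : ℝ) (hab : a ≤ b) (M δ : ℝ)
    (hδ : 0 < δ) (hM : 0 ≤ M)
    (hbd : ∀ x y : ℝ, a ≤ x → x ≤ b → ‖F (x + y * I)‖ ≤ M * Real.exp (-δ * y ^ 2)) :
    ∫ y : ℝ, F (a + y * I) = ∫ y : ℝ, F (b + y * I) := by
  have hc := hF.continuous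
  have hint : ∀ x : ℝ, a ≤ x → x ≤ b → Integrable (fun y : ℝ => F (x + y * I)) := by
    intro x h1 h2
    refine ((integrable_exp_neg_mul_sq hδ).const_mul M).mono'
      (by fun_prop : Continuous (fun y : ℝ => F (x + y * I))).aestronglyMeasurable
      (Eventually.of_forall fun y => hbd x y h1 h2)
  have hlim : ∀ x : ℝ, a ≤ x → x ≤ b → Tendsto (fun T : ℝ => ∫ y : ℝ in (-T)..T, F (x + y * I))
      atTop (𝓝 (∫ y : ℝ, F (x + y * I))) := fun x h1 h2 =>
    intervalIntegral_tendsto_integral (hint x h1 h2) tendsto_neg_atTop_atBot tendsto_id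
  have hexp : Tendsto (fun T : ℝ => M * Real.exp (-δ * T ^ 2) * |b - a|) atTop (𝓝 0) := by
    have h1 : Tendsto (fun T : ℝ => δ * T ^ 2) atTop atTop :=
      Tendsto.const_mul_atTop hδ (tendsto_pow_atTop two_ne_zero)
    have h2 := (Real.tendsto_exp_neg_atTop_nhds_zero.comp h1).const_mul M
    have h3 := h2.mul_const |b - a|
    rw [mul_zero, zero_mul] at h3
    refine h3.congr fun T => ?_
    simp only [Function.comp]
    rw [neg_mul]
  have hhor : ∀ σ : ℝ, |σ| = 1 → Tendsto (fun T : ℝ => ∫ x : ℝ in a..b, F (x + (σ * T : ℝ) * I))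
      atTop (𝓝 0) := by
    intro σ hσ
    refine squeeze_zero_norm (fun T => ?_) hexp
    refine intervalIntegral.norm_integral_le_of_norm_le_const (fun x hx => ?_)
    rw [Set.uIoc_of_le hab] at hx
    refine (hbd x (σ * T) hx.1.le hx.2).trans (le_of_eq ?_)
    have : (σ * T) ^ 2 = T ^ 2 := by
      rw [mul_pow, ← sq_abs σ, hσ]
      ring
    rw [this]
  have hrect : ∀ T : ℝ, (∫ x : ℝ in a..b, F (x + ((-1 : ℝ) * T : ℝ) * I)) -
      (∫ x : ℝ in a..b, F (x + ((1 : ℝ) * T : ℝ) * I)) +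
      I • (∫ y : ℝ in (-T)..T, F (b + y * I)) - I • (∫ y : ℝ in (-T)..T, F (a + y * I)) = 0 := by
    intro T
    have h1 := Complex.integral_boundary_rect_eq_zero_of_differentiableOn F ((a : ℂ) + ((-T : ℝ) : ℂ) * I)
      ((b : ℂ) + ((T : ℝ) : ℂ) * I) hF.differentiableOn
    have e1 : ((a : ℂ) + ((-T : ℝ) : ℂ) * I).re = a := by simp
    have e2 : ((a : ℂ) + ((-T : ℝ) : ℂ) * I).im = -T := by simp
    have e3 : ((b : ℂ) + ((T : ℝ) : ℂ) * I).re = b := by simp
    have e4 : ((b : ℂ) + ((T : ℝ) : ℂ) * I).im = T := by simp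
    rw [e1, e2, e3, e4] at h1
    rw [neg_one_mul, one_mul]
    exact h1
  have h1 := (((hhor (-1) (by simp)).sub (hhor 1 (by simp))).add
    ((hlim b hab le_rfl).const_smul I)).sub ((hlim a le_rfl hab).const_smul I)
  have h2 : (0 : ℂ) = 0 - 0 + I • (∫ y : ℝ, F (b + y * I)) - I • ∫ y : ℝ, F (a + y * I) :=
    tendsto_nhds_unique (tendsto_const_nhds.congr fun T => (hrect T).symm) h1
  have h3 : I * (∫ y : ℝ, F (a + y * I)) = I * ∫ y : ℝ, F (b + y * I) := by
    simp only [smul_eq_mul] at h2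
    linear_combination h2
  exact mul_left_cancel₀ Complex.I_ne_zero h3

/-- Shift for functions bounded in the strip. -/
theorem shift_bdd (F : ℂ → ℂ) (hF : Differentiable ℂ F) (a b : ℝ) (hab : a ≤ b) (M : ℝ)
    (hbd : ∀ x y : ℝ, a ≤ x → x ≤ b → ‖F (x + y * I)‖ ≤ M)
    (ha : Integrable (fun y : ℝ => F (a + y * I))) (hb : Integrable (fun y : ℝ => F (b + y * I))) :
    ∫ y : ℝ, F (a + y * I) = ∫ y : ℝ, F (b + y * I) := by
  have hM : 0 ≤ M := (norm_nonneg _).trans (hbd a 0 le_rfl hab)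
  have hc := hF.continuous
  set R : ℝ := max |a| |b| with hR
  have hR0 : 0 ≤ R := (abs_nonneg a).trans (le_max_left _ _)
  have hxR : ∀ x : ℝ, a ≤ x → x ≤ b → x ^ 2 ≤ R ^ 2 := by
    intro x h1 h2
    rw [← sq_abs]
    refine pow_le_pow_left₀ (abs_nonneg _) ?_ 2
    rw [abs_le]
    constructor
    · have := neg_abs_le a
      have := le_max_left |a| |b|
      linarith
    · have := le_abs_self b
      have := le_max_right |a| |b|
      linarith
  set E : ℕ → ℂ → ℂ := fun n s => cexp (((1 / ((n : ℝ) + 1) : ℝ) : ℂ) * s ^ 2) with hE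
  have hEn : ∀ (n : ℕ) (x y : ℝ), ‖E n (x + y * I)‖ =
      Real.exp (1 / ((n : ℝ) + 1) * (x ^ 2 - y ^ 2)) := by
    intro n x y
    rw [hE]
    simp only
    rw [Complex.norm_exp, Complex.re_ofReal_mul]
    congr 2
    rw [sq, Complex.mul_re]
    simp
    ring
  have hEle : ∀ (n : ℕ) (x y : ℝ), a ≤ x → x ≤ b → ‖E n (x + y * I)‖ ≤
      Real.exp (R ^ 2) * Real.exp (-(1 / ((n : ℝ) + 1)) * y ^ 2) := by
    intro n x y h1 h2
    rw [hEn, ← Real.exp_add]
    refine Real.exp_le_exp.2 ?_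
    have h3 : 0 < 1 / ((n : ℝ) + 1) := by positivity
    have h4 : 1 / ((n : ℝ) + 1) ≤ 1 := by
      rw [div_le_one (by positivity)]
      have : (0 : ℝ) ≤ n := Nat.cast_nonneg n
      linarith
    have h5 := hxR x h1 h2
    have h6 : 1 / ((n : ℝ) + 1) * x ^ 2 ≤ 1 * R ^ 2 :=
      mul_le_mul h4 h5 (sq_nonneg x) zero_le_one
    linarith
  have hEle1 : ∀ (n : ℕ) (x y : ℝ), a ≤ x → x ≤ b → ‖E n (x + y * I)‖ ≤ Real.exp (R ^ 2) := by
    intro n x y h1 h2
    refine (hEle n x y h1 h2).trans ?_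
    have h3 : Real.exp (-(1 / ((n : ℝ) + 1)) * y ^ 2) ≤ 1 := by
      rw [Real.exp_le_one_iff]
      have : 0 ≤ 1 / ((n : ℝ) + 1) * y ^ 2 := by positivity
      linarith
    calc Real.exp (R ^ 2) * Real.exp (-(1 / ((n : ℝ) + 1)) * y ^ 2) ≤ Real.exp (R ^ 2) * 1 :=
          mul_le_mul_of_nonneg_left h3 (Real.exp_pos _).le
      _ = _ := mul_one _
  have heq : ∀ n : ℕ, ∫ y : ℝ, E n (a + y * I) * F (a + y * I) =
      ∫ y : ℝ, E n (b + y * I) * F (b + y * I) := by
    intro n
    refine shift_gauss (fun s => E n s * F s) ?_ a b hab (Real.exp (R ^ 2) * M)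
      (1 / ((n : ℝ) + 1)) (by positivity) (by positivity) (fun x y h1 h2 => ?_)
    · refine Differentiable.mul ?_ hF
      rw [hE]
      fun_prop
    · rw [norm_mul]
      calc ‖E n (x + y * I)‖ * ‖F (x + y * I)‖ ≤
          (Real.exp (R ^ 2) * Real.exp (-(1 / ((n : ℝ) + 1)) * y ^ 2)) * M :=
            mul_le_mul (hEle n x y h1 h2) (hbd x y h1 h2) (norm_nonneg _) (by positivity)
        _ = _ := by ring
  have hElim : ∀ s : ℂ, Tendsto (fun n : ℕ => E n s) atTop (𝓝 1) := by
    intro s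
    have h1 : Tendsto (fun n : ℕ => 1 / ((n : ℝ) + 1)) atTop (𝓝 0) :=
      tendsto_one_div_add_atTop_nhds_zero_nat
    have h2 : Tendsto (fun n : ℕ => ((1 / ((n : ℝ) + 1) : ℝ) : ℂ) * s ^ 2) atTop (𝓝 0) := by
      have h3 := (Complex.continuous_ofReal.tendsto 0).comp h1
      have h4 := h3.mul_const (s ^ 2)
      rw [Complex.ofReal_zero, zero_mul] at h4
      exact h4
    have h5 := (Complex.continuous_exp.tendsto 0).comp h2
    rw [Complex.exp_zero] at h5
    exact h5
  have hconv : ∀ x : ℝ, a ≤ x → x ≤ b → Integrable (fun y : ℝ => F (x + y * I)) →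
      Tendsto (fun n : ℕ => ∫ y : ℝ, E n (x + y * I) * F (x + y * I)) atTop
        (𝓝 (∫ y : ℝ, F (x + y * I))) := by
    intro x h1 h2 h3
    refine tendsto_integral_of_dominated_convergence
      (fun y : ℝ => Real.exp (R ^ 2) * ‖F (x + y * I)‖) (fun n => ?_) (h3.norm.const_mul _)
      (fun n => Eventually.of_forall fun y => ?_) (Eventually.of_forall fun y => ?_)
    · refine Continuous.aestronglyMeasurable ?_
      rw [hE]
      fun_prop
    · rw [norm_mul]
      exact mul_le_mul_of_nonneg_right (hEle1 n x y h1 h2) (norm_nonneg _)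
    · have h4 := (hElim (x + y * I)).mul_const (F (x + y * I))
      rw [one_mul] at h4
      exact h4
  have h1 := hconv a le_rfl hab ha
  have h2 := hconv b hab le_rfl hb
  exact tendsto_nhds_unique h1 (h2.congr fun n => (heq n).symm)

/-- Functions of finite order, bounded on the boundary of a strip, are bounded in the strip. -/
theorem strip_bdd (F : ℂ → ℂ) (hF : Differentiable ℂ F) (a b : ℝ) (hab : a < b) (M A ρ : ℝ)
    (hord : ∀ s : ℂ, ‖F s‖ ≤ Real.exp (A * (1 + ‖s‖) ^ ρ))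
    (ha : ∀ y : ℝ, ‖F (a + y * I)‖ ≤ M) (hb : ∀ y : ℝ, ‖F (b + y * I)‖ ≤ M) :
    ∀ x y : ℝ, a ≤ x → x ≤ b → ‖F (x + y * I)‖ ≤ M := by
  intro x y hx hy
  have hba : 0 < b - a := sub_pos.2 hab
  set c : ℝ := Real.pi / (2 * (b - a)) with hc
  have hc0 : 0 < c := by positivity
  set R : ℝ := |a| + |b| with hR
  set k : ℕ := ⌈|ρ|⌉₊ with hk
  set K : ℝ := |A| * ((k.factorial : ℝ) / c ^ k * Real.exp (c * (1 + R))) with hK
  have hK0 : 0 ≤ K := by positivity
  refine PhragmenLindelof.vertical_strip (f := F) (a := a) (b := b) (C := M) hF.diffContOnCl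
    ⟨c, ?_, K, ?_⟩ (fun z hz => ?_) (fun z hz => ?_) (by simpa using hx) (by simpa using hy)
  · rw [hc]
    exact div_lt_div_of_pos_left Real.pi_pos hba (by linarith)
  · refine Asymptotics.IsBigO.of_bound 1 ?_
    refine Filter.mem_inf_of_right ?_
    rw [Filter.mem_principal]
    intro z hz
    have hz1 : a < z.re := hz.1
    have hz2 : z.re < b := hz.2
    rw [Set.mem_ofPred_eq, one_mul, Real.norm_of_nonneg (Real.exp_pos _).le]
    refine (hord z).trans (Real.exp_le_exp.2 ?_)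
    have hre : |z.re| ≤ R := by
      rw [hR, abs_le]
      have h1 := neg_abs_le a
      have h2 := le_abs_self b
      have h3 := abs_nonneg a
      have h4 := abs_nonneg b
      constructor <;> linarith
    have hnorm : ‖z‖ ≤ R + |z.im| := (Complex.norm_le_abs_re_add_abs_im z).trans (by linarith)
    have h1 : (1 : ℝ) ≤ 1 + ‖z‖ := by linarith [norm_nonneg z]
    have h2 : (1 + ‖z‖) ^ ρ ≤ (1 + ‖z‖) ^ k := by
      rw [← Real.rpow_natCast]
      exact Real.rpow_le_rpow_of_exponent_le h1 ((le_abs_self ρ).trans (Nat.le_ceil _))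
    have h3 : (1 + ‖z‖) ^ k ≤ (1 + R + |z.im|) ^ k :=
      pow_le_pow_left₀ (by linarith) (by linarith) k
    have hy0 : 0 ≤ 1 + R + |z.im| := by positivity
    have h4 : (1 + R + |z.im|) ^ k ≤ (k.factorial : ℝ) / c ^ k * Real.exp (c * (1 + R)) *
        Real.exp (c * |z.im|) := by
      have h5 := Real.pow_div_factorial_le_exp (c * (1 + R + |z.im|)) (by positivity) k
      have h6 : Real.exp (c * (1 + R + |z.im|)) = Real.exp (c * (1 + R)) *
          Real.exp (c * |z.im|) := by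
        rw [← Real.exp_add]
        congr 1
        ring
      rw [h6, mul_pow, div_le_iff₀ (by positivity)] at h5
      have hck : 0 < c ^ k := pow_pos hc0 k
      have h7 : (k.factorial : ℝ) / c ^ k * Real.exp (c * (1 + R)) * Real.exp (c * |z.im|) =
          (Real.exp (c * (1 + R)) * Real.exp (c * |z.im|) * (k.factorial : ℝ)) / c ^ k := by
        field_simp
      rw [h7, le_div_iff₀ hck]
      linarith
    have h0 : 0 ≤ (1 + ‖z‖) ^ ρ := Real.rpow_nonneg (by linarith) _
    calc A * (1 + ‖z‖) ^ ρ ≤ |A| * (1 + ‖z‖) ^ ρ :=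
          mul_le_mul_of_nonneg_right (le_abs_self A) h0
      _ ≤ |A| * ((k.factorial : ℝ) / c ^ k * Real.exp (c * (1 + R)) * Real.exp (c * |z.im|)) :=
          mul_le_mul_of_nonneg_left (h2.trans (h3.trans h4)) (abs_nonneg A)
      _ = K * Real.exp (c * |z.im|) := by
          rw [hK]
          ring
  · have : z = (a : ℂ) + z.im * I := by
      rw [← hz]
      exact (Complex.re_add_im z).symm
    rw [this]
    exact ha _
  · have : z = (b : ℂ) + z.im * I := by
      rw [← hz]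
      exact (Complex.re_add_im z).symm
    rw [this]
    exact hb _

end Pool.Agent.W355.LJ
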