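import Pool.Agent.W355.LJ.Theta
import Pool.Agent.W355.LJ.Shift
import Pool.Agent.W355.LJ.Inv

set_option autoImplicit false

/-!
# The functional equation of the theta series
-/

namespace Pool.Agent.W355.LJ

open Complex Filter Topology MeasureTheory Set

theorem series_bdd {b : ℕ → ℝ} {β B : ℝ} (hb : IsB b β B) (s : ℂ) (hs : β + 2 ≤ s.re) :
    ‖∑' m : ℕ, ((b (m + 1) : ℝ) : ℂ) * ((m + 1 : ℕ) : ℂ) ^ (-s)‖ ≤
      B * ∑' m : ℕ, ((m + 1 : ℕ) : ℝ) ^ (-2 : ℝ) := by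
  have h1 : ∀ m : ℕ, ‖((b (m + 1) : ℝ) : ℂ) * ((m + 1 : ℕ) : ℂ) ^ (-s)‖ ≤
      B * ((m + 1 : ℕ) : ℝ) ^ (-2 : ℝ) := by
    intro m
    rw [norm_mul, Complex.norm_real, Real.norm_eq_abs,
      Complex.norm_natCast_cpow_of_pos (Nat.succ_pos m), Complex.neg_re]
    have h2 := b_term hb m 1 s.re (((m + 1 : ℕ) : ℝ) ^ (-s.re)) hs (by positivity) ?_ zero_le_one
    · rw [mul_one] at h2
      exact h2
    · rw [one_mul, Real.rpow_def_of_pos (by positivity)]
      refine le_of_eq ?_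
      congr 1
      ring
  refine (tsum_of_norm_bounded (sum_two.mul_left B).hasSum h1).trans (le_of_eq ?_)
  exact tsum_mul_left

theorem th_fe {b : ℕ → ℝ} {β B : ℝ} (hb : IsB b β B) {G : ℝ → ℝ} {α : ℝ} {γ : ℂ → ℂ}
    (hG : IsG G α γ) (L : ℝ) (hdec : ∀ σ : ℝ, α ≤ σ → ∃ C : ℝ, ∀ τ : ℝ,
      ‖γ (σ + τ * I)‖ ≤ C / (1 + τ ^ 2))
    (Λ : ℂ → ℂ) (hΛ : Differentiable ℂ Λ) (ε : ℝ) (hε : ε = 1 ∨ ε = -1)
    (hfe : ∀ s, Λ (1 - s) = (ε : ℂ) * Λ s) (A ρ : ℝ)
    (hord : ∀ s : ℂ, ‖Λ s‖ ≤ Real.exp (A * (1 + ‖s‖) ^ ρ)) (σ0 : ℝ)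
    (hdir : ∀ s : ℂ, σ0 ≤ s.re → Λ s = cexp (s * L) * γ s *
      ∑' m : ℕ, ((b (m + 1) : ℝ) : ℂ) * ((m + 1 : ℕ) : ℂ) ^ (-s)) (t : ℝ) :
    Th b L G (-t) = ε * (Real.exp t * Th b L G t) := by
  set c : ℝ := max (max α (β + 2)) (max σ0 1) + 1 with hc
  have hcα : α < c := by
    have := le_max_left (max α (β + 2)) (max σ0 1)
    have := le_max_left α (β + 2)
    linarith
  have hcβ : β + 2 < c := by
    have := le_max_left (max α (β + 2)) (max σ0 1)
    have := le_max_right α (β + 2)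
    linarith
  have hcσ : σ0 < c := by
    have := le_max_right (max α (β + 2)) (max σ0 1)
    have := le_max_left σ0 1
    linarith
  have hc1 : 1 < c := by
    have := le_max_right (max α (β + 2)) (max σ0 1)
    have := le_max_right σ0 1
    linarith
  have hcre : ∀ τ : ℝ, ((c : ℂ) + τ * I).re = c := fun τ => by simp
  have hlap : ∀ τ : ℝ, ∫ t : ℝ, ((Th b L G t : ℝ) : ℂ) * cexp (((c : ℂ) + τ * I) * t) =
      Λ (c + τ * I) := by
    intro τ
    rw [th_lap hb hG L _ (by rw [hcre]; exact hcα.le) (by rw [hcre]; exact hcβ.le),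
      hdir _ (by rw [hcre]; exact hcσ.le)]
  have hcontΛ := hΛ.continuous
  -- decay
  obtain ⟨C0, hC0⟩ := hdec c hcα.le
  set S : ℝ := B * ∑' m : ℕ, ((m + 1 : ℕ) : ℝ) ^ (-2 : ℝ) with hS
  have hB := hb.B_one
  have hS0 : 0 ≤ S := mul_nonneg (by linarith) (tsum_nonneg fun m => by positivity)
  set C : ℝ := Real.exp (c * L) * |C0| * S with hCd
  have hCn : 0 ≤ C := by positivity
  have hline : ∀ τ : ℝ, ‖Λ (c + τ * I)‖ ≤ C / (1 + τ ^ 2) := by
    intro τ
    rw [hdir _ (by rw [hcre]; exact hcσ.le), norm_mul, norm_mul, Complex.norm_exp]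
    have e1 : (((c : ℂ) + τ * I) * (L : ℂ)).re = c * L := by
      rw [Complex.mul_re, Complex.ofReal_re, Complex.ofReal_im, hcre]
      ring
    rw [e1]
    have h1 := series_bdd hb ((c : ℂ) + τ * I) (by rw [hcre]; exact hcβ.le)
    have h2 : ‖γ (c + τ * I)‖ ≤ |C0| / (1 + τ ^ 2) :=
      (hC0 τ).trans (div_le_div_of_nonneg_right (le_abs_self _) (by positivity))
    calc Real.exp (c * L) * ‖γ (c + τ * I)‖ * ‖∑' m : ℕ, ((b (m + 1) : ℝ) : ℂ) *
          ((m + 1 : ℕ) : ℂ) ^ (-((c : ℂ) + τ * I))‖ ≤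
        Real.exp (c * L) * (|C0| / (1 + τ ^ 2)) * S := by
          refine mul_le_mul (mul_le_mul_of_nonneg_left h2 (Real.exp_pos _).le) h1 (norm_nonneg _)
            (by positivity)
      _ = _ := by
          rw [hCd]
          ring
  have hline1 : ∀ τ : ℝ, ‖Λ (c + τ * I)‖ ≤ C := by
    intro τ
    refine (hline τ).trans ?_
    exact div_le_self hCn (by nlinarith [sq_nonneg τ])
  have hleft : ∀ τ : ℝ, Λ (((1 - c : ℝ) : ℂ) + τ * I) = (ε : ℂ) * Λ (c + ((-τ : ℝ) : ℂ) * I) := by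
    intro τ
    rw [← hfe]
    congr 1
    push_cast
    ring
  have hεn : ‖(ε : ℂ)‖ = 1 := by
    rcases hε with h | h <;> rw [h] <;> simp
  have hline2 : ∀ τ : ℝ, ‖Λ (((1 - c : ℝ) : ℂ) + τ * I)‖ ≤ C := by
    intro τ
    rw [hleft, norm_mul, hεn, one_mul]
    exact hline1 _
  have hbdd := strip_bdd Λ hΛ (1 - c) c (by linarith) C A ρ hord hline2 hline1
  have hint : Integrable (fun τ : ℝ => Λ (c + τ * I)) := by
    refine (integrable_inv_one_add_sq.const_mul C).mono'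
      (by fun_prop : Continuous (fun τ : ℝ => Λ (c + τ * I))).aestronglyMeasurable
      (Eventually.of_forall fun τ => ?_)
    refine (hline τ).trans (le_of_eq ?_)
    rw [div_eq_mul_inv]
  -- inversion
  have hinv : ∀ t : ℝ, ((Th b L G t : ℝ) : ℂ) = 1 / (2 * Real.pi) *
      ∫ τ : ℝ, Λ (c + τ * I) * cexp (-(((c : ℂ) + τ * I) * t)) := by
    intro t
    have hf : Integrable (fun t : ℝ => ((Th b L G t : ℝ) : ℂ) * cexp ((c : ℂ) * t)) :=
      th_int hb hG L (c : ℂ) (by simpa using hcα) (by simpa using hcβ)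
    have hcont := th_cont hb hG L
    have h1 := fourier_inv (fun t : ℝ => ((Th b L G t : ℝ) : ℂ) * cexp ((c : ℂ) * t))
      (fun τ : ℝ => Λ (c + τ * I)) hf (by fun_prop) (fun τ => ?_) hint t
    · have h2 : ((Th b L G t : ℝ) : ℂ) = ((Th b L G t : ℝ) : ℂ) * cexp ((c : ℂ) * t) *
          cexp (-((c : ℂ) * t)) := by
        rw [mul_assoc, ← Complex.exp_add, add_neg_cancel, Complex.exp_zero, mul_one]
      rw [h2, h1, mul_assoc, ← integral_mul_const]
      congr 2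
      funext τ
      rw [mul_assoc, ← Complex.exp_add]
      congr 2
      ring
    · rw [← hlap]
      refine integral_congr_ae (Eventually.of_forall fun x => ?_)
      simp only
      rw [mul_assoc, ← Complex.exp_add]
      congr 2
      ring
  -- shift
  have hshift : ∀ t : ℝ, ∫ τ : ℝ, Λ (((1 - c : ℝ) : ℂ) + τ * I) *
      cexp (-((((1 - c : ℝ) : ℂ) + τ * I) * t)) =
      ∫ τ : ℝ, Λ (c + τ * I) * cexp (-(((c : ℂ) + τ * I) * t)) := by
    intro t
    have hnorm : ∀ x τ : ℝ, ‖cexp (-(((x : ℂ) + τ * I) * t))‖ = Real.exp (-(x * t)) := by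
      intro x τ
      rw [Complex.norm_exp]
      congr 1
      simp
    have hintc : ∀ x : ℝ, Integrable (fun τ : ℝ => Λ (x + τ * I)) →
        Integrable (fun τ : ℝ => Λ (x + τ * I) * cexp (-(((x : ℂ) + τ * I) * t))) := by
      intro x hx
      refine (hx.norm.mul_const (Real.exp (-(x * t)))).mono'
        (by fun_prop : Continuous (fun τ : ℝ => Λ (x + τ * I) *
          cexp (-(((x : ℂ) + τ * I) * t)))).aestronglyMeasurable
        (Eventually.of_forall fun τ => ?_)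
      rw [norm_mul, hnorm]
    have hint' : Integrable (fun τ : ℝ => Λ (((1 - c : ℝ) : ℂ) + τ * I)) := by
      simp_rw [hleft]
      exact (hint.comp_neg).const_mul _
    refine shift_bdd (fun s => Λ s * cexp (-(s * t))) (by fun_prop) (1 - c) c (by linarith)
      (C * Real.exp (c * |t|)) (fun x y h1 h2 => ?_) (hintc (1 - c) hint') (hintc c hint)
    rw [norm_mul, hnorm]
    refine mul_le_mul (hbdd x y h1 h2) (Real.exp_le_exp.2 ?_) (Real.exp_pos _).le hCn
    have h3 : |x| ≤ c := by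
      rw [abs_le]
      constructor <;> linarith
    calc -(x * t) ≤ |x * t| := neg_le_abs _
      _ = |x| * |t| := abs_mul _ _
      _ ≤ c * |t| := mul_le_mul_of_nonneg_right h3 (abs_nonneg _)
  have hkey : ((Th b L G t : ℝ) : ℂ) = (ε : ℂ) * (cexp (-(t : ℂ)) * ((Th b L G (-t) : ℝ) : ℂ)) := by
    rw [hinv t, ← hshift t, hinv (-t)]
    have h1 : (fun τ : ℝ => Λ (((1 - c : ℝ) : ℂ) + τ * I) *
        cexp (-((((1 - c : ℝ) : ℂ) + τ * I) * t))) = fun τ : ℝ => (ε : ℂ) * cexp (-(t : ℂ)) *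
        (fun τ : ℝ => Λ (c + τ * I) * cexp (-(((c : ℂ) + τ * I) * ((-t : ℝ) : ℂ)))) (-τ) := by
      funext τ
      simp only
      rw [hleft]
      have h2 : cexp (-((((1 - c : ℝ) : ℂ) + τ * I) * t)) = cexp (-(t : ℂ)) *
          cexp (-(((c : ℂ) + ((-τ : ℝ) : ℂ) * I) * ((-t : ℝ) : ℂ))) := by
        rw [← Complex.exp_add]
        congr 1
        push_cast
        ring
      rw [h2]
      ring
    rw [h1, integral_const_mul, integral_neg_eq_self (fun τ : ℝ => Λ (c + τ * I) *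
      cexp (-(((c : ℂ) + τ * I) * ((-t : ℝ) : ℂ)))) volume]
    ring
  have hkey2 : Th b L G t = ε * (Real.exp (-t) * Th b L G (-t)) := by
    have : ((Th b L G t : ℝ) : ℂ) = ((ε * (Real.exp (-t) * Th b L G (-t)) : ℝ) : ℂ) := by
      rw [hkey]
      push_cast
      ring
    exact_mod_cast this
  rw [hkey2]
  have h3 : Real.exp t * Real.exp (-t) = 1 := by
    rw [← Real.exp_add]
    simp
  have h4 : ε * ε = 1 := by
    rcases hε with h | h <;> rw [h] <;> norm_num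
  linear_combination (-(Th b L G (-t))) * h4 - ε * ε * Th b L G (-t) * h3

end Pool.Agent.W355.LJ
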