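import Pool.Agent.W355.LJ.Crit

set_option autoImplicit false

/-!
# The criterion for completed L-functions, self-dual or not
-/

namespace Pool.Agent.W355.LJ

open Complex Filter Topology
open scoped ComplexConjugate
open Pool.Agent.H471R3.GJ.Crit (Scale LogCriterion logCriterion)

theorem absc_lt {b : ℕ → ℂ} (h1 : b 1 = 1)
    (h : ∃ B β : ℝ, ∀ m : ℕ, 1 ≤ m → ‖b m‖ ≤ B * (m : ℝ) ^ β) :
    LSeries.abscissaOfAbsConv b < ⊤ := by
  obtain ⟨B, β, hB, hβ, hb⟩ := bd_norm h1 h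
  have h2 : LSeriesSummable b ((β + 2 : ℝ) : ℂ) :=
    summ_of_bd hb (by rw [Complex.ofReal_re]; linarith)
  exact lt_of_le_of_lt h2.abscissaOfAbsConv_le (EReal.coe_lt_top _)

theorem IsC.real_of_star {l : List Pc} {M : ℝ} {b : ℕ → ℂ} {w : ℂ} {Λ : ℂ → ℂ} (h : IsC l M b w Λ)
    (hl : l ≠ []) (hs : st Λ = Λ) : ∀ n, 1 ≤ n → conj (b n) = b n := by
  intro n hn
  have hst := h.star
  obtain ⟨σ1, hd1⟩ := h.dir
  obtain ⟨σ2, hd2⟩ := hst.dir
  obtain ⟨p, l', rfl⟩ := List.exists_cons_of_ne_nil hl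
  refine LSeries.eq_of_LSeries_eventually_eq (f := fun n => conj (b n)) (g := b)
    (absc_lt hst.one hst.bd) (absc_lt h.one h.bd) ?_ (Nat.one_le_iff_ne_zero.1 hn)
  filter_upwards [eventually_ge_atTop (max (max σ1 σ2) (sh (p :: l')))] with x hx
  have x1 : σ1 ≤ x := ((le_max_left _ _).trans (le_max_left _ _)).trans hx
  have x2 : σ2 ≤ x := ((le_max_right _ _).trans (le_max_left _ _)).trans hx
  have x3 : sh (p :: l') ≤ x := (le_max_right _ _).trans hx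
  have e1 := hd1 (x : ℂ) (by rw [Complex.ofReal_re]; exact x1)
  have e2 := hd2 (x : ℂ) (by rw [Complex.ofReal_re]; exact x2)
  rw [hs, e1] at e2
  have hne : cexp ((x : ℂ) * (M : ℂ)) * GF (p :: l') (x : ℂ) ≠ 0 :=
    mul_ne_zero (Complex.exp_ne_zero _)
      ((GF_isGam p l').ne _ (by rw [Complex.ofReal_re]; exact x3))
  exact (mul_left_cancel₀ hne e2).symm

theorem IsC.congr' {l : List Pc} {M : ℝ} {b b' : ℕ → ℂ} {w : ℂ} {Λ : ℂ → ℂ} (h : IsC l M b w Λ)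
    (hb : ∀ n, 1 ≤ n → b' n = b n) : IsC l M b' w Λ := by
  refine ⟨h.real, by rw [hb 1 le_rfl]; exact h.one, ?_, h.entire, h.fe, h.order, ?_⟩
  · obtain ⟨B, β, hbd⟩ := h.bd
    exact ⟨B, β, fun m hm => by rw [hb m hm]; exact hbd m hm⟩
  · obtain ⟨σ0, hd⟩ := h.dir
    refine ⟨σ0, fun s hs => ?_⟩
    rw [hd s hs]
    congr 1
    refine LSeries_congr (fun {n} hn => ?_) s
    exact (hb n (Nat.one_le_iff_ne_zero.2 hn)).symm

theorem IsC.critS {l : List Pc} {M : ℝ} {b : ℕ → ℂ} {w : ℂ} {Λ : ℂ → ℂ} (h : IsC l M b w Λ)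
    (hl : l ≠ []) (hs : st Λ = Λ) :
    ∃ r : ℕ, r ≤ 1 ∧ (∀ z : ℂ, Λ (1 / 2 + -z) = (-1) ^ r * Λ (1 / 2 + z)) ∧
      LogCriterion r (fun z => Λ (1 / 2 + z)) (∀ s : ℂ, Λ s = 0 → s.re = 1 / 2) := by
  classical
  have h1 : IsC l M (fun n => if n = 0 then 0 else b n) w Λ := by
    refine h.congr' fun n hn => ?_
    rw [if_neg (by omega)]
  refine h1.critR (fun n => ?_) hl
  by_cases hn : n = 0
  · simp [hn]
  · rw [if_neg hn]
    exact h.real_of_star hl hs n (Nat.one_le_iff_ne_zero.2 hn)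

open Classical in
/-- `Λ(1/2 + z)` if `Λ` is real on the real axis and `Λ(1/2 + z) conj Λ(1/2 + conj z)` otherwise. -/
noncomputable def FL (Λ : ℂ → ℂ) (z : ℂ) : ℂ :=
  if ∀ s : ℂ, Λ (conj s) = conj (Λ s) then Λ (1 / 2 + z)
  else Λ (1 / 2 + z) * conj (Λ (1 / 2 + conj z))

open Classical in
/-- **Main theorem**: the criterion at logarithmic scale. -/
theorem IsC.final {l : List Pc} {M : ℝ} {b : ℕ → ℂ} {w : ℂ} {Λ : ℂ → ℂ} (h : IsC l M b w Λ)
    (hw : ‖w‖ = 1) (hl : l ≠ []) :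
    ∃ r : ℕ, r ≤ 1 ∧ (∀ z : ℂ, FL Λ (-z) = (-1) ^ r * FL Λ z) ∧
      LogCriterion r (FL Λ) (∀ s : ℂ, Λ s = 0 → s.re = 1 / 2) := by
  by_cases hs : ∀ s : ℂ, Λ (conj s) = conj (Λ s)
  · have hst : st Λ = Λ := by
      funext s
      unfold st
      rw [hs, Complex.conj_conj]
    have hF : FL Λ = fun z => Λ (1 / 2 + z) := by
      funext z
      unfold FL
      rw [if_pos hs]
    rw [hF]
    exact h.critS hl hst
  · have hF : FL Λ = fun z => Λ (1 / 2 + z) * st Λ (1 / 2 + z) := by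
      funext z
      unfold FL st
      rw [if_neg hs]
      congr 3
      rw [map_add, map_div₀, map_one, map_ofNat]
    rw [hF]
    obtain ⟨h1, h2⟩ := h.crit hw hl
    exact ⟨0, by norm_num, fun z => by rw [pow_zero, one_mul]; exact h1 z, h2⟩

end Pool.Agent.W355.LJ
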