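import Pool.Agent.W355.LJ.Piece

set_option autoImplicit false

/-!
# Products of factors
-/

namespace Pool.Agent.W355.LJ

open Complex Filter Topology MeasureTheory Set

/-- The factors at infinity: `Γ_ℝ(s + a)`, `Γ_ℝ(s + a + iν) Γ_ℝ(s + a - iν)`, `(s - c) Γ_ℝ(s + a)`. -/
inductive Pc
  | one (a : ℝ)
  | two (a ν : ℝ)
  | pol (c a : ℝ)

namespace Pc

/-- the real part of the parameter -/
def re : Pc → ℝ
  | one a => a
  | two a _ => a
  | pol _ a => a

/-- the size of the parameters -/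
def sz : Pc → ℝ
  | one a => |a|
  | two a _ => |a|
  | pol c a => |a| + |c|

/-- the degree -/
def deg : Pc → ℕ
  | one _ => 1
  | two _ _ => 2
  | pol _ _ => 1

/-- the kernel -/
noncomputable def k : Pc → ℝ → ℝ
  | one a => gb a
  | two a ν => gp a ν
  | pol c a => gq c a

/-- the majorant -/
noncomputable def k0 : Pc → ℝ → ℝ
  | one a => gb a
  | two a _ => cv (gb a) (gb a)
  | pol c a => gq0 c a

/-- the factor -/
noncomputable def g : Pc → ℂ → ℂ
  | one a => fun s => Gammaℝ (s + a)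
  | two a ν => fun s => Gammaℝ (s + ((a : ℂ) + ν * I)) * Gammaℝ (s + ((a : ℂ) - ν * I))
  | pol c a => fun s => (s - c) * Gammaℝ (s + a)

/-- translation -/
def tr (x : ℝ) : Pc → Pc
  | one a => one (a + x)
  | two a ν => two (a + x) ν
  | pol c a => pol (c - x) (a + x)

theorem tr_re (x : ℝ) (p : Pc) : (p.tr x).re = p.re + x := by
  cases p <;> rfl

theorem tr_g (x : ℝ) (p : Pc) (s : ℂ) : (p.tr x).g s = p.g (s + x) := by
  cases p with
  | one a =>
    show Gammaℝ _ = Gammaℝ _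
    congr 1
    push_cast
    ring
  | two a ν =>
    show Gammaℝ _ * Gammaℝ _ = Gammaℝ _ * Gammaℝ _
    congr 2
    · push_cast
      ring
    · push_cast
      ring
  | pol c a =>
    show (_ - _) * Gammaℝ _ = (_ - _) * Gammaℝ _
    congr 1
    · push_cast
      ring
    · congr 1
      push_cast
      ring

theorem abs_re_le (p : Pc) : |p.re| ≤ p.sz := by
  cases p with
  | one a => exact le_rfl
  | two a ν => exact le_rfl
  | pol c a =>
    show |a| ≤ |a| + |c|
    linarith [abs_nonneg c]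

theorem sz_nonneg (p : Pc) : 0 ≤ p.sz := (abs_nonneg _).trans p.abs_re_le

theorem sk (p : Pc) (hp : 0 < p.re) : IsSK p.k p.k0 := by
  cases p with
  | one a => exact (gb_ker a hp).sk
  | two a ν => exact gp_sk a hp ν
  | pol c a => exact gq_sk c a hp

theorem lap (p : Pc) (hp : 0 < p.re) (s : ℂ) (hs : 0 ≤ s.re) :
    ∫ t : ℝ, ((p.k t : ℝ) : ℂ) * cexp (s * t) = p.g s := by
  cases p with
  | one a => exact gb_lap a hp s hs
  | two a ν => exact gp_lap a hp ν s hs
  | pol c a => exact gq_lap c a hp s hs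

end Pc

/-- The kernel of a product of factors. -/
noncomputable def KL : Pc → List Pc → ℝ → ℝ
  | p, [] => p.k
  | p, q :: l => cv p.k (KL q l)

/-- Its majorant. -/
noncomputable def KL0 : Pc → List Pc → ℝ → ℝ
  | p, [] => p.k0
  | p, q :: l => cv p.k0 (KL0 q l)

/-- A product of factors. -/
noncomputable def GF (l : List Pc) (s : ℂ) : ℂ := (l.map fun p : Pc => p.g s).prod

theorem KL_sk (p : Pc) (l : List Pc) (h : ∀ x ∈ p :: l, 0 < x.re) : IsSK (KL p l) (KL0 p l) := by
  induction l generalizing p with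
  | nil => exact p.sk (h p (by simp))
  | cons q l ih =>
    exact cv_sk (p.sk (h p (by simp))) (ih q fun x hx => h x (List.mem_cons_of_mem _ hx))

theorem KL_lap (p : Pc) (l : List Pc) (h : ∀ x ∈ p :: l, 0 < x.re) (s : ℂ) (hs : 0 ≤ s.re) :
    ∫ t : ℝ, ((KL p l t : ℝ) : ℂ) * cexp (s * t) = GF (p :: l) s := by
  induction l generalizing p with
  | nil =>
    unfold GF
    simp only [List.map_cons, List.map_nil, List.prod_cons, List.prod_nil, mul_one]
    exact p.lap (h p (by simp)) s hs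
  | cons q l ih =>
    have h1 := cv_lap (p.sk (h p (by simp)))
      (KL_sk q l fun x hx => h x (List.mem_cons_of_mem _ hx)) s hs
    rw [p.lap (h p (by simp)) s hs, ih q fun x hx => h x (List.mem_cons_of_mem _ hx)] at h1
    unfold GF at h1 ⊢
    rw [List.map_cons, List.prod_cons]
    exact h1

/-! ## The shifted kernel -/

/-- Properties of the kernel of a Gamma factor. -/
structure IsG (G : ℝ → ℝ) (α : ℝ) (γ : ℂ → ℂ) : Prop where
  α1 : 1 ≤ α
  cont : Continuous G
  pos : ∃ T : ℝ, ∀ t, T ≤ t → 0 < G t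
  dec : ∃ C c1 c2 : ℝ, 0 < C ∧ 0 < c1 ∧ 0 < c2 ∧
    ∀ t, 0 ≤ t → |G t| ≤ C * Real.exp (-c1 * Real.exp (c2 * t))
  dom : ∀ a0 ε A : ℝ, 0 < a0 → 0 < ε → ∃ T0 : ℝ, ∀ t, T0 ≤ t → ∀ a, a0 ≤ a →
    |G (t + a)| ≤ ε * Real.exp (-A * a) * G t
  int : ∀ s : ℂ, α ≤ s.re → Integrable (fun t : ℝ => ((G t : ℝ) : ℂ) * cexp (s * t))
  lap : ∀ s : ℂ, α ≤ s.re → ∫ t : ℝ, ((G t : ℝ) : ℂ) * cexp (s * t) = γ s
  grow : ∃ C : ℝ, 0 < C ∧ ∀ t, t ≤ 0 → |G t| ≤ C * Real.exp (-α * t)

/-- the shift -/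
noncomputable def sh (l : List Pc) : ℝ := 1 + (l.map fun x => x.sz).sum

theorem sh_sum_nonneg (l : List Pc) : 0 ≤ (l.map fun x : Pc => x.sz).sum :=
  List.sum_nonneg fun x hx => by
    obtain ⟨y, _, rfl⟩ := List.mem_map.1 hx
    exact y.sz_nonneg

theorem sh_one (l : List Pc) : 1 ≤ sh l := by
  unfold sh
  linarith [sh_sum_nonneg l]

theorem sh_sz (l : List Pc) (x : Pc) (hx : x ∈ l) : 1 + x.sz ≤ sh l := by
  have h1 : x.sz ≤ (l.map fun x : Pc => x.sz).sum :=
    List.single_le_sum (fun y hy => by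
      obtain ⟨z, _, rfl⟩ := List.mem_map.1 hy
      exact z.sz_nonneg) _ (List.mem_map.2 ⟨x, hx, rfl⟩)
  unfold sh
  linarith

theorem sh_mem (l : List Pc) (x : Pc) (hx : x ∈ l) : 0 < x.re + sh l := by
  have h1 := sh_sz l x hx
  have h2 := neg_abs_le x.re
  have h3 := x.abs_re_le
  linarith

/-- The kernel of the product of factors. -/
noncomputable def GK (p : Pc) (l : List Pc) (t : ℝ) : ℝ :=
  Real.exp (-(sh (p :: l)) * t) * KL (p.tr (sh (p :: l))) (l.map fun x => x.tr (sh (p :: l))) t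

theorem GK_isG (p : Pc) (l : List Pc) : IsG (GK p l) (sh (p :: l)) (GF (p :: l)) := by
  set α : ℝ := sh (p :: l) with hα
  have hα1 : 1 ≤ α := sh_one _
  have hα0 : 0 ≤ α := by linarith
  have hmem : ∀ x ∈ p.tr α :: (l.map fun x => x.tr α), 0 < x.re := by
    intro x hx
    rcases List.mem_cons.1 hx with rfl | hx
    · rw [Pc.tr_re]
      exact sh_mem (p :: l) p (by simp)
    · obtain ⟨y, hy, rfl⟩ := List.mem_map.1 hx
      rw [Pc.tr_re]
      exact sh_mem (p :: l) y (List.mem_cons_of_mem _ hy)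
  have hK := KL_sk (p.tr α) (l.map fun x => x.tr α) hmem
  have hL := KL_lap (p.tr α) (l.map fun x => x.tr α) hmem
  set K : ℝ → ℝ := KL (p.tr α) (l.map fun x => x.tr α) with hKd
  set K0 : ℝ → ℝ := KL0 (p.tr α) (l.map fun x => x.tr α) with hK0d
  have hG : ∀ t, GK p l t = Real.exp (-α * t) * K t := fun t => rfl
  have hGa : ∀ t, |GK p l t| ≤ Real.exp (-α * t) * K0 t := by
    intro t
    rw [hG, abs_mul, abs_of_pos (Real.exp_pos _)]
    exact mul_le_mul_of_nonneg_left (hK.le t) (Real.exp_pos _).le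
  have hle : ∀ t, 0 ≤ t → |GK p l t| ≤ K0 t := by
    intro t ht
    refine (hGa t).trans ?_
    have : Real.exp (-α * t) ≤ 1 := by
      rw [Real.exp_le_one_iff]
      have := mul_nonneg hα0 ht
      linarith
    calc Real.exp (-α * t) * K0 t ≤ 1 * K0 t :=
          mul_le_mul_of_nonneg_right this (hK.ker.pos t).le
      _ = K0 t := one_mul _
  have hconv : ∀ (s : ℂ) (t : ℝ), ((GK p l t : ℝ) : ℂ) * cexp (s * t) =
      ((K t : ℝ) : ℂ) * cexp ((s - α) * t) := by
    intro s t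
    rw [hG]
    push_cast
    have : cexp ((s - α) * t) = cexp (-α * t) * cexp (s * t) := by
      rw [← Complex.exp_add]
      congr 1
      ring
    rw [this]
    ring
  have hre : ∀ s : ℂ, α ≤ s.re → 0 ≤ (s - (α : ℂ)).re := by
    intro s hs
    rw [Complex.sub_re, Complex.ofReal_re]
    linarith
  refine ⟨hα1, ?_, ?_, ?_, ?_, ?_, ?_, ?_⟩
  · have := hK.cont
    have e : GK p l = fun t => Real.exp (-α * t) * K t := funext hG
    rw [e]
    fun_prop
  · obtain ⟨c, T, hc, h1⟩ := hK.ge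
    refine ⟨T, fun t ht => ?_⟩
    rw [hG]
    exact mul_pos (Real.exp_pos _) ((mul_pos hc (hK.ker.pos t)).trans_le (h1 t ht))
  · obtain ⟨C, c1, c2, h0, h1, h2, h3⟩ := hK.ker.decp
    exact ⟨C, c1, c2, h0, h1, h2, fun t ht => (hle t ht).trans (h3 t ht)⟩
  · intro a0 ε A ha0 hε
    obtain ⟨c, T, hc, h1⟩ := hK.ge
    obtain ⟨T0, hT0⟩ := hK.ker.dom a0 (ε * c) A ha0 (mul_pos hε hc)
    refine ⟨max T T0, fun t ht b hb => ?_⟩
    have h2 := hT0 t ((le_max_right _ _).trans ht) b hb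
    have h3 := h1 t ((le_max_left _ _).trans ht)
    have hb0 : 0 ≤ b := ha0.le.trans hb
    refine (hGa _).trans ?_
    rw [hG]
    have h4 : Real.exp (-α * (t + b)) ≤ Real.exp (-α * t) := by
      refine Real.exp_le_exp.2 ?_
      have := mul_nonneg hα0 hb0
      linarith
    calc Real.exp (-α * (t + b)) * K0 (t + b) ≤ Real.exp (-α * t) * K0 (t + b) :=
          mul_le_mul_of_nonneg_right h4 (hK.ker.pos _).le
      _ ≤ Real.exp (-α * t) * (ε * c * Real.exp (-A * b) * K0 t) :=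
          mul_le_mul_of_nonneg_left h2 (Real.exp_pos _).le
      _ = Real.exp (-α * t) * (ε * Real.exp (-A * b) * (c * K0 t)) := by ring
      _ ≤ Real.exp (-α * t) * (ε * Real.exp (-A * b) * K t) := by gcongr
      _ = _ := by ring
  · intro s hs
    simp_rw [hconv]
    exact lap_int hK (s - α) (hre s hs)
  · intro s hs
    simp_rw [hconv]
    rw [hL (s - α) (hre s hs)]
    unfold GF
    simp only [List.map_cons, List.prod_cons, List.map_map]
    congr 1
    · rw [Pc.tr_g]
      congr 1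
      ring
    · congr 2
      funext x
      simp only [Function.comp]
      rw [Pc.tr_g]
      congr 1
      ring
  · obtain ⟨C, hC, hb⟩ := hK.ker.bd
    refine ⟨C, hC, fun t _ => ?_⟩
    refine (hGa t).trans ?_
    rw [mul_comm]
    exact mul_le_mul_of_nonneg_right (hb t) (Real.exp_pos _).le

/-- exponential bounds on the whole line -/
theorem IsG.exp_le {G : ℝ → ℝ} {α : ℝ} {γ : ℂ → ℂ} (h : IsG G α γ) (A : ℝ) (hA : α ≤ A) :
    ∃ C : ℝ, 0 < C ∧ ∀ t, |G t| ≤ C * Real.exp (-A * t) := by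
  obtain ⟨C1, hC1, h1⟩ := h.grow
  obtain ⟨C2, c1, c2, hC2, hc1, hc2, h2⟩ := h.dec
  obtain ⟨K, hK, h3⟩ := Pool.Agent.H471R3.GJ.HOdd.exp_abs_bound c1 c2 A hc1 hc2
  refine ⟨C1 + C2 * K, by positivity, fun t => ?_⟩
  rcases le_total t 0 with ht | ht
  · have h4 : Real.exp (-α * t) ≤ Real.exp (-A * t) := by
      refine Real.exp_le_exp.2 ?_
      have := mul_nonneg (sub_nonneg.2 hA) (neg_nonneg.2 ht)
      nlinarith
    calc |G t| ≤ C1 * Real.exp (-α * t) := h1 t ht
      _ ≤ C1 * Real.exp (-A * t) := mul_le_mul_of_nonneg_left h4 hC1.le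
      _ ≤ _ := mul_le_mul_of_nonneg_right (by have := mul_pos hC2 hK; linarith) (Real.exp_pos _).le
  · have h4 := h3 t
    rw [abs_of_nonneg ht] at h4
    have h5 : Real.exp (-(c1 * c2 ^ 2 / 4) * t ^ 2) ≤ 1 := by
      rw [Real.exp_le_one_iff]
      have : 0 ≤ c1 * c2 ^ 2 / 4 * t ^ 2 := by positivity
      linarith
    have h6 : Real.exp (A * t) * Real.exp (-c1 * Real.exp (c2 * t)) ≤ K := by
      refine h4.trans ?_
      calc K * Real.exp (-(c1 * c2 ^ 2 / 4) * t ^ 2) ≤ K * 1 :=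
            mul_le_mul_of_nonneg_left h5 hK.le
        _ = K := mul_one K
    have h7 : Real.exp (-c1 * Real.exp (c2 * t)) ≤ K * Real.exp (-A * t) := by
      have e : Real.exp (-c1 * Real.exp (c2 * t)) =
          (Real.exp (A * t) * Real.exp (-c1 * Real.exp (c2 * t))) * Real.exp (-A * t) := by
        have : Real.exp (A * t) * Real.exp (-A * t) = 1 := by
          rw [← Real.exp_add]
          simp
        calc Real.exp (-c1 * Real.exp (c2 * t)) =
            Real.exp (-c1 * Real.exp (c2 * t)) * (Real.exp (A * t) * Real.exp (-A * t)) := by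
              rw [this, mul_one]
          _ = _ := by ring
      rw [e]
      exact mul_le_mul_of_nonneg_right h6 (Real.exp_pos _).le
    calc |G t| ≤ C2 * Real.exp (-c1 * Real.exp (c2 * t)) := h2 t ht
      _ ≤ C2 * (K * Real.exp (-A * t)) := mul_le_mul_of_nonneg_left h7 hC2.le
      _ = C2 * K * Real.exp (-A * t) := by ring
      _ ≤ _ := mul_le_mul_of_nonneg_right (by linarith) (Real.exp_pos _).le

end Pool.Agent.W355.LJ
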