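import Pool.Agent.W355.LJ.GK
import Pool.Agent.H382R2.Digamma

set_option autoImplicit false

/-!
# Analytic properties of the factors at infinity
-/

namespace Pool.Agent.W355.LJ

open Complex Filter Topology MeasureTheory Set

/-- Analytic properties of a factor at infinity. -/
structure IsGam (γ : ℂ → ℂ) (α d : ℝ) : Prop where
  ne : ∀ s : ℂ, α ≤ s.re → γ s ≠ 0
  decay : ∀ σ : ℝ, α ≤ σ → ∃ C : ℝ, 0 ≤ C ∧ ∀ τ : ℝ, ‖γ (σ + τ * I)‖ ≤ C / (1 + τ ^ 2)
  logd : ∃ K T0 : ℝ, 0 ≤ K ∧ 1 ≤ T0 ∧ ∀ s : ℂ, T0 ≤ s.im → |s.re| ≤ 3 / 4 * s.im →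
    γ s ≠ 0 ∧ DifferentiableAt ℂ γ s ∧ ‖logDeriv γ s - ((d / 2 * Real.log s.im : ℝ) : ℂ)‖ ≤ K

theorem IsGam.mono {γ : ℂ → ℂ} {α α' d : ℝ} (h : IsGam γ α d) (hα : α ≤ α') : IsGam γ α' d :=
  ⟨fun s hs => h.ne s (hα.trans hs), fun σ hσ => h.decay σ (hα.trans hσ), h.logd⟩

theorem IsGam.mul {γ1 γ2 : ℂ → ℂ} {α d1 d2 : ℝ} (h1 : IsGam γ1 α d1) (h2 : IsGam γ2 α d2) :
    IsGam (fun s => γ1 s * γ2 s) α (d1 + d2) := by
  refine ⟨fun s hs => mul_ne_zero (h1.ne s hs) (h2.ne s hs), fun σ hσ => ?_, ?_⟩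
  · obtain ⟨C1, hC1, h3⟩ := h1.decay σ hσ
    obtain ⟨C2, hC2, h4⟩ := h2.decay σ hσ
    refine ⟨C1 * C2, mul_nonneg hC1 hC2, fun τ => ?_⟩
    rw [norm_mul]
    have h5 : ‖γ2 (σ + τ * I)‖ ≤ C2 :=
      (h4 τ).trans (div_le_self hC2 (by nlinarith [sq_nonneg τ]))
    calc ‖γ1 (σ + τ * I)‖ * ‖γ2 (σ + τ * I)‖ ≤ C1 / (1 + τ ^ 2) * C2 :=
          mul_le_mul (h3 τ) h5 (norm_nonneg _) (by positivity)
      _ = _ := by ring
  · obtain ⟨K1, T1, hK1, hT1, h3⟩ := h1.logd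
    obtain ⟨K2, T2, hK2, hT2, h4⟩ := h2.logd
    refine ⟨K1 + K2, max T1 T2, add_nonneg hK1 hK2, hT1.trans (le_max_left _ _),
      fun s hs hs2 => ?_⟩
    obtain ⟨a1, a2, a3⟩ := h3 s ((le_max_left _ _).trans hs) hs2
    obtain ⟨b1, b2, b3⟩ := h4 s ((le_max_right _ _).trans hs) hs2
    refine ⟨mul_ne_zero a1 b1, a2.mul b2, ?_⟩
    have e1 : logDeriv (fun s => γ1 s * γ2 s) s = logDeriv γ1 s + logDeriv γ2 s :=
      logDeriv_mul s a1 b1 a2 b2
    rw [e1]
    have e2 : logDeriv γ1 s + logDeriv γ2 s - (((d1 + d2) / 2 * Real.log s.im : ℝ) : ℂ) =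
        (logDeriv γ1 s - ((d1 / 2 * Real.log s.im : ℝ) : ℂ)) +
        (logDeriv γ2 s - ((d2 / 2 * Real.log s.im : ℝ) : ℂ)) := by
      push_cast
      ring
    rw [e2]
    exact (norm_add_le _ _).trans (add_le_add a3 b3)

/-! ## One Gamma factor -/

theorem gr_diff (w : ℂ) (h : ∀ n : ℕ, w ≠ -(2 * n)) : DifferentiableAt ℂ Gammaℝ w := by
  have h1 : Gammaℝ w ≠ 0 := by
    rw [Ne, Complex.Gammaℝ_eq_zero_iff]
    push Not
    exact h
  have h2 := (Complex.differentiable_Gammaℝ_inv w).inv (inv_ne_zero h1)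
  refine h2.congr_of_eventuallyEq (Eventually.of_forall fun s => ?_)
  simp

theorem gr_ne (w : ℂ) (h : ∀ n : ℕ, w ≠ -(2 * n)) : Gammaℝ w ≠ 0 := by
  rw [Ne, Complex.Gammaℝ_eq_zero_iff]
  push Not
  exact h

theorem im_ne {w : ℂ} (hw : w.im ≠ 0) (n : ℕ) : w ≠ -(2 * n) := by
  intro h
  apply hw
  rw [h]
  simp

theorem re_ne {w : ℂ} (hw : 0 < w.re) (n : ℕ) : w ≠ -(2 * n) := by
  intro h
  rw [h] at hw
  simp at hw
  have : (0 : ℝ) ≤ n := Nat.cast_nonneg n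
  linarith

theorem gr_logDeriv (w : ℂ) (h : w.im ≠ 0) : logDeriv Gammaℝ w =
    -(((1 / 2 * Real.log Real.pi : ℝ)) : ℂ) + 1 / 2 * logDeriv Complex.Gamma (w / 2) := by
  have hpi : ((Real.pi : ℝ) : ℂ) ≠ 0 := by exact_mod_cast Real.pi_ne_zero
  have hw2 : ∀ m : ℕ, w / 2 ≠ -(m : ℂ) := by
    intro m h1
    apply h
    have h2 : w = -(2 * m) := by
      linear_combination 2 * h1
    rw [h2]
    simp
  have e1 : Gammaℝ = fun s : ℂ => (fun s : ℂ => ((Real.pi : ℝ) : ℂ) ^ (-s / 2)) s *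
      (fun s : ℂ => Complex.Gamma (s / 2)) s := by
    funext s
    rw [Complex.Gammaℝ_def]
  have d1 : HasDerivAt (fun s : ℂ => ((Real.pi : ℝ) : ℂ) ^ (-s / 2))
      (((Real.pi : ℝ) : ℂ) ^ (-w / 2) * Complex.log ((Real.pi : ℝ) : ℂ) * (-1 / 2)) w := by
    have h3 : HasDerivAt (fun s : ℂ => -s / 2) (-1 / 2) w := (hasDerivAt_id w).neg.div_const 2
    exact h3.const_cpow (Or.inl hpi)
  have d2 : HasDerivAt (fun s : ℂ => s / 2) (1 / 2) w := (hasDerivAt_id w).div_const 2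
  have d3 : DifferentiableAt ℂ Complex.Gamma (w / 2) := Complex.differentiableAt_Gamma _ hw2
  have n1 : ((Real.pi : ℝ) : ℂ) ^ (-w / 2) ≠ 0 := by
    rw [Ne, Complex.cpow_eq_zero_iff]
    rintro ⟨h1, -⟩
    exact hpi h1
  have n2 : Complex.Gamma (w / 2) ≠ 0 := Complex.Gamma_ne_zero hw2
  have e2 : logDeriv Gammaℝ w = logDeriv (fun s : ℂ => ((Real.pi : ℝ) : ℂ) ^ (-s / 2)) w +
      logDeriv (fun s : ℂ => Complex.Gamma (s / 2)) w := by
    rw [e1]
    exact logDeriv_mul w n1 n2 d1.differentiableAt (d3.comp w d2.differentiableAt)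
  have e3 : logDeriv (fun s : ℂ => Complex.Gamma (s / 2)) w =
      logDeriv Complex.Gamma (w / 2) * deriv (fun s : ℂ => s / 2) w :=
    logDeriv_comp (f := Complex.Gamma) (g := fun s : ℂ => s / 2) d3 d2.differentiableAt
  have e4 : logDeriv (fun s : ℂ => ((Real.pi : ℝ) : ℂ) ^ (-s / 2)) w =
      Complex.log ((Real.pi : ℝ) : ℂ) * (-1 / 2) := by
    rw [logDeriv_apply, d1.deriv]
    field_simp
  rw [e2, e3, e4, d2.deriv, ← Complex.ofReal_log Real.pi_pos.le]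
  push_cast
  ring

theorem gr_logd (μ : ℂ) : ∃ K T0 : ℝ, 0 ≤ K ∧ 1 ≤ T0 ∧ ∀ s : ℂ, T0 ≤ s.im →
    |s.re| ≤ 3 / 4 * s.im → Gammaℝ (s + μ) ≠ 0 ∧ DifferentiableAt ℂ (fun s => Gammaℝ (s + μ)) s ∧
      ‖logDeriv (fun s => Gammaℝ (s + μ)) s - ((1 / 2 * Real.log s.im : ℝ) : ℂ)‖ ≤ K := by
  obtain ⟨C, hC1, hC⟩ := SG.digamma_bound
  have hlp : 0 ≤ Real.log Real.pi := Real.log_nonneg (by linarith [Real.pi_gt_three])
  have hl4 : 0 ≤ Real.log 4 := Real.log_nonneg (by norm_num)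
  refine ⟨1 / 2 * Real.log Real.pi + 1 / 2 * C + 1 / 2 * Real.log 4, 4 + 8 * ‖μ‖, by positivity,
    by linarith [norm_nonneg μ], fun s hs hs2 => ?_⟩
  have hμ0 := norm_nonneg μ
  have hμi := Complex.abs_im_le_norm μ
  have hμr := Complex.abs_re_le_norm μ
  have hi1 := abs_le.1 hμi
  have hr1 := abs_le.1 hμr
  have hs0 : 0 < s.im := by linarith
  have himp : 0 < (s + μ).im := by
    rw [Complex.add_im]
    linarith
  have hne := fun n => im_ne himp.ne' n
  have hd := gr_diff _ hne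
  have ha : HasDerivAt (fun s : ℂ => s + μ) 1 s := (hasDerivAt_id s).add_const μ
  have hdc : DifferentiableAt ℂ (fun s : ℂ => Gammaℝ (s + μ)) s :=
    DifferentiableAt.comp (g := Gammaℝ) (f := fun s : ℂ => s + μ) s hd ha.differentiableAt
  refine ⟨gr_ne _ hne, hdc, ?_⟩
  have e1 : logDeriv (fun s : ℂ => Gammaℝ (s + μ)) s =
      logDeriv Gammaℝ (s + μ) * deriv (fun s : ℂ => s + μ) s :=
    logDeriv_comp (f := Gammaℝ) (g := fun s : ℂ => s + μ) hd ha.differentiableAt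
  rw [e1, ha.deriv, mul_one, gr_logDeriv _ himp.ne']
  have e2 : ((s + μ) / 2).im = (s.im + μ.im) / 2 := by simp
  have e3 : ((s + μ) / 2).re = (s.re + μ.re) / 2 := by simp
  have hx : 0 < (s.im + μ.im) / 2 := by linarith
  have h1 := hC ((s + μ) / 2) (by
    rw [e2, abs_of_pos hx]
    linarith) (by
    rw [e2, e3, abs_of_pos hx, abs_le]
    have := abs_le.1 hs2
    constructor <;> linarith)
  rw [e2, abs_of_pos hx] at h1
  have h2 : |Real.log ((s.im + μ.im) / 2) - Real.log s.im| ≤ Real.log 4 := by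
    rw [← Real.log_div hx.ne' hs0.ne', abs_le]
    have hq : 1 / 4 ≤ (s.im + μ.im) / 2 / s.im := by
      rw [le_div_iff₀ hs0]
      linarith
    have hq2 : (s.im + μ.im) / 2 / s.im ≤ 4 := by
      rw [div_le_iff₀ hs0]
      linarith
    have h0 : 0 < (s.im + μ.im) / 2 / s.im := by positivity
    constructor
    · have := Real.log_le_log (by norm_num) hq
      rw [one_div, Real.log_inv] at this
      exact this
    · exact Real.log_le_log h0 hq2
  have e4 : -(((1 / 2 * Real.log Real.pi : ℝ)) : ℂ) + 1 / 2 * logDeriv Complex.Gamma ((s + μ) / 2) -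
      ((1 / 2 * Real.log s.im : ℝ) : ℂ) = -(((1 / 2 * Real.log Real.pi : ℝ)) : ℂ) +
      (1 / 2 * (logDeriv Complex.Gamma ((s + μ) / 2) -
        ((Real.log ((s.im + μ.im) / 2) : ℝ) : ℂ))) +
      ((1 / 2 * (Real.log ((s.im + μ.im) / 2) - Real.log s.im) : ℝ) : ℂ) := by
    push_cast
    ring
  rw [e4]
  refine (norm_add_le _ _).trans (add_le_add ((norm_add_le _ _).trans (add_le_add ?_ ?_)) ?_)
  · rw [norm_neg, Complex.norm_real, Real.norm_of_nonneg (by positivity)]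
  · rw [norm_mul]
    have : ‖(1 / 2 : ℂ)‖ = 1 / 2 := by simp
    rw [this]
    linarith
  · rw [Complex.norm_real, Real.norm_eq_abs, abs_mul, abs_of_pos (by norm_num : (0 : ℝ) < 1 / 2)]
    linarith

/-- boundedness on vertical lines -/
theorem gr_bdd (σ : ℝ) (hσ : 0 < σ) : ∃ C : ℝ, 0 ≤ C ∧ ∀ w : ℂ, w.re = σ → ‖Gammaℝ w‖ ≤ C := by
  refine ⟨∫ t : ℝ, gb σ t, integral_nonneg fun t => (gb_pos σ t).le, fun w hw => ?_⟩
  have h1 := gc_lap w (by rw [hw]; exact hσ) 0 (by simp)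
  rw [zero_add] at h1
  rw [← h1]
  refine (norm_integral_le_integral_norm _).trans (le_of_eq ?_)
  refine integral_congr_ae (Eventually.of_forall fun t => ?_)
  simp only
  rw [norm_mul, gc_norm, hw]
  simp

theorem gr_decay (σ : ℝ) (hσ : 1 ≤ σ) : ∃ C : ℝ, 0 ≤ C ∧ ∀ w : ℂ, w.re = σ →
    ‖Gammaℝ w‖ * (‖w‖ * ‖w + 2‖ * ‖w + 4‖) ≤ C := by
  obtain ⟨C, hC, h⟩ := gr_bdd (σ + 6) (by linarith)
  refine ⟨(2 * Real.pi) ^ 3 * C, by positivity, fun w hw => ?_⟩
  have hne : ∀ x : ℝ, 0 ≤ x → w + x ≠ 0 := by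
    intro x hx h0
    have := congrArg Complex.re h0
    simp at this
    linarith
  have hpi : ((Real.pi : ℝ) : ℂ) ≠ 0 := by exact_mod_cast Real.pi_ne_zero
  have w0 : w ≠ 0 := by simpa using hne 0 le_rfl
  have w2 : w + 2 ≠ 0 := by simpa using hne 2 (by norm_num)
  have w4 : w + 4 ≠ 0 := by simpa using hne 4 (by norm_num)
  have e1 := Complex.Gammaℝ_add_two w0
  have e2 := Complex.Gammaℝ_add_two w2
  have e3 := Complex.Gammaℝ_add_two w4
  have e4 : w + 2 + 2 = w + 4 := by ring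
  have e5 : w + 4 + 2 = w + 6 := by ring
  rw [e4, e1] at e2
  rw [e5, e2] at e3
  have h1 := h (w + 6) (by simp [hw])
  have e6 : Gammaℝ w * (w * (w + 2) * (w + 4)) = (2 * Real.pi) ^ 3 * Gammaℝ (w + 6) := by
    rw [e3]
    field_simp
  have e7 := congrArg norm e6
  rw [norm_mul, norm_mul, norm_mul, norm_mul, norm_pow, norm_mul, Complex.norm_real,
    Real.norm_of_nonneg Real.pi_pos.le] at e7
  have e8 : ‖(2 : ℂ)‖ = 2 := by simp
  rw [e8] at e7
  rw [e7]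
  exact mul_le_mul_of_nonneg_left h1 (by positivity)

theorem nrm_ge (w : ℂ) (σ τ : ℝ) (hσ : 1 ≤ w.re) (hw : w.im = τ) (hσ2 : 0 ≤ σ) :
    Real.sqrt (1 + τ ^ 2) ≤ ‖w + σ‖ := by
  refine Real.sqrt_le_iff.2 ⟨norm_nonneg _, ?_⟩
  rw [← Complex.normSq_eq_norm_sq, Complex.normSq_apply]
  simp only [Complex.add_re, Complex.add_im, Complex.ofReal_re, Complex.ofReal_im, add_zero, hw]
  nlinarith

theorem gr_decay2 (σ : ℝ) (hσ : 1 ≤ σ) : ∃ C : ℝ, 0 ≤ C ∧ ∀ w : ℂ, w.re = σ →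
    ‖Gammaℝ w‖ * ‖w + 4‖ ≤ C / (1 + w.im ^ 2) := by
  obtain ⟨C, hC, h⟩ := gr_decay σ hσ
  refine ⟨C, hC, fun w hw => ?_⟩
  have h0 : 0 < 1 + w.im ^ 2 := by positivity
  rw [le_div_iff₀ h0]
  refine le_trans ?_ (h w hw)
  have h1 := nrm_ge w 0 w.im (by rw [hw]; exact hσ) rfl le_rfl
  have h2 := nrm_ge w 2 w.im (by rw [hw]; exact hσ) rfl (by norm_num)
  rw [Complex.ofReal_zero, add_zero] at h1
  have e2 : w + ((2 : ℝ) : ℂ) = w + 2 := by push_cast; rfl
  rw [e2] at h2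
  have h3 : 1 + w.im ^ 2 ≤ ‖w‖ * ‖w + 2‖ := by
    calc 1 + w.im ^ 2 = Real.sqrt (1 + w.im ^ 2) * Real.sqrt (1 + w.im ^ 2) :=
          (Real.mul_self_sqrt h0.le).symm
      _ ≤ _ := mul_le_mul h1 h2 (Real.sqrt_nonneg _) (norm_nonneg _)
  have h4 := mul_le_mul_of_nonneg_left h3 (mul_nonneg (norm_nonneg (Gammaℝ w)) (norm_nonneg (w + 4)))
  calc ‖Gammaℝ w‖ * ‖w + 4‖ * (1 + w.im ^ 2) ≤ ‖Gammaℝ w‖ * ‖w + 4‖ * (‖w‖ * ‖w + 2‖) := h4
    _ = _ := by ring

theorem gr_decay3 (σ : ℝ) (hσ : 1 ≤ σ) : ∃ C : ℝ, 0 ≤ C ∧ ∀ w : ℂ, w.re = σ →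
    ‖Gammaℝ w‖ ≤ C / (1 + w.im ^ 2) := by
  obtain ⟨C, hC, h⟩ := gr_decay2 σ hσ
  refine ⟨C, hC, fun w hw => le_trans ?_ (h w hw)⟩
  have h1 : 1 ≤ ‖w + 4‖ := by
    have h2 := Complex.abs_re_le_norm (w + 4)
    have h3 : (w + 4).re = w.re + 4 := by simp
    rw [h3, hw, abs_of_pos (by linarith)] at h2
    linarith
  exact le_mul_of_one_le_right (norm_nonneg _) h1

theorem gr_isGam (μ : ℂ) : IsGam (fun s => Gammaℝ (s + μ)) (1 + |μ.re|) 1 := by
  have hre : ∀ x : ℝ, 1 + |μ.re| ≤ x → 1 ≤ x + μ.re := by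
    intro x hx
    have := neg_abs_le μ.re
    linarith
  refine ⟨fun s hs => ?_, fun σ hσ => ?_, gr_logd μ⟩
  · refine gr_ne _ fun n => re_ne ?_ n
    rw [Complex.add_re]
    linarith [hre _ hs]
  · obtain ⟨C, hC, h⟩ := gr_decay3 (σ + μ.re) (hre _ hσ)
    refine ⟨C * (2 * (1 + μ.im ^ 2)), by positivity, fun τ => ?_⟩
    have h1 := h ((σ : ℂ) + τ * I + μ) (by simp)
    have e1 : ((σ : ℂ) + τ * I + μ).im = τ + μ.im := by simp
    rw [e1] at h1
    refine h1.trans ?_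
    rw [div_le_div_iff₀ (by positivity) (by positivity), mul_assoc]
    refine mul_le_mul_of_nonneg_left ?_ hC
    nlinarith [sq_nonneg (τ + 2 * μ.im), sq_nonneg (τ + μ.im), sq_nonneg μ.im, sq_nonneg τ,
      mul_nonneg (sq_nonneg μ.im) (sq_nonneg (τ + μ.im))]

theorem pol_isGam (c a : ℝ) : IsGam (fun s => (s - c) * Gammaℝ (s + a)) (1 + |a| + |c|) 1 := by
  have hre : ∀ x : ℝ, 1 + |a| + |c| ≤ x → 1 ≤ x + a := by
    intro x hx
    have := neg_abs_le a
    have := abs_nonneg c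
    linarith
  refine ⟨fun s hs => ?_, fun σ hσ => ?_, ?_⟩
  · refine mul_ne_zero ?_ (gr_ne _ fun n => re_ne ?_ n)
    · intro h0
      have := congrArg Complex.re h0
      simp at this
      have h1 := le_abs_self c
      have h2 := abs_nonneg a
      linarith
    · rw [Complex.add_re, Complex.ofReal_re]
      linarith [hre _ hs]
  · obtain ⟨C, hC, h⟩ := gr_decay2 (σ + a) (hre _ hσ)
    refine ⟨C * (5 + |a + c|), by positivity, fun τ => ?_⟩
    set w : ℂ := (σ : ℂ) + τ * I + a with hw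
    have h1 := h w (by simp [hw])
    have e1 : w.im = τ := by simp [hw]
    have e0 : w.re = σ + a := by simp [hw]
    rw [e1] at h1
    have h2 : 1 ≤ ‖w + 4‖ := by
      have h2 := Complex.abs_re_le_norm (w + 4)
      have h3 : (w + 4).re = w.re + 4 := by simp
      rw [h3, e0, abs_of_pos (by linarith [hre _ hσ])] at h2
      linarith [hre _ hσ]
    have h3 : ‖(σ : ℂ) + τ * I - c‖ ≤ (5 + |a + c|) * ‖w + 4‖ := by
      have e2 : (σ : ℂ) + τ * I - c = (w + 4) - (((4 + (a + c)) : ℝ) : ℂ) := by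
        rw [hw]
        push_cast
        ring
      rw [e2]
      refine (norm_sub_le _ _).trans ?_
      rw [Complex.norm_real, Real.norm_eq_abs]
      have h4 : |4 + (a + c)| ≤ 4 + |a + c| := by
        refine (abs_add_le _ _).trans ?_
        rw [abs_of_pos (by norm_num : (0 : ℝ) < 4)]
      have h5 : (4 + |a + c|) * 1 ≤ (4 + |a + c|) * ‖w + 4‖ :=
        mul_le_mul_of_nonneg_left h2 (by positivity)
      linarith
    rw [norm_mul]
    calc ‖(σ : ℂ) + τ * I - c‖ * ‖Gammaℝ w‖ ≤ (5 + |a + c|) * ‖w + 4‖ * ‖Gammaℝ w‖ :=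
          mul_le_mul_of_nonneg_right h3 (norm_nonneg _)
      _ = (5 + |a + c|) * (‖Gammaℝ w‖ * ‖w + 4‖) := by ring
      _ ≤ (5 + |a + c|) * (C / (1 + τ ^ 2)) := mul_le_mul_of_nonneg_left h1 (by positivity)
      _ = _ := by ring
  · obtain ⟨K, T0, hK, hT0, h⟩ := gr_logd (a : ℂ)
    refine ⟨K + 1, T0, by linarith, hT0, fun s hs hs2 => ?_⟩
    obtain ⟨h1, h2, h3⟩ := h s hs hs2
    have hs0 : 1 ≤ s.im := hT0.trans hs
    have hsc : 1 ≤ ‖s - c‖ := by
      have h4 := Complex.abs_im_le_norm (s - c)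
      have h5 : (s - (c : ℂ)).im = s.im := by simp
      rw [h5, abs_of_pos (by linarith)] at h4
      linarith
    have hsc0 : s - c ≠ 0 := by
      intro h0
      rw [h0, norm_zero] at hsc
      linarith
    have d1 : HasDerivAt (fun s : ℂ => s - (c : ℂ)) 1 s := (hasDerivAt_id s).sub_const _
    refine ⟨mul_ne_zero hsc0 h1, d1.differentiableAt.mul h2, ?_⟩
    have e1 : logDeriv (fun s : ℂ => (s - c) * Gammaℝ (s + a)) s =
        logDeriv (fun s : ℂ => s - (c : ℂ)) s + logDeriv (fun s : ℂ => Gammaℝ (s + a)) s :=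
      logDeriv_mul s hsc0 h1 d1.differentiableAt h2
    have e2 : logDeriv (fun s : ℂ => s - (c : ℂ)) s = 1 / (s - c) := by
      rw [logDeriv_apply, d1.deriv]
    rw [e1, e2, add_sub_assoc]
    refine (norm_add_le _ _).trans ?_
    rw [add_comm]
    refine add_le_add h3 ?_
    rw [norm_div, norm_one, div_le_one (by linarith)]
    exact hsc

/-! ## Products -/

theorem Pc.isGam (p : Pc) : IsGam p.g (1 + p.sz) p.deg := by
  cases p with
  | one a =>
    have h := gr_isGam (a : ℂ)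
    rw [Complex.ofReal_re] at h
    show IsGam (fun s => Gammaℝ (s + a)) (1 + |a|) ((1 : ℕ) : ℝ)
    rw [Nat.cast_one]
    exact h
  | two a ν =>
    have h1 := gr_isGam ((a : ℂ) + ν * I)
    have h2 := gr_isGam ((a : ℂ) - ν * I)
    have e1 : ((a : ℂ) + ν * I).re = a := by simp
    have e2 : ((a : ℂ) - ν * I).re = a := by simp
    rw [e1] at h1
    rw [e2] at h2
    have h3 := h1.mul h2
    show IsGam (fun s => Gammaℝ (s + ((a : ℂ) + ν * I)) * Gammaℝ (s + ((a : ℂ) - ν * I)))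
      (1 + |a|) ((2 : ℕ) : ℝ)
    rw [Nat.cast_ofNat]
    have e3 : (1 : ℝ) + 1 = 2 := by norm_num
    rw [e3] at h3
    exact h3
  | pol c a =>
    have h := pol_isGam c a
    show IsGam (fun s => (s - c) * Gammaℝ (s + a)) (1 + (|a| + |c|)) ((1 : ℕ) : ℝ)
    rw [Nat.cast_one, ← add_assoc]
    exact h

/-- the degree of a product -/
def dg (l : List Pc) : ℕ := (l.map fun p => p.deg).sum

theorem GF_isGam (p : Pc) (l : List Pc) : IsGam (GF (p :: l)) (sh (p :: l)) (dg (p :: l)) := by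
  induction l generalizing p with
  | nil =>
    have h1 := (p.isGam).mono (sh_sz [p] p (by simp))
    have e1 : GF [p] = p.g := by
      funext s
      unfold GF
      simp
    rw [e1]
    have e2 : ((dg [p] : ℕ) : ℝ) = p.deg := by
      unfold dg
      simp
    rw [e2]
    exact h1
  | cons q l ih =>
    have h1 := (p.isGam).mono (sh_sz (p :: q :: l) p (by simp))
    have h2 : sh (q :: l) ≤ sh (p :: q :: l) := by
      unfold sh
      rw [List.map_cons (a := p), List.sum_cons]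
      linarith [p.sz_nonneg]
    have h3 := h1.mul ((ih q).mono h2)
    have e1 : GF (p :: q :: l) = fun s => p.g s * GF (q :: l) s := by
      funext s
      unfold GF
      rw [List.map_cons, List.prod_cons]
    rw [e1]
    have e2 : ((dg (p :: q :: l) : ℕ) : ℝ) = (p.deg : ℝ) + ((dg (q :: l) : ℕ) : ℝ) := by
      unfold dg
      rw [List.map_cons, List.sum_cons]
      push_cast
      ring
    rw [e2]
    exact h3

/-- no complex parameters -/
def Pc.real : Pc → Prop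
  | one _ => True
  | two _ _ => False
  | pol _ _ => True

theorem Pc.diff (p : Pc) (hp : p.real) (s : ℂ) (hs : 0 < s.im) : DifferentiableAt ℂ p.g s := by
  have key : ∀ a : ℝ, DifferentiableAt ℂ (fun s => Gammaℝ (s + a)) s := by
    intro a
    have h1 : (s + (a : ℂ)).im ≠ 0 := by
      simp only [Complex.add_im, Complex.ofReal_im, add_zero]
      exact hs.ne'
    have h2 := gr_diff (s + a) fun n => im_ne h1 n
    have ha : HasDerivAt (fun s : ℂ => s + (a : ℂ)) 1 s := (hasDerivAt_id s).add_const _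
    exact DifferentiableAt.comp (g := Gammaℝ) (f := fun s : ℂ => s + (a : ℂ)) s h2
      ha.differentiableAt
  cases p with
  | one a => exact key a
  | two a ν => exact absurd hp id
  | pol c a =>
    exact ((differentiable_id.sub_const (c : ℂ)) s).mul (key a)

theorem GF_diff (l : List Pc) (hl : ∀ p ∈ l, p.real) (s : ℂ) (hs : 0 < s.im) :
    DifferentiableAt ℂ (GF l) s := by
  induction l with
  | nil =>
    have : GF [] = fun _ => 1 := by
      funext s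
      unfold GF
      simp
    rw [this]
    exact differentiableAt_const _
  | cons q l ih =>
    have e1 : GF (q :: l) = fun s => q.g s * GF l s := by
      funext s
      unfold GF
      rw [List.map_cons, List.prod_cons]
    rw [e1]
    exact (q.diff (hl q (by simp)) s hs).mul (ih fun p hp => hl p (List.mem_cons_of_mem _ hp))

end Pool.Agent.W355.LJ
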