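import Pool.Agent.W355.LJ.HcC

set_option autoImplicit false

/-!
# Hecke series with `p = 2`; Dirichlet characters; the zeta function
-/

namespace Pool.Agent.W355.LJ

open Complex Filter Topology MeasureTheory Set
open scoped ComplexConjugate
open Pool.Agent.H471R3.GJ (Hc IsHc kc fc sc)
open Pool.Agent.H24R2.JP.MomAux (Cl L L_hasDerivAt L_integrable L_norm_le)

theorem IsC.congr {l : List Pc} {M : ℝ} {b b' : ℕ → ℂ} {w : ℂ} {Λ : ℂ → ℂ} (h : IsC l M b w Λ)
    (hb : ∀ n, 1 ≤ n → b' n = b n) : IsC l M b' w Λ := by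
  refine ⟨h.real, by rw [hb 1 le_rfl]; exact h.one, ?_, h.entire, h.fe, h.order, ?_⟩
  · obtain ⟨B, β, hbd⟩ := h.bd
    exact ⟨B, β, fun m hm => by rw [hb m hm]; exact hbd m hm⟩
  · obtain ⟨σ0, hd⟩ := h.dir
    refine ⟨σ0, fun s hs => ?_⟩
    rw [hd s hs]
    congr 1
    refine LSeries_congr (fun {n} hn => ?_) s
    exact (hb n (Nat.one_le_iff_ne_zero.2 hn)).symm

section

variable (H : Hc) (h : IsHc H)

include h in
theorem hc_isC2 (hp : H.p = 2) (hk : 1 / 2 ≤ H.k) :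
    IsC [Pc.one (H.k - 1 / 2)] (1 / 2 * Real.log (H.h / 2))
      (fun n => H.b n * ((((n : ℝ) ^ (-(H.k - 1 / 2)) : ℝ)) : ℂ)) H.ε (Lam2 H) := by
  have hh := h.h_pos
  have hh2 : 0 < H.h / 2 := by positivity
  have hk0 := h.k_pos
  have hB := h.B_one
  have hβ := h.β_nonneg
  have hbb : ∀ m : ℕ, 1 ≤ m → ‖H.b m * ((((m : ℝ) ^ (-(H.k - 1 / 2)) : ℝ)) : ℂ)‖ ≤
      H.B * (m : ℝ) ^ H.β := by
    intro m hm
    have hm0 : (0 : ℝ) < m := by exact_mod_cast hm
    have hm1 : (1 : ℝ) ≤ m := by exact_mod_cast hm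
    rw [norm_mul, Complex.norm_real, Real.norm_of_nonneg (Real.rpow_nonneg hm0.le _)]
    have h1 : (m : ℝ) ^ (-(H.k - 1 / 2)) ≤ 1 :=
      Real.rpow_le_one_of_one_le_of_nonpos hm1 (by linarith)
    calc ‖H.b m‖ * (m : ℝ) ^ (-(H.k - 1 / 2)) ≤ ‖H.b m‖ * 1 :=
          mul_le_mul_of_nonneg_left h1 (norm_nonneg _)
      _ = ‖H.b m‖ := mul_one _
      _ ≤ _ := h.b_le m hm
  refine ⟨?_, ?_, ⟨H.B, H.β, hbb⟩, ?_, fun s => ?_, ?_, ⟨H.β + 2, fun s hs => ?_⟩⟩
  · intro q hq
    simp only [List.mem_cons, List.not_mem_nil, or_false] at hq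
    rcases hq with rfl
    trivial
  · simp [h.b_one]
  · unfold Lam2
    exact ((mel_diff H h).comp ((differentiable_id.add_const _).div_const _)).const_mul _
  · unfold Lam2
    have e1 : (1 - s + ((H.k - 1 / 2 : ℝ) : ℂ)) / 2 =
        (H.k : ℂ) - ((s + ((H.k - 1 / 2 : ℝ) : ℂ)) / 2) := by
      push_cast
      ring
    rw [e1, mel_fe H h, map_mul, Complex.conj_ofReal, map_div₀, map_add, Complex.conj_ofReal,
      map_ofNat]
    ring
  · obtain ⟨A, hA⟩ := mel_order H h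
    refine order_comp hA _ _ (1 + |H.k - 1 / 2|) (fun s => ?_)
    have h1 := norm_add_le s ((H.k - 1 / 2 : ℝ) : ℂ)
    rw [Complex.norm_real, Real.norm_eq_abs] at h1
    rw [norm_div]
    have e2 : ‖(2 : ℂ)‖ = 2 := by simp
    rw [e2]
    nlinarith [norm_nonneg s, abs_nonneg (H.k - 1 / 2),
      norm_nonneg (s + ((H.k - 1 / 2 : ℝ) : ℂ))]
  · set S : ℂ := (s + ((H.k - 1 / 2 : ℝ) : ℂ)) / 2 with hS
    have hSre : S.re = (s.re + (H.k - 1 / 2)) / 2 := by rw [hS]; simp
    have hS0 : 0 < S.re := by rw [hSre]; linarith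
    have h1 := Pool.Agent.H471R3.GJ.TC.dirT H h S hS0 (by
      rw [hp, hSre]
      push_cast
      linarith)
    unfold Lam2
    rw [← hS, h1, lseries_tsum (summ_of_bd hbb (by linarith))]
    have e2 : (∑' m : ℕ, H.b (m + 1) * ((m + 1 : ℕ) : ℂ) ^ (-(H.p : ℂ) * S)) =
        ∑' m : ℕ, H.b (m + 1) * (((((m + 1 : ℕ) : ℝ) ^ (-(H.k - 1 / 2)) : ℝ)) : ℂ) *
          ((m + 1 : ℕ) : ℂ) ^ (-s) := by
      refine tsum_congr fun m => ?_
      have hm : ((m + 1 : ℕ) : ℂ) ≠ 0 := by exact_mod_cast Nat.succ_ne_zero m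
      rw [mul_assoc]
      congr 1
      have e3 : -(H.p : ℂ) * S = ((-(H.k - 1 / 2) : ℝ) : ℂ) + -s := by
        rw [hp, hS]
        push_cast
        ring
      rw [e3, Complex.cpow_add _ _ hm, Complex.ofReal_cpow (by positivity)]
      norm_cast
    rw [e2]
    have e4 : GF [Pc.one (H.k - 1 / 2)] s = ((Real.pi : ℝ) : ℂ) ^ (-S) * Complex.Gamma S := by
      unfold GF
      simp only [List.map_cons, List.map_nil, List.prod_cons, List.prod_nil, mul_one]
      show Gammaℝ (s + ((H.k - 1 / 2 : ℝ) : ℂ)) = _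
      rw [Complex.Gammaℝ_def, hS]
      congr 2
      ring
    rw [e4]
    have hhc : ((H.h / 2 : ℝ) : ℂ) ≠ 0 := by exact_mod_cast hh2.ne'
    have e5 : ((H.h / (2 * Real.pi) : ℝ) : ℂ) ^ S = ((H.h / 2 : ℝ) : ℂ) ^ S *
        ((Real.pi : ℝ) : ℂ) ^ (-S) := by
      have e6 : H.h / (2 * Real.pi) = H.h / 2 / Real.pi := by
        field_simp
      rw [e6, Complex.ofReal_div (H.h / 2),
        Complex.div_cpow_ofReal_nonneg hh2.le Real.pi_pos.le S, Complex.cpow_neg, div_eq_mul_inv]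
    have e6 : (((H.h / 2) ^ (-((H.k - 1 / 2) / 2)) : ℝ) : ℂ) * ((H.h / 2 : ℝ) : ℂ) ^ S =
        cexp (s * ((1 / 2 * Real.log (H.h / 2) : ℝ) : ℂ)) := by
      rw [Complex.ofReal_cpow hh2.le, ← Complex.cpow_add _ _ hhc, Complex.cpow_def_of_ne_zero hhc,
        ← Complex.ofReal_log hh2.le]
      congr 1
      rw [hS]
      push_cast
      ring
    rw [e5, ← e6]
    ring

end

/-- the sign `0` or `1` of a Dirichlet character -/
noncomputable def parD {N : ℕ} (χ : DirichletCharacter ℂ N) : ℝ :=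
  open Classical in if χ.Even then 0 else 1

theorem dir_isC (N : ℕ) [NeZero N] (χ : DirichletCharacter ℂ N) (hN : 1 < N) (hχ : χ.IsPrimitive) :
    ∃ (w : ℂ) (Λ : ℂ → ℂ), ‖w‖ = 1 ∧
      IsC [Pc.one (parD χ)] (1 / 2 * Real.log N) (fun n => χ (n : ZMod N)) w Λ := by
  classical
  have h := Pool.Agent.H471R3.GJ.TC.dchT N χ hN hχ
  set H := Pool.Agent.H471R3.GJ.dch N χ with hH
  have hkH : H.k = if χ.Even then 1 / 2 else 3 / 2 := rfl
  have hk : 1 / 2 ≤ H.k := by
    rw [hkH]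
    split_ifs <;> norm_num
  have h1 := hc_isC2 H h rfl hk
  have e1 : H.k - 1 / 2 = parD χ := by
    rw [hkH]
    unfold parD
    split_ifs <;> norm_num
  have e2 : H.h / 2 = N := by
    show (2 * (N : ℝ)) / 2 = N
    ring
  rw [e1, e2] at h1
  refine ⟨H.ε, Lam2 H, h.ε_norm, h1.congr fun n hn => ?_⟩
  have hn0 : (n : ℝ) ≠ 0 := by
    have : 0 < n := hn
    positivity
  have hn0c : (n : ℂ) ≠ 0 := by exact_mod_cast hn0
  show χ (n : ZMod N) = ((if χ.Even then 1 else (n : ℂ)) * χ (n : ZMod N)) *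
    (((n : ℝ) ^ (-parD χ) : ℝ) : ℂ)
  unfold parD
  split_ifs with he
  · simp
  · rw [Real.rpow_neg_one]
    push_cast
    field_simp

theorem L_order {w : ℝ → ℝ} (hw : Cl w) :
    ∃ A : ℝ, ∀ z : ℂ, ‖L w z‖ ≤ Real.exp (A * (1 + ‖z‖) ^ (2 : ℝ)) := by
  obtain ⟨C, hC, hb⟩ := cl_order hw
  refine ⟨|Real.log C| + 1, fun z => ?_⟩
  obtain ⟨C', hC'⟩ := hw.2 |z.re|
  have hwc := hw.1
  have hint : Integrable (fun t : ℝ => |w t| * Real.exp (|z.re| * |t|)) := by
    refine Integrable.mono' ((integrable_exp_neg_mul_sq one_pos).const_mul C') ?_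
      (Eventually.of_forall fun t => ?_)
    · exact (by fun_prop : Continuous fun t : ℝ =>
        |w t| * Real.exp (|z.re| * |t|)).aestronglyMeasurable
    · rw [Real.norm_of_nonneg (by positivity)]
      exact hC' t
  have h1 : ‖L w z‖ ≤ ∫ t : ℝ, |w t| * Real.exp (|z.re| * |t|) := by
    unfold L
    refine (norm_integral_le_integral_norm _).trans ?_
    exact integral_mono_of_nonneg (Eventually.of_forall fun t => norm_nonneg _) hint
      (Eventually.of_forall fun t => L_norm_le w z t)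
  refine (h1.trans (hb z)).trans ?_
  rw [← Real.exp_log hC, ← Real.exp_add]
  refine Real.exp_le_exp.2 ?_
  rw [Real.exp_log hC, Real.rpow_two]
  have hs : 1 ≤ 1 + ‖z‖ := by linarith [norm_nonneg z]
  have h3 : (1 : ℝ) ≤ (1 + ‖z‖) ^ 2 := one_le_pow₀ hs
  have h4 : Real.log C ≤ |Real.log C| * (1 + ‖z‖) ^ 2 :=
    (le_abs_self _).trans (le_mul_of_one_le_right (abs_nonneg _) h3)
  have h5 : z.re ^ 2 ≤ (1 + ‖z‖) ^ 2 := by
    rw [← sq_abs]
    exact pow_le_pow_left₀ (abs_nonneg _) (by linarith [Complex.abs_re_le_norm z]) 2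
  linarith

theorem L_conj (w : ℝ → ℝ) (z : ℂ) : L w (conj z) = conj (L w z) := by
  unfold L
  rw [← integral_conj]
  refine integral_congr_ae (Eventually.of_forall fun t => ?_)
  simp only [map_mul, Complex.conj_ofReal]
  rw [← Complex.exp_conj, map_mul, Complex.conj_ofReal]

/-- the zeta function -/
theorem zeta_isC : IsC [Pc.pol 1 2] 0 (fun _ => 1) 1
    (fun s => (s * (s - 1) * completedRiemannZeta₀ s + 1) / (2 * Real.pi)) := by
  have hpi' : (Real.pi : ℂ) ≠ 0 := by exact_mod_cast Real.pi_ne_zero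
  have hcl := Pool.Agent.H24R2.JP.MomAux.Cl_Ph
  have hXL := Pool.Agent.H24R2.JP.MomAux.XX_eq
  have hXX : ∀ s : ℂ, (s * (s - 1) * completedRiemannZeta₀ s + 1) / (2 * Real.pi) =
      ((1 / Real.pi : ℝ) : ℂ) * L Pool.Agent.Helper242.KK.Ph (s - 1 / 2) := by
    intro s
    have h1 := congrFun hXL (s - 1 / 2)
    unfold Pool.Agent.H24R2.JP.XX at h1
    have e1 : (1 / 2 + (s - 1 / 2) : ℂ) = s := by ring
    rw [e1] at h1
    have h2 : L Pool.Agent.Helper242.KK.Ph (s - 1 / 2) =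
        (s * (s - 1) * completedRiemannZeta₀ s + 1) / 2 := by
      linear_combination (-1 / 8 : ℂ) * h1
    rw [h2]
    push_cast
    field_simp
  refine ⟨?_, rfl, ⟨1, 0, fun m hm => by simp⟩, ?_, fun s => ?_, ?_, ⟨2, fun s hs => ?_⟩⟩
  · intro q hq
    simp only [List.mem_cons, List.not_mem_nil, or_false] at hq
    rcases hq with rfl
    trivial
  · have h1 := differentiable_completedZeta₀
    fun_prop
  · have e1 : ∀ s : ℂ, ((1 - s) * (1 - s - 1) * completedRiemannZeta₀ (1 - s) + 1) /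
        (2 * Real.pi) = (s * (s - 1) * completedRiemannZeta₀ s + 1) / (2 * Real.pi) := by
      intro s
      rw [completedRiemannZeta₀_one_sub]
      congr 1
      ring
    rw [e1, one_mul, hXX, hXX, map_mul, Complex.conj_ofReal, ← L_conj, map_sub, Complex.conj_conj]
    congr 3
    rw [map_div₀, map_one, map_ofNat]
  · obtain ⟨A, hA⟩ := L_order hcl
    have h1 := order_comp hA (1 / Real.pi) (fun s => s - 1 / 2) 2 (fun s => ?_)
    · obtain ⟨A', ρ, h2⟩ := h1
      refine ⟨A', ρ, fun s => ?_⟩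
      rw [hXX]
      exact h2 s
    · have h2 := norm_sub_le s (1 / 2)
      have h3 : ‖(1 / 2 : ℂ)‖ = 1 / 2 := by simp
      rw [h3] at h2
      linarith [norm_nonneg s]
  · have hs1 : 1 < s.re := by linarith
    have hs0 : s ≠ 0 := by
      intro h0
      rw [h0] at hs
      simp at hs
      linarith
    have hs10 : s - 1 ≠ 0 := by
      intro h0
      have := congrArg Complex.re h0
      simp at this
      linarith
    have hs11 : 1 - s ≠ 0 := by
      intro h0
      apply hs10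
      linear_combination -h0
    have h1 : LSeries (fun _ => 1) s = riemannZeta s := by
      have := LSeries_one_eq_riemannZeta hs1
      exact this
    rw [h1]
    have h2 : GF [Pc.pol 1 2] s = (s - 1) * Gammaℝ (s + 2) := by
      unfold GF
      simp only [List.map_cons, List.map_nil, List.prod_cons, List.prod_nil, mul_one]
      show (s - ((1 : ℝ) : ℂ)) * Gammaℝ (s + ((2 : ℝ) : ℂ)) = _
      push_cast
      rfl
    have hG : Gammaℝ s ≠ 0 := Complex.Gammaℝ_ne_zero_of_re_pos (by linarith)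
    rw [h2, Complex.Gammaℝ_add_two hs0, riemannZeta_def_of_ne_zero hs0, completedRiemannZeta_eq]
    simp only [Complex.ofReal_zero, mul_zero, Complex.exp_zero, one_mul]
    field_simp
    ring

end Pool.Agent.W355.LJ
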