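import Pool.Agent.W355.LJ.CD
import Pool.Agent.H471R3.GJ.All2

set_option autoImplicit false

/-!
# Hecke series as completed L-functions
-/

namespace Pool.Agent.W355.LJ

open Complex Filter Topology MeasureTheory Set
open scoped ComplexConjugate
open Pool.Agent.H471R3.GJ (Hc IsHc kc fc sc)
open Pool.Agent.H24R2.JP.MomAux (Cl L L_hasDerivAt L_integrable L_norm_le)

/-- Laplace transforms of rapidly decaying kernels are of finite order. -/
theorem cl_order {w : ℝ → ℝ} (hw : Cl w) : ∃ C : ℝ, 0 < C ∧ ∀ z : ℂ,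
    ∫ t : ℝ, |w t| * Real.exp (|z.re| * |t|) ≤ C * Real.exp (z.re ^ 2) := by
  obtain ⟨C, hC⟩ := hw.2 0
  have hC0 : 0 ≤ C := by
    have h1 := hC 0
    simp only [zero_mul, Real.exp_zero, mul_one] at h1
    have h2 : Real.exp (-1 * 0 ^ 2) = 1 := by norm_num
    rw [h2, mul_one] at h1
    exact (abs_nonneg _).trans h1
  have hi : Integrable (fun t : ℝ => Real.exp (-(1 / 2) * t ^ 2)) :=
    integrable_exp_neg_mul_sq (by norm_num)
  set J : ℝ := ∫ t : ℝ, Real.exp (-(1 / 2) * t ^ 2) with hJ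
  have hJ0 : 0 ≤ J := integral_nonneg fun t => (Real.exp_pos _).le
  refine ⟨C * J + 1, by positivity, fun z => ?_⟩
  have hpt : ∀ t : ℝ, |w t| * Real.exp (|z.re| * |t|) ≤
      C * Real.exp (z.re ^ 2) * Real.exp (-(1 / 2) * t ^ 2) := by
    intro t
    have h1 := hC t
    rw [zero_mul, Real.exp_zero, mul_one] at h1
    calc |w t| * Real.exp (|z.re| * |t|) ≤ (C * Real.exp (-1 * t ^ 2)) * Real.exp (|z.re| * |t|) :=
          mul_le_mul_of_nonneg_right h1 (Real.exp_pos _).le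
      _ = C * Real.exp (-1 * t ^ 2 + |z.re| * |t|) := by rw [Real.exp_add]; ring
      _ ≤ C * Real.exp (z.re ^ 2 + -(1 / 2) * t ^ 2) := by
          refine mul_le_mul_of_nonneg_left (Real.exp_le_exp.2 ?_) hC0
          nlinarith [sq_nonneg (|z.re| - |t| / 1), sq_abs z.re, sq_abs t, sq_nonneg (|z.re|),
            abs_nonneg z.re, abs_nonneg t]
      _ = _ := by rw [Real.exp_add]; ring
  have h2 : ∫ t : ℝ, |w t| * Real.exp (|z.re| * |t|) ≤
      ∫ t : ℝ, C * Real.exp (z.re ^ 2) * Real.exp (-(1 / 2) * t ^ 2) := by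
    refine integral_mono_of_nonneg (Eventually.of_forall fun t => by positivity)
      (hi.const_mul _) (Eventually.of_forall hpt)
  rw [integral_const_mul, ← hJ] at h2
  have h3 := Real.exp_pos (z.re ^ 2)
  nlinarith

section

variable (H : Hc) (h : IsHc H)

/-- the Laplace transform of `fc` -/
noncomputable def LC (z : ℂ) : ℂ := ∫ t : ℝ, fc H t * cexp (z * t)

theorem kc_pos' {H : Hc} (h : IsHc H) : 0 < kc H := by
  unfold kc
  have := h.β_nonneg
  have := h.B_one
  linarith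

include h in
theorem fc_cl : Cl (fun t => ‖fc H t‖) := by
  obtain ⟨hc, hs, ⟨C, hC⟩, -⟩ := Pool.Agent.H471R3.GJ.TC.fcT H h
  have hk := kc_pos' h
  have hh := h.h_pos
  have hεn := h.ε_norm
  set c2 : ℝ := 1 / kc H with hc2
  have hc20 : 0 < c2 := by positivity
  set c1 : ℝ := Real.pi / H.h with hc1
  have hc10 : 0 < c1 := by positivity
  have hsymm : ∀ t, ‖fc H (-t)‖ = ‖fc H t‖ := by
    intro t
    rw [hs, norm_mul, RCLike.norm_conj, hεn, one_mul]
  obtain ⟨K, hK, h3⟩ := Pool.Agent.H471R3.GJ.HOdd.exp_abs_bound c1 c2 (H.k / 2 * c2) hc10 hc20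
  have key : ∀ t : ℝ, 0 ≤ t → ‖fc H t‖ ≤ |C| * K * Real.exp (-c1 * Real.exp (c2 * |t|)) := by
    intro t ht
    have h1 := hC t ht
    have h2 := h3 t
    rw [abs_of_nonneg ht] at h2 ⊢
    have h6 : Real.exp (-(c1 * c2 ^ 2 / 4) * t ^ 2) ≤ 1 := by
      rw [Real.exp_le_one_iff]
      have : 0 ≤ c1 * c2 ^ 2 / 4 * t ^ 2 := by positivity
      linarith
    have h7 : Real.exp (H.k / 2 * c2 * t) * Real.exp (-c1 * Real.exp (c2 * t)) ≤ K := by
      refine h2.trans ?_
      calc K * Real.exp (-(c1 * c2 ^ 2 / 4) * t ^ 2) ≤ K * 1 :=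
            mul_le_mul_of_nonneg_left h6 hK.le
        _ = K := mul_one K
    have e1 : Real.exp (-(2 * Real.pi / H.h) * Real.exp (t / kc H)) =
        Real.exp (-c1 * Real.exp (c2 * t)) * Real.exp (-c1 * Real.exp (c2 * t)) := by
      rw [← Real.exp_add]
      congr 1
      have : t / kc H = c2 * t := by rw [hc2]; ring
      rw [this, hc1]
      ring
    have e2 : Real.exp (H.k / 2 * t / kc H) = Real.exp (H.k / 2 * c2 * t) := by
      congr 1
      rw [hc2]
      ring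
    rw [e1, e2] at h1
    calc ‖fc H t‖ ≤ C * Real.exp (H.k / 2 * c2 * t) * (Real.exp (-c1 * Real.exp (c2 * t)) *
          Real.exp (-c1 * Real.exp (c2 * t))) := h1
      _ = C * ((Real.exp (H.k / 2 * c2 * t) * Real.exp (-c1 * Real.exp (c2 * t))) *
          Real.exp (-c1 * Real.exp (c2 * t))) := by ring
      _ ≤ |C| * ((Real.exp (H.k / 2 * c2 * t) * Real.exp (-c1 * Real.exp (c2 * t))) *
          Real.exp (-c1 * Real.exp (c2 * t))) :=
          mul_le_mul_of_nonneg_right (le_abs_self C) (by positivity)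
      _ ≤ |C| * (K * Real.exp (-c1 * Real.exp (c2 * t))) :=
          mul_le_mul_of_nonneg_left (mul_le_mul_of_nonneg_right h7 (Real.exp_pos _).le)
            (abs_nonneg C)
      _ = _ := by ring
  have hker : ∀ t : ℝ, |‖fc H t‖| ≤ |C| * K * Real.exp (-c1 * Real.exp (c2 * |t|)) := by
    intro t
    rw [abs_norm]
    rcases le_total 0 t with ht | ht
    · exact key t ht
    · have h4 := key (-t) (by linarith)
      rw [hsymm, abs_neg] at h4
      exact h4
  -- the kernel `‖fc‖ ` need not be positive at infinity: use a positive majorant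
  have hkp : Pool.Agent.H471R3.GJ.KerProp
      (fun t => (|C| * K + 1) * Real.exp (-c1 * (Real.exp (c2 * t) + Real.exp (-(c2 * t))))) 1 := by
    refine ⟨by fun_prop, fun t => ?_, ⟨0, fun t _ => by positivity⟩,
      |C| * K + 1, c1, c2, hc10, hc20, fun t => ?_⟩
    · simp only
      rw [one_mul, mul_neg, neg_neg, add_comm (Real.exp (-(c2 * t)))]
    · rw [abs_of_pos (by positivity)]
      refine mul_le_mul_of_nonneg_left (Real.exp_le_exp.2 ?_) (by positivity)
      rcases le_total 0 t with ht | ht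
      · rw [abs_of_nonneg ht]
        have := mul_pos hc10 (Real.exp_pos (-(c2 * t)))
        linarith
      · rw [abs_of_nonpos ht, mul_neg]
        have := mul_pos hc10 (Real.exp_pos (c2 * t))
        linarith
  have hcl := cl_of_ker hkp
  refine ⟨hc.norm, fun M => ?_⟩
  obtain ⟨C', hC'⟩ := hcl.2 M
  refine ⟨Real.exp c1 * C', fun t => ?_⟩
  have h5 := hC' t
  rw [abs_of_pos (by positivity)] at h5
  have h6 : |‖fc H t‖| ≤ Real.exp c1 * ((|C| * K + 1) *
      Real.exp (-c1 * (Real.exp (c2 * t) + Real.exp (-(c2 * t))))) := by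
    refine (hker t).trans ?_
    have h7 : Real.exp (-c1 * Real.exp (c2 * |t|)) ≤
        Real.exp c1 * Real.exp (-c1 * (Real.exp (c2 * t) + Real.exp (-(c2 * t)))) := by
      rw [← Real.exp_add]
      refine Real.exp_le_exp.2 ?_
      rcases le_total 0 t with ht | ht
      · rw [abs_of_nonneg ht]
        have h8 : Real.exp (-(c2 * t)) ≤ 1 := by
          rw [Real.exp_le_one_iff]
          have := mul_nonneg hc20.le ht
          linarith
        have := mul_le_mul_of_nonneg_left h8 hc10.le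
        linarith
      · rw [abs_of_nonpos ht, mul_neg]
        have h8 : Real.exp (c2 * t) ≤ 1 := by
          rw [Real.exp_le_one_iff]
          exact mul_nonpos_of_nonneg_of_nonpos hc20.le ht
        have := mul_le_mul_of_nonneg_left h8 hc10.le
        linarith
    have h9 : 0 ≤ |C| * K := by positivity
    calc |C| * K * Real.exp (-c1 * Real.exp (c2 * |t|)) ≤ (|C| * K + 1) *
          (Real.exp c1 * Real.exp (-c1 * (Real.exp (c2 * t) + Real.exp (-(c2 * t))))) :=
          mul_le_mul (by linarith) h7 (Real.exp_pos _).le (by positivity)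
      _ = _ := by ring
  calc |‖fc H t‖| * Real.exp (M * |t|) ≤ (Real.exp c1 * ((|C| * K + 1) *
      Real.exp (-c1 * (Real.exp (c2 * t) + Real.exp (-(c2 * t)))))) * Real.exp (M * |t|) :=
        mul_le_mul_of_nonneg_right h6 (Real.exp_pos _).le
    _ = Real.exp c1 * (((|C| * K + 1) *
      Real.exp (-c1 * (Real.exp (c2 * t) + Real.exp (-(c2 * t))))) * Real.exp (M * |t|)) := by ring
    _ ≤ Real.exp c1 * (C' * Real.exp (-1 * t ^ 2)) :=
        mul_le_mul_of_nonneg_left h5 (Real.exp_pos _).le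
    _ = _ := by ring

include h in
theorem LC_facts : Differentiable ℂ (LC H) ∧
    ∃ C : ℝ, 0 < C ∧ ∀ z : ℂ, ‖LC H z‖ ≤ C * Real.exp (z.re ^ 2) := by
  have hcl := fc_cl H h
  have hc := (Pool.Agent.H471R3.GJ.TC.fcT H h).1
  have hre : Cl (fun t => (fc H t).re) := by
    refine ⟨Complex.continuous_re.comp hc, fun M => ?_⟩
    obtain ⟨C, hC⟩ := hcl.2 M
    refine ⟨C, fun t => le_trans ?_ (hC t)⟩
    rw [abs_norm]
    exact mul_le_mul_of_nonneg_right (Complex.abs_re_le_norm _) (Real.exp_pos _).le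
  have him : Cl (fun t => (fc H t).im) := by
    refine ⟨Complex.continuous_im.comp hc, fun M => ?_⟩
    obtain ⟨C, hC⟩ := hcl.2 M
    refine ⟨C, fun t => le_trans ?_ (hC t)⟩
    rw [abs_norm]
    exact mul_le_mul_of_nonneg_right (Complex.abs_im_le_norm _) (Real.exp_pos _).le
  have e1 : LC H = fun z => L (fun t => (fc H t).re) z + L (fun t => (fc H t).im) z * I := by
    funext z
    unfold LC L
    rw [← integral_mul_const, ← integral_add (L_integrable hre z) ((L_integrable him z).mul_const I)]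
    refine integral_congr_ae (Eventually.of_forall fun t => ?_)
    simp only
    conv_lhs => rw [← Complex.re_add_im (fc H t)]
    ring
  constructor
  · rw [e1]
    exact fun z => (L_hasDerivAt hre z).differentiableAt.add
      ((L_hasDerivAt him z).differentiableAt.mul_const I)
  · obtain ⟨C, hC, hb⟩ := cl_order hcl
    refine ⟨C, hC, fun z => le_trans ?_ (hb z)⟩
    unfold LC
    obtain ⟨C', hC'⟩ := hcl.2 |z.re|
    have hint : Integrable (fun t : ℝ => |‖fc H t‖| * Real.exp (|z.re| * |t|)) := by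
      refine Integrable.mono' ((integrable_exp_neg_mul_sq one_pos).const_mul C') ?_
        (Eventually.of_forall fun t => ?_)
      · exact (by fun_prop : Continuous fun t : ℝ =>
          |‖fc H t‖| * Real.exp (|z.re| * |t|)).aestronglyMeasurable
      · rw [Real.norm_of_nonneg (by positivity)]
        exact hC' t
    refine (norm_integral_le_integral_norm _).trans ?_
    refine integral_mono_of_nonneg (Eventually.of_forall fun t => norm_nonneg _) hint
      (Eventually.of_forall fun t => ?_)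
    simp only
    rw [norm_mul, abs_norm, Complex.norm_exp]
    refine mul_le_mul_of_nonneg_left (Real.exp_le_exp.2 ?_) (norm_nonneg _)
    rw [← abs_mul]
    simp only [mul_re, ofReal_re, ofReal_im, mul_zero, sub_zero]
    exact le_abs_self _

include h in
theorem mel_LC (s : ℂ) : mellin H.φ s = LC H ((s - ((H.k / 2 : ℝ) : ℂ)) / ((kc H : ℝ) : ℂ)) := by
  obtain ⟨-, h2, -⟩ := Pool.Agent.H471R3.GJ.TC.melT H h
  have hk := kc_pos' h
  have hkc : ((kc H : ℝ) : ℂ) ≠ 0 := by exact_mod_cast hk.ne'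
  have h3 := h2 ((s - ((H.k / 2 : ℝ) : ℂ)) / ((kc H : ℝ) : ℂ))
  have e1 : sc H ((s - ((H.k / 2 : ℝ) : ℂ)) / ((kc H : ℝ) : ℂ)) = s := by
    unfold sc
    rw [mul_div_cancel₀ _ hkc]
    ring
  rw [e1] at h3
  exact h3

include h in
theorem mel_diff : Differentiable ℂ (mellin H.φ) := by
  have e1 : mellin H.φ = fun s => LC H ((s - ((H.k / 2 : ℝ) : ℂ)) / ((kc H : ℝ) : ℂ)) :=
    funext (mel_LC H h)
  rw [e1]
  exact (LC_facts H h).1.comp ((differentiable_id.sub_const _).div_const _)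

include h in
theorem mel_order : ∃ A : ℝ, ∀ s : ℂ, ‖mellin H.φ s‖ ≤ Real.exp (A * (1 + ‖s‖) ^ (2 : ℝ)) := by
  obtain ⟨C, hC, hb⟩ := (LC_facts H h).2
  have hk := kc_pos' h
  have hk0 := h.k_pos
  set R : ℝ := (1 + H.k / 2) / kc H with hR
  have hR0 : 0 < R := by positivity
  refine ⟨|Real.log C| + R ^ 2, fun s => ?_⟩
  rw [mel_LC H h]
  refine (hb _).trans ?_
  rw [← Real.exp_log hC, ← Real.exp_add]
  refine Real.exp_le_exp.2 ?_
  rw [Real.exp_log hC]
  have e1 : ((s - ((H.k / 2 : ℝ) : ℂ)) / ((kc H : ℝ) : ℂ)).re = (s.re - H.k / 2) / kc H := by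
    rw [Complex.div_ofReal_re, Complex.sub_re, Complex.ofReal_re]
  have hs : 1 ≤ 1 + ‖s‖ := by linarith [norm_nonneg s]
  have h1 : |(s.re - H.k / 2) / kc H| ≤ R * (1 + ‖s‖) := by
    rw [abs_div, abs_of_pos hk, hR, div_mul_eq_mul_div]
    refine div_le_div_of_nonneg_right ?_ hk.le
    have h2 := Complex.abs_re_le_norm s
    have h3 : |s.re - H.k / 2| ≤ |s.re| + |H.k / 2| := abs_sub _ _
    rw [abs_of_pos (by linarith : 0 < H.k / 2)] at h3
    nlinarith [norm_nonneg s]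
  have h2 : ((s.re - H.k / 2) / kc H) ^ 2 ≤ R ^ 2 * (1 + ‖s‖) ^ 2 := by
    rw [← sq_abs, ← mul_pow]
    exact pow_le_pow_left₀ (abs_nonneg _) h1 2
  have h3 : (1 : ℝ) ≤ (1 + ‖s‖) ^ 2 := one_le_pow₀ hs
  have h4 : Real.log C ≤ |Real.log C| * (1 + ‖s‖) ^ 2 :=
    (le_abs_self _).trans (le_mul_of_one_le_right (abs_nonneg _) h3)
  have e2 : (1 + ‖s‖) ^ (2 : ℝ) = (1 + ‖s‖) ^ 2 := Real.rpow_two _
  rw [e1, e2]
  linarith

include h in
theorem mel_fe (s : ℂ) : mellin H.φ ((H.k : ℂ) - s) = H.ε * conj (mellin H.φ (conj s)) := by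
  obtain ⟨-, h2, h3, -⟩ := Pool.Agent.H471R3.GJ.TC.melT H h
  obtain ⟨-, hs, -⟩ := Pool.Agent.H471R3.GJ.TC.fcT H h
  have hk := kc_pos' h
  have hkc : ((kc H : ℝ) : ℂ) ≠ 0 := by exact_mod_cast hk.ne'
  set z : ℂ := (s - ((H.k / 2 : ℝ) : ℂ)) / ((kc H : ℝ) : ℂ) with hz
  have e1 : sc H z = s := by
    unfold sc
    rw [hz, mul_div_cancel₀ _ hkc]
    ring
  have e2 : sc H (-z) = (H.k : ℂ) - s := by
    unfold sc
    rw [hz, mul_neg, mul_div_cancel₀ _ hkc]
    push_cast
    ring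
  have h4 := h3 z
  rw [e1] at h4
  rw [← e2, h2 (-z), h4, ← integral_const_mul,
    ← MeasureTheory.integral_neg_eq_self (fun t : ℝ => fc H t * cexp (-z * t))]
  refine integral_congr_ae (Eventually.of_forall fun t => ?_)
  simp only
  rw [hs]
  push_cast
  have e3 : -z * -(t : ℂ) = z * t := by ring
  rw [e3]
  ring

/-- the completed L-function in the case `p = 1` -/
noncomputable def Lam1 (s : ℂ) : ℂ :=
  ((2 * H.h ^ (-((H.k - 1) / 2)) : ℝ) : ℂ) * mellin H.φ (s + (((H.k - 1) / 2 : ℝ) : ℂ))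

/-- the completed L-function in the case `p = 2` -/
noncomputable def Lam2 (s : ℂ) : ℂ :=
  (((H.h / 2) ^ (-((H.k - 1 / 2) / 2)) : ℝ) : ℂ) * mellin H.φ ((s + ((H.k - 1 / 2 : ℝ) : ℂ)) / 2)

theorem order_comp {F : ℂ → ℂ} {A : ℝ} (hF : ∀ s : ℂ, ‖F s‖ ≤ Real.exp (A * (1 + ‖s‖) ^ (2 : ℝ)))
    (K : ℝ) (g : ℂ → ℂ) (a : ℝ) (hg : ∀ s, 1 + ‖g s‖ ≤ a * (1 + ‖s‖)) :
    ∃ A' ρ : ℝ, ∀ s : ℂ, ‖(K : ℂ) * F (g s)‖ ≤ Real.exp (A' * (1 + ‖s‖) ^ ρ) := by
  refine ⟨Real.log (|K| + 1) + |A| * a ^ 2, 2, fun s => ?_⟩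
  have hs : 1 ≤ 1 + ‖s‖ := by linarith [norm_nonneg s]
  rw [norm_mul, Complex.norm_real, Real.norm_eq_abs]
  have h1 : |K| ≤ Real.exp (Real.log (|K| + 1)) := by
    rw [Real.exp_log (by positivity)]
    linarith
  have hl : 0 ≤ Real.log (|K| + 1) := Real.log_nonneg (by linarith [abs_nonneg K])
  calc |K| * ‖F (g s)‖ ≤ Real.exp (Real.log (|K| + 1)) * Real.exp (A * (1 + ‖g s‖) ^ (2 : ℝ)) :=
        mul_le_mul h1 (hF _) (norm_nonneg _) (Real.exp_pos _).le
    _ = Real.exp (Real.log (|K| + 1) + A * (1 + ‖g s‖) ^ (2 : ℝ)) := (Real.exp_add _ _).symm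
    _ ≤ _ := by
        refine Real.exp_le_exp.2 ?_
        rw [Real.rpow_two, Real.rpow_two]
        have h2 : (1 + ‖g s‖) ^ 2 ≤ (a * (1 + ‖s‖)) ^ 2 :=
          pow_le_pow_left₀ (by positivity) (hg s) 2
        have h3 : A * (1 + ‖g s‖) ^ 2 ≤ |A| * (a * (1 + ‖s‖)) ^ 2 := by
          calc A * (1 + ‖g s‖) ^ 2 ≤ |A| * (1 + ‖g s‖) ^ 2 :=
                mul_le_mul_of_nonneg_right (le_abs_self A) (by positivity)
            _ ≤ _ := mul_le_mul_of_nonneg_left h2 (abs_nonneg A)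
        have h4 : (1 : ℝ) ≤ (1 + ‖s‖) ^ 2 := one_le_pow₀ hs
        have h5 : Real.log (|K| + 1) ≤ Real.log (|K| + 1) * (1 + ‖s‖) ^ 2 :=
          le_mul_of_one_le_right hl h4
        rw [mul_pow] at h3
        linarith

include h in
theorem hc_isC1 (hp : H.p = 1) :
    IsC [Pc.one ((H.k - 1) / 2), Pc.one ((H.k + 1) / 2)] (Real.log H.h)
      (fun n => H.b n * ((((n : ℝ) ^ (-((H.k - 1) / 2)) : ℝ)) : ℂ)) H.ε (Lam1 H) := by
  have hh := h.h_pos
  have hk0 := h.k_pos
  have hB := h.B_one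
  have hβ := h.β_nonneg
  refine ⟨?_, ?_, ⟨H.B, H.β + |(H.k - 1) / 2|, fun m hm => ?_⟩, ?_, fun s => ?_, ?_,
    ⟨H.β + |(H.k - 1) / 2| + H.k + 2, fun s hs => ?_⟩⟩
  · intro q hq
    simp only [List.mem_cons, List.not_mem_nil, or_false] at hq
    rcases hq with rfl | rfl <;> trivial
  · simp [h.b_one]
  · have hm0 : (0 : ℝ) < m := by exact_mod_cast hm
    have hm1 : (1 : ℝ) ≤ m := by exact_mod_cast hm
    rw [norm_mul, Complex.norm_real, Real.norm_of_nonneg (Real.rpow_nonneg hm0.le _),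
      Real.rpow_add hm0, ← mul_assoc]
    refine mul_le_mul (h.b_le m hm) ?_ (Real.rpow_nonneg hm0.le _) (by positivity)
    exact Real.rpow_le_rpow_of_exponent_le hm1 (neg_le_abs _)
  · unfold Lam1
    exact ((mel_diff H h).comp (differentiable_id.add_const _)).const_mul _
  · unfold Lam1
    have e1 : 1 - s + (((H.k - 1) / 2 : ℝ) : ℂ) =
        (H.k : ℂ) - (s + (((H.k - 1) / 2 : ℝ) : ℂ)) := by
      push_cast
      ring
    rw [e1, mel_fe H h, map_mul, Complex.conj_ofReal, map_add, Complex.conj_ofReal]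
    ring
  · obtain ⟨A, hA⟩ := mel_order H h
    refine order_comp hA _ _ (1 + |(H.k - 1) / 2|) (fun s => ?_)
    have h1 := norm_add_le s (((H.k - 1) / 2 : ℝ) : ℂ)
    rw [Complex.norm_real, Real.norm_eq_abs] at h1
    nlinarith [norm_nonneg s, abs_nonneg ((H.k - 1) / 2)]
  · have habs := neg_abs_le ((H.k - 1) / 2)
    have habs2 := le_abs_self ((H.k - 1) / 2)
    set S : ℂ := s + (((H.k - 1) / 2 : ℝ) : ℂ) with hS
    have hSre : S.re = s.re + (H.k - 1) / 2 := by rw [hS]; simp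
    have hS0 : 0 < S.re := by rw [hSre]; linarith
    have h1 := Pool.Agent.H471R3.GJ.TC.dirT H h S hS0 (by
      rw [hp, hSre]
      push_cast
      linarith)
    unfold Lam1
    rw [← hS, h1]
    have hbb : ∀ m : ℕ, 1 ≤ m → ‖H.b m * ((((m : ℝ) ^ (-((H.k - 1) / 2)) : ℝ)) : ℂ)‖ ≤
        H.B * (m : ℝ) ^ (H.β + |(H.k - 1) / 2|) := by
      intro m hm
      have hm0 : (0 : ℝ) < m := by exact_mod_cast hm
      have hm1 : (1 : ℝ) ≤ m := by exact_mod_cast hm
      rw [norm_mul, Complex.norm_real, Real.norm_of_nonneg (Real.rpow_nonneg hm0.le _),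
        Real.rpow_add hm0, ← mul_assoc]
      refine mul_le_mul (h.b_le m hm) ?_ (Real.rpow_nonneg hm0.le _) (by positivity)
      exact Real.rpow_le_rpow_of_exponent_le hm1 (neg_le_abs _)
    rw [lseries_tsum (summ_of_bd hbb (by linarith))]
    have e2 : (∑' m : ℕ, H.b (m + 1) * ((m + 1 : ℕ) : ℂ) ^ (-(H.p : ℂ) * S)) =
        ∑' m : ℕ, H.b (m + 1) * (((((m + 1 : ℕ) : ℝ) ^ (-((H.k - 1) / 2)) : ℝ)) : ℂ) *
          ((m + 1 : ℕ) : ℂ) ^ (-s) := by
      refine tsum_congr fun m => ?_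
      have hm : ((m + 1 : ℕ) : ℂ) ≠ 0 := by exact_mod_cast Nat.succ_ne_zero m
      rw [mul_assoc]
      congr 1
      have e3 : -(H.p : ℂ) * S = ((-((H.k - 1) / 2) : ℝ) : ℂ) + -s := by
        rw [hp, hS]
        push_cast
        ring
      rw [e3, Complex.cpow_add _ _ hm, Complex.ofReal_cpow (by positivity)]
      norm_cast
    rw [e2]
    have e4 : GF [Pc.one ((H.k - 1) / 2), Pc.one ((H.k + 1) / 2)] s = Gammaℂ S := by
      unfold GF
      simp only [List.map_cons, List.map_nil, List.prod_cons, List.prod_nil, mul_one]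
      show Gammaℝ (s + (((H.k - 1) / 2 : ℝ) : ℂ)) * Gammaℝ (s + (((H.k + 1) / 2 : ℝ) : ℂ)) = _
      rw [← Complex.Gammaℝ_mul_Gammaℝ_add_one, hS]
      congr 2
      push_cast
      ring
    rw [e4, Complex.Gammaℂ_def]
    have hhc : ((H.h : ℝ) : ℂ) ≠ 0 := by exact_mod_cast hh.ne'
    have hpc : ((2 * Real.pi : ℝ) : ℂ) ≠ 0 := by
      have : (2 * Real.pi : ℝ) ≠ 0 := by positivity
      exact_mod_cast this
    have e5 : ((H.h / (2 * Real.pi) : ℝ) : ℂ) ^ S = ((H.h : ℝ) : ℂ) ^ S *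
        (2 * (Real.pi : ℂ)) ^ (-S) := by
      rw [Complex.ofReal_div, Complex.div_cpow_ofReal_nonneg hh.le (by positivity) S]
      push_cast
      rw [Complex.cpow_neg, div_eq_mul_inv]
    have e6 : ((H.h ^ (-((H.k - 1) / 2)) : ℝ) : ℂ) * ((H.h : ℝ) : ℂ) ^ S =
        cexp (s * ((Real.log H.h : ℝ) : ℂ)) := by
      rw [Complex.ofReal_cpow hh.le, ← Complex.cpow_add _ _ hhc, Complex.cpow_def_of_ne_zero hhc,
        ← Complex.ofReal_log hh.le]
      congr 1
      rw [hS]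
      push_cast
      ring
    rw [e5, ← e6]
    push_cast
    ring

end

end Pool.Agent.W355.LJ
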