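import Pool.Agent.W355.LJ.FE
import Pool.Agent.W355.LJ.Gam
import Pool.Agent.H24R2.JP.Mom
import Pool.Agent.H471R3.GJ.HOdd

set_option autoImplicit false

/-!
# Self-dual L-functions: the standing data of the criterion
-/

namespace Pool.Agent.W355.LJ

open Complex Filter Topology MeasureTheory Set
open Pool.Agent.H471R3.GJ (Dat IsL KerProp)
open Pool.Agent.H24R2.JP.MomAux (Cl L_hasDerivAt L_integrable)

/-- The data of a self-dual L-function. -/
structure LD where
  /-- the first factor at infinity -/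
  p : Pc
  /-- the other factors at infinity -/
  l : List Pc
  /-- half of the logarithm of the conductor -/
  L : ℝ
  /-- the coefficients -/
  b : ℕ → ℝ
  /-- exponent of the coefficients -/
  β : ℝ
  /-- constant of the coefficients -/
  B : ℝ
  /-- abscissa -/
  σ0 : ℝ
  /-- the sign -/
  ε : ℝ
  /-- the completed L-function -/
  Λ : ℂ → ℂ

/-- The hypotheses. -/
structure IsLD (D : LD) : Prop where
  real : ∀ q ∈ D.p :: D.l, q.real
  coef : IsB D.b D.β D.B
  ε_or : D.ε = 1 ∨ D.ε = -1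
  entire : Differentiable ℂ D.Λ
  fe : ∀ s, D.Λ (1 - s) = (D.ε : ℂ) * D.Λ s
  order : ∃ A ρ : ℝ, ∀ s : ℂ, ‖D.Λ s‖ ≤ Real.exp (A * (1 + ‖s‖) ^ ρ)
  dir : ∀ s : ℂ, D.σ0 ≤ s.re → D.Λ s = cexp (s * D.L) * GF (D.p :: D.l) s *
    ∑' m : ℕ, ((D.b (m + 1) : ℝ) : ℂ) * ((m + 1 : ℕ) : ℂ) ^ (-s)

/-- The exponent `A`. -/
noncomputable def aL (D : LD) : ℝ := D.β + |D.σ0| + sh (D.p :: D.l)

/-- The scale. -/
noncomputable def kL (D : LD) : ℝ := 2 * (aL D + 2 + D.B)

/-- The theta series. -/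
noncomputable def thL (D : LD) : ℝ → ℝ := Th D.b D.L (GK D.p D.l)

/-- The kernel of `Λ (1 / 2 + k z)`. -/
noncomputable def P0 (D : LD) (t : ℝ) : ℝ :=
  1 / kL D * (Real.exp (1 / 2 * (t / kL D)) * thL D (t / kL D))

open Classical in
/-- The even kernel. -/
noncomputable def P1 (D : LD) (t : ℝ) : ℝ :=
  if D.ε = 1 then P0 D t else ∫ u in Set.Ioi t, P0 D u

/-- `s = 1 / 2 + k z`. -/
noncomputable def sL (D : LD) (z : ℂ) : ℂ := 1 / 2 + ((kL D : ℝ) : ℂ) * z

open Classical in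
/-- The standing data. -/
noncomputable def datL (D : LD) : Dat where
  XX z := ∫ t : ℝ, ((P1 D t : ℝ) : ℂ) * cexp (z * t)
  HH z := cexp (sL D z * D.L) * GF (D.p :: D.l) (sL D z) / (if D.ε = 1 then 1 else z)
  a m := ((D.b m * (m : ℝ) ^ (-(1 / 2) : ℝ) : ℝ) : ℂ)
  Φ := P1 D
  κ := kL D
  c := (dg (D.p :: D.l) : ℝ) / 2
  A := aL D
  A0 := D.B
  w := 20 * (kL D + aL D + 1) + 24 + 2 * D.B

section

variable {D : LD} (h : IsLD D)

include h in
theorem aL_facts : 1 ≤ aL D ∧ D.β ≤ aL D ∧ D.σ0 ≤ aL D ∧ sh (D.p :: D.l) ≤ aL D := by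
  have h1 := h.coef.β_nonneg
  have h2 := abs_nonneg D.σ0
  have h3 := le_abs_self D.σ0
  have h4 := sh_one (D.p :: D.l)
  unfold aL
  refine ⟨by linarith, by linarith, by linarith, by linarith⟩

include h in
theorem kL_ge : 8 ≤ kL D := by
  have h1 := (aL_facts h).1
  have h2 := h.coef.B_one
  unfold kL
  linarith

theorem GKG (D : LD) : IsG (GK D.p D.l) (sh (D.p :: D.l)) (GF (D.p :: D.l)) := GK_isG D.p D.l

include h in
theorem thL_fe (t : ℝ) : thL D (-t) = D.ε * (Real.exp t * thL D t) := by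
  obtain ⟨A, ρ, hord⟩ := h.order
  refine th_fe h.coef (GKG D) D.L (fun σ hσ => ?_) D.Λ h.entire D.ε h.ε_or h.fe A ρ hord D.σ0
    h.dir t
  obtain ⟨C, -, hC⟩ := (GF_isGam D.p D.l).decay σ hσ
  exact ⟨C, hC⟩

include h in
theorem P0_ker : KerProp (P0 D) D.ε := by
  have hk := kL_ge h
  have hk0 : 0 < kL D := by linarith
  have hcont : Continuous (thL D) := th_cont h.coef (GKG D) D.L
  have hsymm : ∀ t, P0 D (-t) = D.ε * P0 D t := by
    intro t
    unfold P0
    rw [neg_div, thL_fe h]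
    have e1 : Real.exp (1 / 2 * -(t / kL D)) * Real.exp (t / kL D) =
        Real.exp (1 / 2 * (t / kL D)) := by
      rw [← Real.exp_add]
      congr 1
      ring
    linear_combination (1 / kL D * D.ε * thL D (t / kL D)) * e1
  refine ⟨by unfold P0; fun_prop, hsymm, ?_, ?_⟩
  · obtain ⟨T, hT⟩ := th_pos h.coef (GKG D) D.L
    refine ⟨kL D * T, fun t ht => ?_⟩
    have h1 : T ≤ t / kL D := by
      rw [le_div_iff₀ hk0]
      linarith
    have h2 := hT _ h1
    have h3 : 0 < thL D (t / kL D) := h2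
    unfold P0
    positivity
  · obtain ⟨C, c1, c2, hC, hc1, hc2, hd⟩ := th_dec h.coef (GKG D) D.L
    obtain ⟨K, hK, h3⟩ := Pool.Agent.H471R3.GJ.HOdd.exp_abs_bound (c1 / 2) c2 (1 / 2)
      (half_pos hc1) hc2
    have key : ∀ t : ℝ, 0 ≤ t → |P0 D t| ≤
        1 / kL D * (C * K) * Real.exp (-(c1 / 2) * Real.exp (c2 / kL D * |t|)) := by
      intro t ht
      set u : ℝ := t / kL D with hu
      have hu0 : 0 ≤ u := div_nonneg ht hk0.le
      have h4 := hd u hu0
      have h5 := h3 u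
      rw [abs_of_nonneg hu0] at h5
      have h6 : Real.exp (-(c1 / 2 * c2 ^ 2 / 4) * u ^ 2) ≤ 1 := by
        rw [Real.exp_le_one_iff]
        have : 0 ≤ c1 / 2 * c2 ^ 2 / 4 * u ^ 2 := by positivity
        linarith
      have h7 : Real.exp (1 / 2 * u) * Real.exp (-(c1 / 2) * Real.exp (c2 * u)) ≤ K := by
        refine h5.trans ?_
        calc K * Real.exp (-(c1 / 2 * c2 ^ 2 / 4) * u ^ 2) ≤ K * 1 :=
              mul_le_mul_of_nonneg_left h6 hK.le
          _ = K := mul_one K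
      have e1 : Real.exp (-c1 * Real.exp (c2 * u)) = Real.exp (-(c1 / 2) * Real.exp (c2 * u)) *
          Real.exp (-(c1 / 2) * Real.exp (c2 * u)) := by
        rw [← Real.exp_add]
        congr 1
        ring
      have e2 : c2 / kL D * |t| = c2 * u := by
        rw [abs_of_nonneg ht, hu]
        ring
      unfold P0
      rw [e2, abs_mul, abs_mul, abs_of_pos (Real.exp_pos _),
        abs_of_pos (by positivity : 0 < 1 / kL D), ← hu]
      have h8 : |thL D u| ≤ C * Real.exp (-c1 * Real.exp (c2 * u)) := h4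
      have h9 : Real.exp (1 / 2 * u) * |thL D u| ≤
          C * K * Real.exp (-(c1 / 2) * Real.exp (c2 * u)) := by
        calc Real.exp (1 / 2 * u) * |thL D u| ≤
            Real.exp (1 / 2 * u) * (C * Real.exp (-c1 * Real.exp (c2 * u))) :=
              mul_le_mul_of_nonneg_left h8 (Real.exp_pos _).le
          _ = C * (Real.exp (1 / 2 * u) * Real.exp (-(c1 / 2) * Real.exp (c2 * u))) *
              Real.exp (-(c1 / 2) * Real.exp (c2 * u)) := by
              rw [e1]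
              ring
          _ ≤ C * K * Real.exp (-(c1 / 2) * Real.exp (c2 * u)) :=
              mul_le_mul_of_nonneg_right (mul_le_mul_of_nonneg_left h7 hC.le) (Real.exp_pos _).le
      calc 1 / kL D * (Real.exp (1 / 2 * u) * |thL D u|) ≤
          1 / kL D * (C * K * Real.exp (-(c1 / 2) * Real.exp (c2 * u))) :=
            mul_le_mul_of_nonneg_left h9 (by positivity)
        _ = _ := by ring
    refine ⟨1 / kL D * (C * K), c1 / 2, c2 / kL D, half_pos hc1, by positivity, fun t => ?_⟩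
    rcases le_total 0 t with ht | ht
    · exact key t ht
    · have h4 := key (-t) (by linarith)
      rw [hsymm, abs_mul, abs_neg] at h4
      have h5 : |D.ε| = 1 := by
        rcases h.ε_or with h6 | h6 <;> rw [h6] <;> simp
      rw [h5, one_mul] at h4
      exact h4

open Classical in
include h in
theorem P1_ker : KerProp (P1 D) 1 := by
  have h1 := P0_ker h
  rcases h.ε_or with h5 | h5
  · have h3 : P1 D = P0 D := by
      funext t
      unfold P1
      rw [if_pos h5]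
    rw [h3]
    rwa [h5] at h1
  · have h6 : ¬ D.ε = 1 := by rw [h5]; norm_num
    have h3 : P1 D = fun t => ∫ u in Set.Ioi t, P0 D u := by
      funext t
      unfold P1
      rw [if_neg h6]
    rw [h3]
    rw [h5] at h1
    exact (Pool.Agent.H471R3.GJ.odd _ h1).1

end

/-- Kernels are rapidly decaying. -/
theorem cl_of_ker {Φ : ℝ → ℝ} {ε : ℝ} (h : KerProp Φ ε) : Cl Φ := by
  refine ⟨h.1, fun M => ?_⟩
  obtain ⟨C, c1, c2, hc1, hc2, hC⟩ := h.2.2.2
  set a : ℝ := c1 * (c2 ^ 3 / 6) with ha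
  have hap : 0 < a := by positivity
  set U : ℝ := (1 + |M|) / a + 1 with hU
  have hU1 : 1 ≤ U := by
    have : 0 ≤ (1 + |M|) / a := by positivity
    linarith
  have hCn : 0 ≤ C := by
    have := (abs_nonneg _).trans (hC 0)
    by_contra hn
    push Not at hn
    have h2 := mul_neg_of_neg_of_pos hn (Real.exp_pos (-c1 * Real.exp (c2 * |0|)))
    linarith
  refine ⟨C * Real.exp (U ^ 2 + |M| * U), fun t => ?_⟩
  set u : ℝ := |t| with hu
  have hu0 : 0 ≤ u := abs_nonneg t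
  have key : -c1 * Real.exp (c2 * u) + M * u ≤ (U ^ 2 + |M| * U) + -1 * t ^ 2 := by
    have e1 : (c2 * u) ^ 3 / 6 ≤ Real.exp (c2 * u) := by
      have := Real.pow_div_factorial_le_exp (c2 * u) (by positivity) 3
      norm_num [Nat.factorial] at this
      exact this
    have e2 : a * u ^ 3 ≤ c1 * Real.exp (c2 * u) := by
      calc a * u ^ 3 = c1 * ((c2 * u) ^ 3 / 6) := by rw [ha]; ring
        _ ≤ _ := by gcongr
    have e3 : t ^ 2 = u ^ 2 := by rw [hu, sq_abs]
    have e4 : M * u ≤ |M| * u := mul_le_mul_of_nonneg_right (le_abs_self M) hu0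
    have hM0 : 0 ≤ |M| := abs_nonneg M
    rw [e3]
    rcases le_total u U with hle | hge
    · have f1 : u ^ 2 ≤ U ^ 2 := by gcongr
      have f2 : |M| * u ≤ |M| * U := by gcongr
      have f3 : 0 ≤ a * u ^ 3 := by positivity
      linarith
    · have g0 : 1 ≤ u := hU1.trans hge
      have g1 : (1 + |M|) ≤ a * u := by
        have : (1 + |M|) / a ≤ u := by linarith
        rw [div_le_iff₀ hap] at this
        linarith
      have g2 : (1 + |M|) * u ^ 2 ≤ a * u ^ 3 := by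
        calc (1 + |M|) * u ^ 2 ≤ (a * u) * u ^ 2 := by gcongr
          _ = _ := by ring
      have g3 : |M| * u ≤ |M| * u ^ 2 := by
        have : u ≤ u ^ 2 := by nlinarith
        gcongr
      have g4 : 0 ≤ U ^ 2 + |M| * U := by positivity
      nlinarith
  calc |Φ t| * Real.exp (M * |t|)
      ≤ (C * Real.exp (-c1 * Real.exp (c2 * |t|))) * Real.exp (M * |t|) := by
        gcongr
        exact hC t
    _ = C * Real.exp (-c1 * Real.exp (c2 * |t|) + M * |t|) := by
        rw [Real.exp_add]; ring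
    _ ≤ C * Real.exp ((U ^ 2 + |M| * U) + -1 * t ^ 2) := by
        have := Real.exp_le_exp.2 key
        gcongr
    _ = _ := by rw [Real.exp_add]; ring

theorem sL_re (D : LD) (z : ℂ) : (sL D z).re = 1 / 2 + kL D * z.re := by
  unfold sL
  simp

theorem sL_im (D : LD) (z : ℂ) : (sL D z).im = kL D * z.im := by
  unfold sL
  simp

theorem sL_deriv (D : LD) (z : ℂ) : HasDerivAt (sL D) ((kL D : ℝ) : ℂ) z := by
  have h1 : HasDerivAt (fun z : ℂ => 1 / 2 + ((kL D : ℝ) : ℂ) * z)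
      (((kL D : ℝ) : ℂ) * 1) z := ((hasDerivAt_id z).const_mul _).const_add _
  rw [mul_one] at h1
  exact h1

section

variable {D : LD} (h : IsLD D)

include h in
theorem P0_lap_far (z : ℂ) (hz : 1 ≤ z.re) :
    ∫ t : ℝ, ((P0 D t : ℝ) : ℂ) * cexp (z * t) = D.Λ (sL D z) := by
  have hk := kL_ge h
  have hk0 : 0 < kL D := by linarith
  have hkc : ((kL D : ℝ) : ℂ) ≠ 0 := by exact_mod_cast hk0.ne'
  obtain ⟨a1, a2, a3, a4⟩ := aL_facts h
  have hB := h.coef.B_one
  have hre : aL D + 2 ≤ (sL D z).re := by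
    rw [sL_re]
    have : kL D * 1 ≤ kL D * z.re := mul_le_mul_of_nonneg_left hz hk0.le
    have : kL D = 2 * (aL D + 2 + D.B) := rfl
    nlinarith
  have h1 := th_lap h.coef (GKG D) D.L (sL D z) (by linarith) (by linarith)
  rw [← h.dir (sL D z) (by linarith)] at h1
  rw [← h1]
  have e1 : (fun t : ℝ => ((P0 D t : ℝ) : ℂ) * cexp (z * t)) = fun t : ℝ =>
      ((1 / kL D : ℝ) : ℂ) * (fun u : ℝ => ((thL D u : ℝ) : ℂ) * cexp (sL D z * u)) (t / kL D) := by
    funext t
    simp only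
    unfold P0
    push_cast
    have e2 : cexp (sL D z * ((t : ℂ) / (kL D : ℂ))) =
        cexp (1 / 2 * ((t : ℂ) / (kL D : ℂ))) * cexp (z * t) := by
      rw [← Complex.exp_add]
      congr 1
      unfold sL
      field_simp
    rw [e2]
    ring
  rw [e1, integral_const_mul, Measure.integral_comp_div
    (fun u : ℝ => ((thL D u : ℝ) : ℂ) * cexp (sL D z * u)) (kL D), abs_of_pos hk0,
    Complex.real_smul]
  push_cast
  have e3 : (1 / (kL D : ℂ)) * ((kL D : ℂ) * ∫ u : ℝ, ((thL D u : ℝ) : ℂ) * cexp (sL D z * u)) =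
      ∫ u : ℝ, ((thL D u : ℝ) : ℂ) * cexp (sL D z * u) := by
    field_simp
  rw [e3]
  rfl

include h in
theorem P0_lap (z : ℂ) : ∫ t : ℝ, ((P0 D t : ℝ) : ℂ) * cexp (z * t) = D.Λ (sL D z) := by
  have hcl := cl_of_ker (P0_ker h)
  have d1 : Differentiable ℂ (fun z : ℂ => ∫ t : ℝ, ((P0 D t : ℝ) : ℂ) * cexp (z * t)) :=
    fun z => (L_hasDerivAt hcl z).differentiableAt
  have d2 : Differentiable ℂ (fun z : ℂ => D.Λ (sL D z)) := fun z =>
    (h.entire _).comp z (sL_deriv D z).differentiableAt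
  have h1 : (fun z : ℂ => ∫ t : ℝ, ((P0 D t : ℝ) : ℂ) * cexp (z * t)) = fun z => D.Λ (sL D z) := by
    refine AnalyticOnNhd.eq_of_eventuallyEq (𝕜 := ℂ) (z₀ := 2)
      (fun z _ => d1.analyticAt z) (fun z _ => d2.analyticAt z) ?_
    have hopen : IsOpen {z : ℂ | 1 < z.re} := isOpen_lt continuous_const Complex.continuous_re
    filter_upwards [hopen.mem_nhds (by simp : (2 : ℂ) ∈ {z : ℂ | 1 < z.re})] with z hz
    exact P0_lap_far h z (le_of_lt hz)
  exact congrFun h1 z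

open Classical in
include h in
theorem XX_part1 (z : ℂ) : (if D.ε = 1 then 1 else z) * (datL D).XX z = D.Λ (sL D z) := by
  rw [← P0_lap h]
  show (if D.ε = 1 then 1 else z) * (∫ t : ℝ, ((P1 D t : ℝ) : ℂ) * cexp (z * t)) = _
  by_cases he : D.ε = 1
  · rw [if_pos he, one_mul]
    have : P1 D = P0 D := by
      funext t
      unfold P1
      rw [if_pos he]
    rw [this]
  · rw [if_neg he]
    have : P1 D = fun t => ∫ u in Set.Ioi t, P0 D u := by
      funext t
      unfold P1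
      rw [if_neg he]
    rw [this]
    have hm : D.ε = -1 := h.ε_or.resolve_left he
    have h3 := P0_ker h
    rw [hm] at h3
    exact (Pool.Agent.H471R3.GJ.odd (P0 D) h3).2 z

theorem term_eq (D : LD) (z : ℂ) (m : ℕ) :
    ((D.b (m + 1) : ℝ) : ℂ) * ((m + 1 : ℕ) : ℂ) ^ (-sL D z) =
      (datL D).a (m + 1) * ((m + 1 : ℕ) : ℂ) ^ (-((datL D).κ : ℂ) * z) := by
  show _ = ((D.b (m + 1) * ((m + 1 : ℕ) : ℝ) ^ (-(1 / 2) : ℝ) : ℝ) : ℂ) *
    ((m + 1 : ℕ) : ℂ) ^ (-((kL D : ℝ) : ℂ) * z)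
  have hm : ((m + 1 : ℕ) : ℂ) ≠ 0 := by exact_mod_cast Nat.succ_ne_zero m
  have e1 : -sL D z = ((-(1 / 2) : ℝ) : ℂ) + -((kL D : ℝ) : ℂ) * z := by
    unfold sL
    push_cast
    ring
  rw [e1, Complex.cpow_add _ _ hm]
  have e2 : ((m + 1 : ℕ) : ℂ) ^ (((-(1 / 2) : ℝ) : ℂ)) =
      ((((m + 1 : ℕ) : ℝ) ^ (-(1 / 2) : ℝ) : ℝ) : ℂ) := by
    rw [Complex.ofReal_cpow (by positivity)]
    norm_cast
  rw [e2]
  push_cast
  ring

open Classical in
include h in
theorem XX_part2 (z : ℂ) (hz : 0 < z.im) (hz2 : (datL D).A + 2 ≤ (datL D).κ * z.re) :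
    (datL D).XX z = (datL D).HH z *
      ∑' m : ℕ, (datL D).a (m + 1) * ((m + 1 : ℕ) : ℂ) ^ (-((datL D).κ : ℂ) * z) := by
  obtain ⟨a1, a2, a3, a4⟩ := aL_facts h
  have hz3 : aL D + 2 ≤ kL D * z.re := hz2
  have e1 := XX_part1 h z
  rw [h.dir _ (by rw [sL_re]; linarith)] at e1
  have e2 : (∑' m : ℕ, ((D.b (m + 1) : ℝ) : ℂ) * ((m + 1 : ℕ) : ℂ) ^ (-sL D z)) =
      ∑' m : ℕ, (datL D).a (m + 1) * ((m + 1 : ℕ) : ℂ) ^ (-((datL D).κ : ℂ) * z) :=
    tsum_congr fun m => term_eq D z m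
  rw [e2] at e1
  have hne : (if D.ε = 1 then 1 else z) ≠ (0 : ℂ) := by
    split_ifs
    · exact one_ne_zero
    · intro h0
      rw [h0] at hz
      simp at hz
  show (datL D).XX z = (cexp (sL D z * D.L) * GF (D.p :: D.l) (sL D z) /
    (if D.ε = 1 then 1 else z)) * _
  rw [div_mul_eq_mul_div, eq_div_iff hne, ← e1]
  ring

/-- the Dirichlet series does not vanish -/
theorem series_ne {b : ℕ → ℝ} {β B : ℝ} (hb : IsB b β B) (s : ℂ) (hs : β + 2 + B ≤ s.re) :
    (∑' m : ℕ, ((b (m + 1) : ℝ) : ℂ) * ((m + 1 : ℕ) : ℂ) ^ (-s)) ≠ 0 := by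
  set f : ℕ → ℂ := fun m => ((b (m + 1) : ℝ) : ℂ) * ((m + 1 : ℕ) : ℂ) ^ (-s) with hf
  have hB := hb.B_one
  have hβ := hb.β_nonneg
  have hb2 : B ≤ (2 : ℝ) ^ B := by
    have h1 := one_add_mul_self_le_rpow_one_add (s := 1) (by norm_num) hB
    have h2 : (1 : ℝ) + 1 = 2 := by norm_num
    rw [h2] at h1
    linarith
  have hbound : ∀ m : ℕ, ‖f (m + 1)‖ ≤ 1 / ((m + 2 : ℕ) : ℝ) ^ 2 := by
    intro m
    have hm0 : (0 : ℝ) < ((m + 1 + 1 : ℕ) : ℝ) := by positivity
    have hm2 : (2 : ℝ) ≤ ((m + 1 + 1 : ℕ) : ℝ) := by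
      push_cast
      have : (0 : ℝ) ≤ m := Nat.cast_nonneg m
      linarith
    have e1 : ‖f (m + 1)‖ = |b (m + 1 + 1)| * ((m + 1 + 1 : ℕ) : ℝ) ^ (-s.re) := by
      rw [hf]
      simp only
      rw [norm_mul, Complex.norm_real, Real.norm_eq_abs,
        Complex.norm_natCast_cpow_of_pos (Nat.succ_pos _), Complex.neg_re]
    have e2 := hb.le (m + 1 + 1) (by omega)
    rw [e1]
    calc |b (m + 1 + 1)| * ((m + 1 + 1 : ℕ) : ℝ) ^ (-s.re)
        ≤ B * ((m + 1 + 1 : ℕ) : ℝ) ^ β * ((m + 1 + 1 : ℕ) : ℝ) ^ (-s.re) :=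
          mul_le_mul_of_nonneg_right e2 (Real.rpow_nonneg hm0.le _)
      _ = B * ((m + 1 + 1 : ℕ) : ℝ) ^ (β + -s.re) := by
          rw [Real.rpow_add hm0]
          ring
      _ ≤ B * ((m + 1 + 1 : ℕ) : ℝ) ^ (-2 - B) := by
          refine mul_le_mul_of_nonneg_left ?_ (by linarith)
          exact Real.rpow_le_rpow_of_exponent_le (by linarith) (by linarith)
      _ = B * ((m + 1 + 1 : ℕ) : ℝ) ^ (-B) * ((m + 1 + 1 : ℕ) : ℝ) ^ (-2 : ℝ) := by
          rw [show (-2 - B : ℝ) = -B + -2 by ring, Real.rpow_add hm0]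
          ring
      _ ≤ B * (2 : ℝ) ^ (-B) * ((m + 1 + 1 : ℕ) : ℝ) ^ (-2 : ℝ) := by
          refine mul_le_mul_of_nonneg_right ?_ (Real.rpow_nonneg hm0.le _)
          refine mul_le_mul_of_nonneg_left ?_ (by linarith)
          exact Real.rpow_le_rpow_of_nonpos (by norm_num) hm2 (by linarith)
      _ ≤ 1 * ((m + 1 + 1 : ℕ) : ℝ) ^ (-2 : ℝ) := by
          refine mul_le_mul_of_nonneg_right ?_ (Real.rpow_nonneg hm0.le _)
          rw [Real.rpow_neg (by norm_num), ← div_eq_mul_inv, div_le_one (by positivity)]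
          exact hb2
      _ = 1 / ((m + 2 : ℕ) : ℝ) ^ 2 := by
          rw [one_mul, Real.rpow_neg hm0.le, one_div]
          congr 1
          exact Real.rpow_two _
  have hz2 : HasSum (fun n : ℕ => 1 / ((n + 2 : ℕ) : ℝ) ^ 2) (Real.pi ^ 2 / 6 - 1) := by
    have h1 := (hasSum_nat_add_iff' 2).2 hasSum_zeta_two
    have h2 : (∑ i ∈ Finset.range 2, 1 / (i : ℝ) ^ 2) = 1 := by
      rw [Finset.sum_range_succ, Finset.sum_range_succ, Finset.sum_range_zero]
      norm_num
    rw [h2] at h1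
    exact h1
  have hsum : Summable f := by
    rw [← summable_nat_add_iff 1]
    exact Summable.of_norm_bounded hz2.summable hbound
  have htail : ‖∑' m : ℕ, f (m + 1)‖ ≤ Real.pi ^ 2 / 6 - 1 := tsum_of_norm_bounded hz2 hbound
  have hpi : Real.pi ^ 2 / 6 - 1 < 1 := by
    have h1 := Real.pi_lt_d2
    have h2 := Real.pi_pos
    nlinarith
  intro h0
  have h1 := hsum.tsum_eq_zero_add
  rw [h0] at h1
  have hf0 : f 0 = 1 := by
    rw [hf]
    simp [hb.one]
  rw [hf0] at h1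
  have h2 : (∑' m : ℕ, f (m + 1)) = -1 := by linear_combination -h1
  rw [h2, norm_neg, norm_one] at htail
  linarith

open Classical in
include h in
theorem XX_ne (z : ℂ) (hz : 1 / 2 < z.re) : (datL D).XX z ≠ 0 := by
  intro h0
  have hk := kL_ge h
  obtain ⟨a1, a2, a3, a4⟩ := aL_facts h
  have hB := h.coef.B_one
  have hre : aL D + 2 + D.B ≤ (sL D z).re := by
    rw [sL_re]
    have h2 : kL D * (1 / 2) ≤ kL D * z.re := mul_le_mul_of_nonneg_left hz.le (by linarith)
    have h3 : kL D = 2 * (aL D + 2 + D.B) := rfl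
    linarith
  have e1 := XX_part1 h z
  rw [h0, mul_zero, h.dir _ (by linarith)] at e1
  exact mul_ne_zero (mul_ne_zero (Complex.exp_ne_zero _)
    ((GF_isGam D.p D.l).ne _ (by linarith))) (series_ne h.coef _ (by linarith)) e1.symm

include h in
theorem XX_even (z : ℂ) : (datL D).XX (-z) = (datL D).XX z := by
  show (∫ t : ℝ, ((P1 D t : ℝ) : ℂ) * cexp (-z * t)) =
    ∫ t : ℝ, ((P1 D t : ℝ) : ℂ) * cexp (z * t)
  rw [← MeasureTheory.integral_neg_eq_self (fun t : ℝ => ((P1 D t : ℝ) : ℂ) * cexp (z * t))]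
  congr 1
  funext t
  rw [(P1_ker h).2.1 t, one_mul]
  push_cast
  congr 2
  ring

include h in
theorem XX_zero (z : ℂ) (hz : (datL D).XX z = 0) : |z.re| ≤ 1 / 2 := by
  by_contra hcon
  push Not at hcon
  rcases lt_or_ge 0 z.re with h6 | h6
  · rw [abs_of_pos h6] at hcon
    exact XX_ne h z hcon hz
  · rw [abs_of_nonpos h6] at hcon
    refine XX_ne h (-z) (by simpa using hcon) ?_
    rw [XX_even h, hz]

/-- the numerator of the factor at infinity -/
noncomputable def NL (D : LD) (z : ℂ) : ℂ := cexp (sL D z * D.L) * GF (D.p :: D.l) (sL D z)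

include h in
theorem NL_diff (z : ℂ) (hz : 0 < z.im) : DifferentiableAt ℂ (NL D) z := by
  have hk := kL_ge h
  have h1 : DifferentiableAt ℂ (GF (D.p :: D.l)) (sL D z) :=
    GF_diff _ h.real _ (by rw [sL_im]; exact mul_pos (by linarith) hz)
  have h2 : DifferentiableAt ℂ (fun z => GF (D.p :: D.l) (sL D z)) z :=
    DifferentiableAt.comp (g := GF (D.p :: D.l)) (f := sL D) z h1 (sL_deriv D z).differentiableAt
  have h3 : DifferentiableAt ℂ (fun z => cexp (sL D z * D.L)) z :=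
    ((sL_deriv D z).mul_const (D.L : ℂ)).cexp.differentiableAt
  exact h3.mul h2

include h in
theorem NL_log : ∃ K T0 : ℝ, 0 ≤ K ∧ 1 ≤ T0 ∧ ∀ z : ℂ, T0 ≤ z.im → |z.re| ≤ z.im / 2 →
    NL D z ≠ 0 ∧ ‖logDeriv (NL D) z - ((kL D * ((dg (D.p :: D.l) : ℝ) / 2 * Real.log z.im) : ℝ) : ℂ)‖
      ≤ K := by
  obtain ⟨K, T0, hK, hT0, hlog⟩ := (GF_isGam D.p D.l).logd
  have hk := kL_ge h
  have hk0 : 0 < kL D := by linarith
  set d : ℝ := (dg (D.p :: D.l) : ℝ) with hd
  have hd0 : 0 ≤ d := Nat.cast_nonneg _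
  have hlk : 0 ≤ Real.log (kL D) := Real.log_nonneg (by linarith)
  refine ⟨kL D * |D.L| + kL D * K + kL D * (d / 2 * Real.log (kL D)), T0, by positivity, hT0,
    fun z hz hz2 => ?_⟩
  have hz0 : 0 < z.im := by linarith
  have him : T0 ≤ (sL D z).im := by
    rw [sL_im]
    nlinarith
  have hre : |(sL D z).re| ≤ 3 / 4 * (sL D z).im := by
    rw [sL_im, sL_re]
    refine (abs_add_le _ _).trans ?_
    rw [abs_of_pos (by norm_num : (0 : ℝ) < 1 / 2), abs_mul, abs_of_pos hk0]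
    have h1 := mul_le_mul_of_nonneg_left hz2 hk0.le
    nlinarith
  obtain ⟨h1, h2, h3⟩ := hlog _ him hre
  have n1 : cexp (sL D z * D.L) ≠ 0 := Complex.exp_ne_zero _
  refine ⟨mul_ne_zero n1 h1, ?_⟩
  have d1 : HasDerivAt (fun z => cexp (sL D z * D.L)) (cexp (sL D z * D.L) *
      (((kL D : ℝ) : ℂ) * (D.L : ℂ))) z := ((sL_deriv D z).mul_const (D.L : ℂ)).cexp
  have d2 : DifferentiableAt ℂ (fun z => GF (D.p :: D.l) (sL D z)) z :=
    DifferentiableAt.comp (g := GF (D.p :: D.l)) (f := sL D) z h2 (sL_deriv D z).differentiableAt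
  have e1 : logDeriv (NL D) z = logDeriv (fun z => cexp (sL D z * D.L)) z +
      logDeriv (fun z => GF (D.p :: D.l) (sL D z)) z :=
    logDeriv_mul z n1 h1 d1.differentiableAt d2
  have e2 : logDeriv (fun z => GF (D.p :: D.l) (sL D z)) z =
      logDeriv (GF (D.p :: D.l)) (sL D z) * deriv (sL D) z :=
    logDeriv_comp (f := GF (D.p :: D.l)) (g := sL D) h2 (sL_deriv D z).differentiableAt
  have e3 : logDeriv (fun z => cexp (sL D z * D.L)) z = ((kL D : ℝ) : ℂ) * (D.L : ℂ) := by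
    rw [logDeriv_apply, d1.deriv]
    field_simp
  rw [e1, e2, e3, (sL_deriv D z).deriv]
  rw [sL_im, Real.log_mul hk0.ne' hz0.ne'] at h3
  have e4 : ((kL D : ℝ) : ℂ) * (D.L : ℂ) + logDeriv (GF (D.p :: D.l)) (sL D z) *
      ((kL D : ℝ) : ℂ) - ((kL D * (d / 2 * Real.log z.im) : ℝ) : ℂ) =
      ((kL D * D.L : ℝ) : ℂ) + ((kL D : ℝ) : ℂ) * (logDeriv (GF (D.p :: D.l)) (sL D z) -
        ((d / 2 * (Real.log (kL D) + Real.log z.im) : ℝ) : ℂ)) +
        ((kL D * (d / 2 * Real.log (kL D)) : ℝ) : ℂ) := by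
    push_cast
    ring
  rw [e4]
  refine (norm_add_le _ _).trans (add_le_add ((norm_add_le _ _).trans (add_le_add ?_ ?_)) ?_)
  · rw [Complex.norm_real, Real.norm_eq_abs, abs_mul, abs_of_pos hk0]
  · rw [norm_mul, Complex.norm_real, Real.norm_eq_abs, abs_of_pos hk0]
    exact mul_le_mul_of_nonneg_left h3 hk0.le
  · rw [Complex.norm_real, Real.norm_of_nonneg (by positivity)]

theorem dg_pos (p : Pc) (l : List Pc) : 1 ≤ dg (p :: l) := by
  unfold dg
  rw [List.map_cons, List.sum_cons]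
  have : 1 ≤ p.deg := by cases p <;> simp [Pc.deg]
  omega

open Classical in
include h in
theorem HH_facts : (∀ z : ℂ, 0 < z.im → DifferentiableAt ℂ (datL D).HH z) ∧
    ∃ K T0 : ℝ, 1 ≤ K ∧ 1 ≤ T0 ∧ ∀ z : ℂ, T0 ≤ z.im → |z.re| ≤ z.im / 2 → (datL D).HH z ≠ 0 ∧
    ‖logDeriv (datL D).HH z - (((datL D).κ * ((datL D).c * Real.log z.im) : ℝ) : ℂ)‖ ≤ K := by
  obtain ⟨K, T0, hK, hT0, hN⟩ := NL_log h
  have hκ : ∀ z : ℂ, (datL D).κ * ((datL D).c * Real.log z.im) =
      kL D * ((dg (D.p :: D.l) : ℝ) / 2 * Real.log z.im) := fun z => rfl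
  by_cases hε : D.ε = 1
  · have hHH : (datL D).HH = NL D := by
      funext z
      simp [datL, hε, NL]
    refine ⟨fun z hz => by rw [hHH]; exact NL_diff h z hz, K + 1, T0, by linarith,
      hT0, ?_⟩
    intro z h1 h2
    obtain ⟨h3, h4⟩ := hN z h1 h2
    rw [hHH, hκ]
    exact ⟨h3, h4.trans (by linarith)⟩
  · have hHH : (datL D).HH = fun z => NL D z / z := by
      funext z
      simp [datL, hε, NL]
    have hz0 : ∀ z : ℂ, 0 < z.im → z ≠ 0 := by
      intro z hz h0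
      rw [h0] at hz
      simp at hz
    refine ⟨fun z hz => by
      rw [hHH]
      exact (NL_diff h z hz).div differentiableAt_fun_id (hz0 z hz), K + 1, T0,
      by linarith, hT0, ?_⟩
    intro z h1 h2
    have hz : 0 < z.im := by linarith
    obtain ⟨h3, h4⟩ := hN z h1 h2
    rw [hHH, hκ]
    refine ⟨div_ne_zero h3 (hz0 z hz), ?_⟩
    have e1 : logDeriv (fun z => NL D z / z) z = logDeriv (NL D) z - 1 / z := by
      have := logDeriv_div (f := NL D) (g := fun z => z) z h3 (hz0 z hz)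
        (NL_diff h z hz) differentiableAt_fun_id
      rw [this]
      congr 1
      simp [logDeriv_apply]
    rw [e1]
    have e2 : logDeriv (NL D) z - 1 / z -
        ((kL D * ((dg (D.p :: D.l) : ℝ) / 2 * Real.log z.im) : ℝ) : ℂ) =
        (logDeriv (NL D) z - ((kL D * ((dg (D.p :: D.l) : ℝ) / 2 * Real.log z.im) : ℝ) : ℂ)) -
        1 / z := by ring
    rw [e2]
    refine (norm_sub_le _ _).trans (add_le_add h4 ?_)
    rw [norm_div, norm_one]
    have e3 : 1 ≤ ‖z‖ := by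
      have := Complex.abs_im_le_norm z
      rw [abs_of_pos hz] at this
      linarith
    rw [div_le_one (by linarith)]
    exact e3

include h in
theorem isL_datL : IsL (datL D) := by
  have hB := h.coef.B_one
  have hk := kL_ge h
  obtain ⟨a1, a2, a3, a4⟩ := aL_facts h
  obtain ⟨c1, c2, c3, c4⟩ := P1_ker h
  exact {
    κ_pos := by
      change 0 < kL D
      linarith
    c_pos := by
      change (0 : ℝ) < (dg (D.p :: D.l) : ℝ) / 2
      have : (1 : ℝ) ≤ (dg (D.p :: D.l) : ℝ) := by exact_mod_cast dg_pos D.p D.l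
      linarith
    A_nonneg := by
      change 0 ≤ aL D
      linarith
    A0_one := hB
    w_large := by
      change 20 * (kL D + aL D + 1) ≤ 20 * (kL D + aL D + 1) + 24 + 2 * D.B
      linarith
    w_large2 := by
      change 4000 * D.B ≤ (2 : ℝ) ^ ((20 * (kL D + aL D + 1) + 24 + 2 * D.B) / 2)
      have e1 : (2 : ℝ) ^ (12 + D.B) ≤
          (2 : ℝ) ^ ((20 * (kL D + aL D + 1) + 24 + 2 * D.B) / 2) := by
        apply Real.rpow_le_rpow_of_exponent_le (by norm_num)
        linarith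
      have e2 : (2 : ℝ) ^ (12 + D.B) = 4096 * (2 : ℝ) ^ D.B := by
        rw [Real.rpow_add (by norm_num)]
        norm_num
      have e3 : D.B ≤ (2 : ℝ) ^ D.B := by
        have := one_add_mul_self_le_rpow_one_add (s := 1) (by norm_num) hB
        have e4 : (1 : ℝ) + 1 = 2 := by norm_num
        rw [e4] at this
        linarith
      rw [e2] at e1
      linarith
    Φ_cont := c1
    Φ_even := fun t => by
      have := c2 t
      rw [one_mul] at this
      exact this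
    Φ_pos := c3
    Φ_dec := c4
    XX_eq := fun z => rfl
    XX_zero := XX_zero h
    HH_diff := (HH_facts h).1
    HH_log := (HH_facts h).2
    a_one := by
      change ((D.b 1 * (((1 : ℕ) : ℝ)) ^ (-(1 / 2) : ℝ) : ℝ) : ℂ) = 1
      rw [h.coef.one, Nat.cast_one, Real.one_rpow]
      simp
    a_le := by
      intro m hm
      change ‖((D.b m * (m : ℝ) ^ (-(1 / 2) : ℝ) : ℝ) : ℂ)‖ ≤ D.B * (m : ℝ) ^ aL D
      have hm' : (1 : ℝ) ≤ (m : ℝ) := by exact_mod_cast hm
      rw [Complex.norm_real, Real.norm_eq_abs, abs_mul,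
        abs_of_nonneg (Real.rpow_nonneg (by linarith : (0 : ℝ) ≤ m) _)]
      have e1 : (m : ℝ) ^ (-(1 / 2) : ℝ) ≤ 1 := by
        apply Real.rpow_le_one_of_one_le_of_nonpos hm'
        norm_num
      calc |D.b m| * (m : ℝ) ^ (-(1 / 2) : ℝ) ≤ |D.b m| * 1 :=
            mul_le_mul_of_nonneg_left e1 (abs_nonneg _)
        _ = |D.b m| := mul_one _
        _ ≤ D.B * (m : ℝ) ^ D.β := h.coef.le m hm
        _ ≤ D.B * (m : ℝ) ^ aL D := by
            refine mul_le_mul_of_nonneg_left ?_ (by linarith)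
            exact Real.rpow_le_rpow_of_exponent_le hm' a2
    XX_dir := fun z h1 h2 => XX_part2 h z h1 h2 }

end

end Pool.Agent.W355.LJ
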