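import Pool.Agent.H471R3.GJ.HMel
import Pool.Agent.H471R3.GJ.HOdd

set_option autoImplicit false

/-!
# Kernels of products of Gamma factors
-/

namespace Pool.Agent.W355.LJ

open Complex Filter Topology MeasureTheory Set

/-- A kernel: continuous, positive, integrable, bounded, with doubly exponential decay on the right,
and such that translates to the right are dominated. -/
structure IsKer (g : ℝ → ℝ) : Prop where
  cont : Continuous g
  pos : ∀ t, 0 < g t
  int : Integrable g
  bdd : ∃ C : ℝ, ∀ t, g t ≤ C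
  dec : ∃ C c1 c2 : ℝ, 0 < c1 ∧ 0 < c2 ∧ ∀ t, 0 ≤ t → g t ≤ C * Real.exp (-c1 * Real.exp (c2 * t))
  reg : ∃ C D : ℝ, 0 < C ∧ 0 ≤ D ∧ ∀ t a, 0 ≤ a → g (t + a) ≤ C * Real.exp (D * a) * g t
  dom : ∀ a0 ε A : ℝ, 0 < a0 → 0 < ε → ∃ T0 : ℝ, ∀ t, T0 ≤ t → ∀ a, a0 ≤ a →
    g (t + a) ≤ ε * Real.exp (-A * a) * g t
  low : ∀ T : ℝ, ∃ c : ℝ, 0 < c ∧ ∀ t, t ≤ T → c * g t ≤ g (t + 1)

/-! ## The kernel of one Gamma factor -/

/-- `2 e^(at) exp (-π e^(2t))`, the kernel of `Γ_ℝ(s + a)`. -/
noncomputable def gb (a t : ℝ) : ℝ := 2 * Real.exp (a * t) * Real.exp (-Real.pi * Real.exp (2 * t))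

theorem gb_cont (a : ℝ) : Continuous (gb a) := by
  unfold gb
  fun_prop

theorem gb_pos (a t : ℝ) : 0 < gb a t := by
  unfold gb
  positivity

theorem gb_le (a : ℝ) (ha : 0 < a) : ∃ C : ℝ, 0 < C ∧ ∀ t, gb a t ≤ C * Real.exp (-a * |t|) := by
  obtain ⟨K, hK, h⟩ := Pool.Agent.H471R3.GJ.HOdd.exp_abs_bound Real.pi 2 (2 * a) Real.pi_pos two_pos
  refine ⟨2 * K + 2, by positivity, fun t => ?_⟩
  unfold gb
  rcases le_total 0 t with ht | ht
  · have h1 := h t
    rw [abs_of_nonneg ht] at h1 ⊢
    have h2 : Real.exp (-(Real.pi * 2 ^ 2 / 4) * t ^ 2) ≤ 1 := by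
      rw [Real.exp_le_one_iff]
      have := Real.pi_pos
      nlinarith [sq_nonneg t, mul_nonneg this.le (sq_nonneg t)]
    have h3 : Real.exp (2 * a * t) * Real.exp (-Real.pi * Real.exp (2 * t)) ≤ K := by
      refine h1.trans ?_
      calc K * Real.exp (-(Real.pi * 2 ^ 2 / 4) * t ^ 2) ≤ K * 1 :=
            mul_le_mul_of_nonneg_left h2 hK.le
        _ = K := mul_one K
    have e : 2 * Real.exp (a * t) * Real.exp (-Real.pi * Real.exp (2 * t)) =
        2 * (Real.exp (2 * a * t) * Real.exp (-Real.pi * Real.exp (2 * t))) *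
          Real.exp (-a * t) := by
      have e1 : Real.exp (a * t) = Real.exp (2 * a * t) * Real.exp (-a * t) := by
        rw [← Real.exp_add]
        congr 1
        ring
      rw [e1]
      ring
    rw [e]
    refine mul_le_mul_of_nonneg_right ?_ (Real.exp_pos _).le
    linarith
  · rw [abs_of_nonpos ht]
    have h2 : Real.exp (-Real.pi * Real.exp (2 * t)) ≤ 1 := by
      rw [Real.exp_le_one_iff]
      have := mul_pos Real.pi_pos (Real.exp_pos (2 * t))
      linarith
    have e : -a * -t = a * t := by ring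
    rw [e]
    calc 2 * Real.exp (a * t) * Real.exp (-Real.pi * Real.exp (2 * t)) ≤
        2 * Real.exp (a * t) * 1 := mul_le_mul_of_nonneg_left h2 (by positivity)
      _ = 2 * Real.exp (a * t) := mul_one _
      _ ≤ _ := mul_le_mul_of_nonneg_right (by linarith) (Real.exp_pos _).le

theorem int_exp_abs (a : ℝ) (ha : 0 < a) : Integrable (fun t : ℝ => Real.exp (-a * |t|)) := by
  have h1 : IntegrableOn (fun t : ℝ => Real.exp (-a * |t|)) (Set.Iic 0) := by
    refine (integrableOn_exp_mul_Iic ha 0).congr_fun (fun t ht => ?_) measurableSet_Iic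
    have ht' : t ≤ 0 := ht
    simp only
    rw [abs_of_nonpos ht']
    congr 1
    ring
  have h2 : IntegrableOn (fun t : ℝ => Real.exp (-a * |t|)) (Set.Ioi 0) := by
    refine (integrableOn_exp_mul_Ioi (neg_lt_zero.2 ha) 0).congr_fun (fun t ht => ?_)
      measurableSet_Ioi
    have ht' : 0 < t := ht
    simp only
    rw [abs_of_pos ht']
  rw [← integrableOn_univ, ← Set.Iic_union_Ioi (a := (0 : ℝ))]
  exact h1.union h2

theorem gb_ker (a : ℝ) (ha : 0 < a) : IsKer (gb a) := by
  obtain ⟨C, hC, hb⟩ := gb_le a ha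
  refine ⟨gb_cont a, gb_pos a, ?_, ⟨C, fun t => ?_⟩, ?_, ?_, ?_, ?_⟩
  · refine ((int_exp_abs a ha).const_mul C).mono' (gb_cont a).aestronglyMeasurable
      (Eventually.of_forall fun t => ?_)
    rw [Real.norm_of_nonneg (gb_pos a t).le]
    exact hb t
  · refine (hb t).trans ?_
    have : Real.exp (-a * |t|) ≤ 1 := by
      rw [Real.exp_le_one_iff]
      have := mul_nonneg ha.le (abs_nonneg t)
      linarith
    calc C * Real.exp (-a * |t|) ≤ C * 1 := mul_le_mul_of_nonneg_left this hC.le
      _ = C := mul_one C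
  · obtain ⟨K, hK, h⟩ := Pool.Agent.H471R3.GJ.HOdd.exp_abs_bound (Real.pi / 2) 2 a
      (by positivity) two_pos
    refine ⟨2 * K, Real.pi / 2, 2, by positivity, two_pos, fun t ht => ?_⟩
    have h1 := h t
    rw [abs_of_nonneg ht] at h1
    have h2 : Real.exp (-(Real.pi / 2 * 2 ^ 2 / 4) * t ^ 2) ≤ 1 := by
      rw [Real.exp_le_one_iff]
      have := Real.pi_pos
      nlinarith [sq_nonneg t, mul_nonneg this.le (sq_nonneg t)]
    have h3 : Real.exp (a * t) * Real.exp (-(Real.pi / 2) * Real.exp (2 * t)) ≤ K := by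
      refine h1.trans ?_
      calc K * Real.exp (-(Real.pi / 2 * 2 ^ 2 / 4) * t ^ 2) ≤ K * 1 :=
            mul_le_mul_of_nonneg_left h2 hK.le
        _ = K := mul_one K
    have e : gb a t = 2 * (Real.exp (a * t) * Real.exp (-(Real.pi / 2) * Real.exp (2 * t))) *
        Real.exp (-(Real.pi / 2) * Real.exp (2 * t)) := by
      unfold gb
      have e1 : Real.exp (-Real.pi * Real.exp (2 * t)) =
          Real.exp (-(Real.pi / 2) * Real.exp (2 * t)) *
          Real.exp (-(Real.pi / 2) * Real.exp (2 * t)) := by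
        rw [← Real.exp_add]
        congr 1
        ring
      rw [e1]
      ring
    rw [e]
    exact mul_le_mul_of_nonneg_right (by linarith) (Real.exp_pos _).le
  · refine ⟨1, a, one_pos, ha.le, fun t s hs => ?_⟩
    unfold gb
    have e1 : Real.exp (a * (t + s)) = Real.exp (a * s) * Real.exp (a * t) := by
      rw [← Real.exp_add]
      congr 1
      ring
    have e2 : Real.exp (-Real.pi * Real.exp (2 * (t + s))) ≤
        Real.exp (-Real.pi * Real.exp (2 * t)) := by
      refine Real.exp_le_exp.2 ?_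
      have h1 : Real.exp (2 * t) ≤ Real.exp (2 * (t + s)) := Real.exp_le_exp.2 (by linarith)
      have := mul_le_mul_of_nonneg_left h1 Real.pi_pos.le
      linarith
    rw [e1]
    calc 2 * (Real.exp (a * s) * Real.exp (a * t)) * Real.exp (-Real.pi * Real.exp (2 * (t + s)))
        ≤ 2 * (Real.exp (a * s) * Real.exp (a * t)) * Real.exp (-Real.pi * Real.exp (2 * t)) :=
          mul_le_mul_of_nonneg_left e2 (by positivity)
      _ = _ := by ring
  · intro a0 ε A ha0 hε
    -- `2 π e^(2 t) ≥ A + a + (-log ε)/a0` for large `t`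
    obtain ⟨T0, hT0⟩ : ∃ T0 : ℝ, ∀ t, T0 ≤ t →
        |A| + a + |Real.log ε| / a0 ≤ 2 * Real.pi * Real.exp (2 * t) := by
      refine ⟨|A| + a + |Real.log ε| / a0, fun t ht => ?_⟩
      have h0 : 0 ≤ |A| + a + |Real.log ε| / a0 := by positivity
      have h1 := Real.add_one_le_exp (2 * t)
      have h2 := Real.pi_gt_three
      have h3 : 0 < Real.exp (2 * t) := Real.exp_pos _
      nlinarith
    refine ⟨T0, fun t ht s hs => ?_⟩
    have hs0 : 0 < s := ha0.trans_le hs
    have h1 := hT0 t ht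
    unfold gb
    have e1 : Real.exp (a * (t + s)) = Real.exp (a * s) * Real.exp (a * t) := by
      rw [← Real.exp_add]
      congr 1
      ring
    have e2 : Real.exp (a * s) * Real.exp (-Real.pi * Real.exp (2 * (t + s))) ≤
        ε * Real.exp (-A * s) * Real.exp (-Real.pi * Real.exp (2 * t)) := by
      conv_rhs => rw [← Real.exp_log hε]
      rw [← Real.exp_add, ← Real.exp_add, ← Real.exp_add]
      refine Real.exp_le_exp.2 ?_
      have h2 : Real.exp (2 * (t + s)) = Real.exp (2 * t) * Real.exp (2 * s) := by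
        rw [← Real.exp_add]
        congr 1
        ring
      have h3 := Real.add_one_le_exp (2 * s)
      have h4 : Real.exp (2 * t) * (2 * s + 1) ≤ Real.exp (2 * t) * Real.exp (2 * s) :=
        mul_le_mul_of_nonneg_left h3 (Real.exp_pos _).le
      have h5 : Real.pi * (Real.exp (2 * t) * (2 * s + 1)) ≤
          Real.pi * Real.exp (2 * (t + s)) := by
        rw [h2]
        exact mul_le_mul_of_nonneg_left h4 Real.pi_pos.le
      have h6 := mul_le_mul_of_nonneg_right h1 hs0.le
      have h7 : |Real.log ε| / a0 * a0 ≤ |Real.log ε| / a0 * s :=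
        mul_le_mul_of_nonneg_left hs (by positivity)
      rw [div_mul_cancel₀ _ ha0.ne'] at h7
      have h8 := neg_abs_le (Real.log ε)
      have h9 : A * s ≤ |A| * s := mul_le_mul_of_nonneg_right (le_abs_self A) hs0.le
      nlinarith
    rw [e1]
    calc 2 * (Real.exp (a * s) * Real.exp (a * t)) * Real.exp (-Real.pi * Real.exp (2 * (t + s)))
        = 2 * Real.exp (a * t) * (Real.exp (a * s) * Real.exp (-Real.pi * Real.exp (2 * (t + s)))) := by
          ring
      _ ≤ 2 * Real.exp (a * t) *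
          (ε * Real.exp (-A * s) * Real.exp (-Real.pi * Real.exp (2 * t))) :=
          mul_le_mul_of_nonneg_left e2 (by positivity)
      _ = _ := by ring
  · intro T
    refine ⟨Real.exp (-Real.pi * Real.exp (2 * (T + 1))), Real.exp_pos _, fun t ht => ?_⟩
    unfold gb
    have h1 : Real.exp (-Real.pi * Real.exp (2 * (T + 1))) ≤
        Real.exp (-Real.pi * Real.exp (2 * (t + 1))) := by
      refine Real.exp_le_exp.2 ?_
      have h1 : Real.exp (2 * (t + 1)) ≤ Real.exp (2 * (T + 1)) := Real.exp_le_exp.2 (by linarith)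
      have := mul_le_mul_of_nonneg_left h1 Real.pi_pos.le
      linarith
    have h2 : Real.exp (a * t) ≤ Real.exp (a * (t + 1)) := Real.exp_le_exp.2 (by linarith)
    have h3 : Real.exp (-Real.pi * Real.exp (2 * t)) ≤ 1 := by
      rw [Real.exp_le_one_iff]
      have := mul_pos Real.pi_pos (Real.exp_pos (2 * t))
      linarith
    calc Real.exp (-Real.pi * Real.exp (2 * (T + 1))) *
        (2 * Real.exp (a * t) * Real.exp (-Real.pi * Real.exp (2 * t))) ≤
        Real.exp (-Real.pi * Real.exp (2 * (t + 1))) * (2 * Real.exp (a * (t + 1)) * 1) := by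
          gcongr
      _ = _ := by ring

/-! ## Convolution -/

/-- The convolution. -/
noncomputable def cv (g h : ℝ → ℝ) (t : ℝ) : ℝ := ∫ u : ℝ, g u * h (t - u)

theorem IsKer.bd {g : ℝ → ℝ} (hg : IsKer g) : ∃ C : ℝ, 0 < C ∧ ∀ t, g t ≤ C := by
  obtain ⟨C, hC⟩ := hg.bdd
  exact ⟨C, (hg.pos 0).trans_le (hC 0), hC⟩

theorem cv_int {g h : ℝ → ℝ} (hg : IsKer g) (hh : IsKer h) (t : ℝ) :
    Integrable (fun u : ℝ => g u * h (t - u)) := by
  obtain ⟨C, hC, hb⟩ := hh.bd
  refine (hg.int.mul_const C).mono' ?_ (Eventually.of_forall fun u => ?_)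
  · exact (hg.cont.mul (hh.cont.comp (continuous_const.sub continuous_id))).aestronglyMeasurable
  · rw [Real.norm_of_nonneg (mul_nonneg (hg.pos u).le (hh.pos _).le)]
    exact mul_le_mul_of_nonneg_left (hb _) (hg.pos u).le

theorem cv_pos {g h : ℝ → ℝ} (hg : IsKer g) (hh : IsKer h) (t : ℝ) : 0 < cv g h t := by
  unfold cv
  have hp : ∀ u, 0 < g u * h (t - u) := fun u => mul_pos (hg.pos u) (hh.pos _)
  rw [integral_pos_iff_support_of_nonneg (fun u => (hp u).le) (cv_int hg hh t)]
  have : Function.support (fun u : ℝ => g u * h (t - u)) = Set.univ := by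
    ext u
    rw [Function.mem_support]
    exact ⟨fun _ => Set.mem_univ u, fun _ => (hp u).ne'⟩
  rw [this]
  simp

theorem cv_cont {g h : ℝ → ℝ} (hg : IsKer g) (hh : IsKer h) : Continuous (cv g h) := by
  obtain ⟨C, hC, hb⟩ := hh.bd
  unfold cv
  refine continuous_of_dominated (bound := fun u => g u * C) (fun t => (cv_int hg hh t).1)
    (fun t => Eventually.of_forall fun u => ?_) (hg.int.mul_const C)
    (Eventually.of_forall fun u => ?_)
  · rw [Real.norm_of_nonneg (mul_nonneg (hg.pos u).le (hh.pos _).le)]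
    exact mul_le_mul_of_nonneg_left (hb _) (hg.pos u).le
  · exact continuous_const.mul (hh.cont.comp (continuous_id.sub continuous_const))

theorem cv_eq (g h : ℝ → ℝ) : cv g h = convolution g h (ContinuousLinearMap.mul ℝ ℝ) volume := by
  funext t
  rfl

theorem cv_ker {g h : ℝ → ℝ} (hg : IsKer g) (hh : IsKer h) : IsKer (cv g h) := by
  obtain ⟨Cg, hCg, hbg⟩ := hg.bd
  obtain ⟨Ch, hCh, hbh⟩ := hh.bd
  have hIg : 0 ≤ ∫ u, g u := integral_nonneg fun u => (hg.pos u).le
  have hIh : 0 ≤ ∫ u, h u := integral_nonneg fun u => (hh.pos u).le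
  refine ⟨cv_cont hg hh, cv_pos hg hh, ?_, ⟨(∫ u, g u) * Ch, fun t => ?_⟩, ?_, ?_, ?_, ?_⟩
  · rw [cv_eq]
    exact hg.int.integrable_convolution _ hh.int
  · unfold cv
    rw [← integral_mul_const]
    exact integral_mono (cv_int hg hh t) (hg.int.mul_const Ch) fun u =>
      mul_le_mul_of_nonneg_left (hbh _) (hg.pos u).le
  · -- decay
    obtain ⟨K1, c1, c2, h1, h2, h3⟩ := hg.dec
    obtain ⟨K2, d1, d2, h4, h5, h6⟩ := hh.dec
    have hK1 : 0 < K1 := by
      have := (hg.pos 0).trans_le (h3 0 le_rfl)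
      by_contra hcon
      push Not at hcon
      have := mul_nonpos_of_nonpos_of_nonneg hcon (Real.exp_pos (-c1 * Real.exp (c2 * 0))).le
      linarith
    have hK2 : 0 < K2 := by
      have := (hh.pos 0).trans_le (h6 0 le_rfl)
      by_contra hcon
      push Not at hcon
      have := mul_nonpos_of_nonpos_of_nonneg hcon (Real.exp_pos (-d1 * Real.exp (d2 * 0))).le
      linarith
    refine ⟨K1 * (∫ u, h u) + K2 * ∫ u, g u, min c1 d1, min c2 d2 / 2, lt_min h1 h4,
      half_pos (lt_min h2 h5), fun t ht => ?_⟩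
    set E : ℝ := Real.exp (-min c1 d1 * Real.exp (min c2 d2 / 2 * t)) with hE
    have hE0 : 0 < E := Real.exp_pos _
    have hkey : ∀ (e1 e2 v : ℝ), min c1 d1 ≤ e1 → min c2 d2 ≤ e2 → t / 2 ≤ v →
        Real.exp (-e1 * Real.exp (e2 * v)) ≤ E := by
      intro e1 e2 v he1 he2 hv
      rw [hE]
      refine Real.exp_le_exp.2 ?_
      have hm2 : 0 < min c2 d2 := lt_min h2 h5
      have hm1 : 0 < min c1 d1 := lt_min h1 h4
      have hv0 : 0 ≤ v := by linarith
      have h7 : Real.exp (min c2 d2 / 2 * t) ≤ Real.exp (e2 * v) := by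
        refine Real.exp_le_exp.2 ?_
        calc min c2 d2 / 2 * t = min c2 d2 * (t / 2) := by ring
          _ ≤ min c2 d2 * v := mul_le_mul_of_nonneg_left hv hm2.le
          _ ≤ e2 * v := mul_le_mul_of_nonneg_right he2 hv0
      have h8 : min c1 d1 * Real.exp (min c2 d2 / 2 * t) ≤ e1 * Real.exp (e2 * v) :=
        mul_le_mul he1 h7 (Real.exp_pos _).le (hm1.le.trans he1)
      linarith
    have hpt : ∀ u, g u * h (t - u) ≤ K1 * E * h (t - u) + g u * (K2 * E) := by
      intro u
      rcases le_total (t / 2) u with hu | hu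
      · have h7 : g u ≤ K1 * E := by
          refine (h3 u (by linarith)).trans ?_
          exact mul_le_mul_of_nonneg_left (hkey c1 c2 u (min_le_left _ _) (min_le_left _ _) hu) hK1.le
        have h8 := mul_le_mul_of_nonneg_right h7 (hh.pos (t - u)).le
        have h9 : 0 ≤ g u * (K2 * E) := mul_nonneg (hg.pos u).le (by positivity)
        linarith
      · have h7 : h (t - u) ≤ K2 * E := by
          refine (h6 (t - u) (by linarith)).trans ?_
          exact mul_le_mul_of_nonneg_left
            (hkey d1 d2 (t - u) (min_le_right _ _) (min_le_right _ _) (by linarith)) hK2.le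
        have h8 := mul_le_mul_of_nonneg_left h7 (hg.pos u).le
        have h9 : 0 ≤ K1 * E * h (t - u) := mul_nonneg (by positivity) (hh.pos _).le
        linarith
    have hi1 : Integrable (fun u => K1 * E * h (t - u)) :=
      (hh.int.comp_sub_left t).const_mul _
    have hi2 : Integrable (fun u => g u * (K2 * E)) := hg.int.mul_const _
    have h7 := integral_mono (cv_int hg hh t) (hi1.add hi2) hpt
    have h8 : ∫ u, (K1 * E * h (t - u) + g u * (K2 * E)) =
        K1 * E * (∫ u, h u) + (∫ u, g u) * (K2 * E) := by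
      rw [integral_add hi1 hi2, integral_const_mul, integral_mul_const,
        integral_sub_left_eq_self h volume t]
    have h9 : cv g h t ≤ K1 * E * (∫ u, h u) + (∫ u, g u) * (K2 * E) := by
      rw [← h8]
      exact h7
    refine h9.trans (le_of_eq ?_)
    ring
  · -- regularity
    obtain ⟨C, D, hC, hD, h1⟩ := hh.reg
    refine ⟨C, D, hC, hD, fun t a ha => ?_⟩
    unfold cv
    rw [← integral_const_mul]
    refine integral_mono (cv_int hg hh (t + a)) ((cv_int hg hh t).const_mul _) fun u => ?_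
    have h2 := h1 (t - u) a ha
    have e : t + a - u = t - u + a := by ring
    simp only
    rw [e]
    calc g u * h (t - u + a) ≤ g u * (C * Real.exp (D * a) * h (t - u)) :=
          mul_le_mul_of_nonneg_left h2 (hg.pos u).le
      _ = _ := by ring
  · -- domination
    intro a0 ε A ha0 hε
    obtain ⟨C1, D1, hC1, hD1, r1⟩ := hg.reg
    obtain ⟨C2, D2, hC2, hD2, r2⟩ := hh.reg
    obtain ⟨T1, hT1⟩ := hg.dom (a0 / 2) (ε / C2) (2 * A + D2) (by positivity) (by positivity)
    obtain ⟨T2, hT2⟩ := hh.dom (a0 / 2) (ε / C1) (2 * A + D1) (by positivity) (by positivity)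
    refine ⟨T1 + T2, fun t ht a ha => ?_⟩
    have ha' : 0 < a := ha0.trans_le ha
    have e0 : cv g h (t + a) = ∫ u, g (u + a / 2) * h (t + a - (u + a / 2)) := by
      unfold cv
      exact (integral_add_right_eq_self (fun u => g u * h (t + a - u)) (a / 2)).symm
    rw [e0]
    unfold cv
    rw [← integral_const_mul]
    refine integral_mono ((cv_int hg hh (t + a)).comp_add_right (a / 2))
      ((cv_int hg hh t).const_mul _) fun u => ?_
    simp only
    have e1 : t + a - (u + a / 2) = t - u + a / 2 := by ring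
    rw [e1]
    rcases le_total T1 u with hu | hu
    · have h1 := hT1 u hu (a / 2) (by linarith)
      have h2 := r2 (t - u) (a / 2) (by linarith)
      calc g (u + a / 2) * h (t - u + a / 2) ≤
          (ε / C2 * Real.exp (-(2 * A + D2) * (a / 2)) * g u) *
            (C2 * Real.exp (D2 * (a / 2)) * h (t - u)) :=
            mul_le_mul h1 h2 (hh.pos _).le (by have := hg.pos u; positivity)
        _ = (ε / C2 * C2) * (Real.exp (-(2 * A + D2) * (a / 2)) * Real.exp (D2 * (a / 2))) *
            (g u * h (t - u)) := by ring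
        _ = ε * Real.exp (-A * a) * (g u * h (t - u)) := by
            rw [div_mul_cancel₀ _ hC2.ne', ← Real.exp_add]
            congr 3
            ring
    · have h1 := r1 u (a / 2) (by linarith)
      have h2 := hT2 (t - u) (by linarith) (a / 2) (by linarith)
      calc g (u + a / 2) * h (t - u + a / 2) ≤
          (C1 * Real.exp (D1 * (a / 2)) * g u) *
            (ε / C1 * Real.exp (-(2 * A + D1) * (a / 2)) * h (t - u)) :=
            mul_le_mul h1 h2 (hh.pos _).le (by have := hg.pos u; positivity)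
        _ = (ε / C1 * C1) * (Real.exp (D1 * (a / 2)) * Real.exp (-(2 * A + D1) * (a / 2))) *
            (g u * h (t - u)) := by ring
        _ = ε * Real.exp (-A * a) * (g u * h (t - u)) := by
            rw [div_mul_cancel₀ _ hC1.ne', ← Real.exp_add]
            congr 3
            ring
  · intro T
    obtain ⟨c1, hc1, h1⟩ := hg.low T
    obtain ⟨c2, hc2, h2⟩ := hh.low 0
    refine ⟨(1 / c1 + 1 / c2)⁻¹, by positivity, fun t ht => ?_⟩
    have hS : 0 < 1 / c1 + 1 / c2 := by positivity
    rw [inv_mul_le_iff₀ hS]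
    have hi1 := cv_int hg hh (t + 1)
    have hi2 := hi1.comp_add_right 1
    have h3 := integral_mono (cv_int hg hh t) ((hi2.const_mul (1 / c1)).add (hi1.const_mul (1 / c2)))
      (fun u => ?_)
    · have h4 : ∫ u, (1 / c1 * (g (u + 1) * h (t + 1 - (u + 1))) + 1 / c2 * (g u * h (t + 1 - u))) =
          (1 / c1 + 1 / c2) * cv g h (t + 1) := by
        rw [integral_add (hi2.const_mul (1 / c1)) (hi1.const_mul (1 / c2)), integral_const_mul,
          integral_const_mul, integral_add_right_eq_self (fun u => g u * h (t + 1 - u)) 1]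
        unfold cv
        ring
      rw [← h4]
      exact h3
    · simp only [Pi.add_apply]
      have hg0 := (hg.pos u).le
      have hh0 := (hh.pos (t - u)).le
      have e1 : t + 1 - (u + 1) = t - u := by ring
      have e2 : t + 1 - u = t - u + 1 := by ring
      rw [e1, e2]
      rcases le_total u T with hu | hu
      · have h5 := h1 u hu
        have h6 : g u ≤ 1 / c1 * g (u + 1) := by
          rw [one_div, ← div_eq_inv_mul, le_div_iff₀ hc1]
          linarith
        have h7 := mul_le_mul_of_nonneg_right h6 hh0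
        have h8 : 0 ≤ 1 / c2 * (g u * h (t - u + 1)) := by
          have := (hh.pos (t - u + 1)).le
          positivity
        linarith
      · have h5 := h2 (t - u) (by linarith)
        have h6 : h (t - u) ≤ 1 / c2 * h (t - u + 1) := by
          rw [one_div, ← div_eq_inv_mul, le_div_iff₀ hc2]
          linarith
        have h7 := mul_le_mul_of_nonneg_left h6 hg0
        have h8 : 0 ≤ 1 / c1 * (g (u + 1) * h (t - u)) := by
          have := (hg.pos (u + 1)).le
          positivity
        linarith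

/-! ## Sums -/

theorem IsKer.decp {g : ℝ → ℝ} (hg : IsKer g) : ∃ C c1 c2 : ℝ, 0 < C ∧ 0 < c1 ∧ 0 < c2 ∧
    ∀ t, 0 ≤ t → g t ≤ C * Real.exp (-c1 * Real.exp (c2 * t)) := by
  obtain ⟨C, c1, c2, h1, h2, h3⟩ := hg.dec
  refine ⟨C, c1, c2, ?_, h1, h2, h3⟩
  have h4 := (hg.pos 0).trans_le (h3 0 le_rfl)
  by_contra hcon
  push Not at hcon
  have := mul_nonpos_of_nonpos_of_nonneg hcon (Real.exp_pos (-c1 * Real.exp (c2 * 0))).le
  linarith

theorem smul_ker {g : ℝ → ℝ} (hg : IsKer g) (c : ℝ) (hc : 0 < c) : IsKer (fun t => c * g t) := by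
  obtain ⟨C, hC⟩ := hg.bdd
  refine ⟨hg.cont.const_mul c, fun t => mul_pos hc (hg.pos t), hg.int.const_mul c,
    ⟨c * C, fun t => mul_le_mul_of_nonneg_left (hC t) hc.le⟩, ?_, ?_, ?_, ?_⟩
  · obtain ⟨C, c1, c2, h1, h2, h3⟩ := hg.dec
    refine ⟨c * C, c1, c2, h1, h2, fun t ht => ?_⟩
    have := mul_le_mul_of_nonneg_left (h3 t ht) hc.le
    linarith
  · obtain ⟨C, D, hC, hD, h⟩ := hg.reg
    refine ⟨C, D, hC, hD, fun t a ha => ?_⟩
    have := mul_le_mul_of_nonneg_left (h t a ha) hc.le
    linarith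
  · intro a0 ε A ha0 hε
    obtain ⟨T0, h⟩ := hg.dom a0 ε A ha0 hε
    refine ⟨T0, fun t ht a ha => ?_⟩
    have := mul_le_mul_of_nonneg_left (h t ht a ha) hc.le
    linarith
  · intro T
    obtain ⟨c', hc', h⟩ := hg.low T
    refine ⟨c', hc', fun t ht => ?_⟩
    have := mul_le_mul_of_nonneg_left (h t ht) hc.le
    linarith

theorem add_ker {g h : ℝ → ℝ} (hg : IsKer g) (hh : IsKer h) : IsKer (fun t => g t + h t) := by
  obtain ⟨Cg, hCg⟩ := hg.bdd
  obtain ⟨Ch, hCh⟩ := hh.bdd
  refine ⟨hg.cont.add hh.cont, fun t => add_pos (hg.pos t) (hh.pos t), hg.int.add hh.int,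
    ⟨Cg + Ch, fun t => add_le_add (hCg t) (hCh t)⟩, ?_, ?_, ?_, ?_⟩
  · obtain ⟨K1, c1, c2, h0, h1, h2, h3⟩ := hg.decp
    obtain ⟨K2, d1, d2, g0, g1, g2, g3⟩ := hh.decp
    refine ⟨K1 + K2, min c1 d1, min c2 d2, lt_min h1 g1, lt_min h2 g2, fun t ht => ?_⟩
    have hkey : ∀ e1 e2 : ℝ, min c1 d1 ≤ e1 → min c2 d2 ≤ e2 →
        Real.exp (-e1 * Real.exp (e2 * t)) ≤ Real.exp (-min c1 d1 * Real.exp (min c2 d2 * t)) := by
      intro e1 e2 he1 he2
      refine Real.exp_le_exp.2 ?_
      have h7 : Real.exp (min c2 d2 * t) ≤ Real.exp (e2 * t) :=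
        Real.exp_le_exp.2 (mul_le_mul_of_nonneg_right he2 ht)
      have h8 : min c1 d1 * Real.exp (min c2 d2 * t) ≤ e1 * Real.exp (e2 * t) :=
        mul_le_mul he1 h7 (Real.exp_pos _).le ((lt_min h1 g1).le.trans he1)
      linarith
    have h4 := h3 t ht
    have h5 := g3 t ht
    have h6 := mul_le_mul_of_nonneg_left (hkey c1 c2 (min_le_left _ _) (min_le_left _ _)) h0.le
    have h7 := mul_le_mul_of_nonneg_left (hkey d1 d2 (min_le_right _ _) (min_le_right _ _)) g0.le
    linarith
  · obtain ⟨C1, D1, hC1, hD1, h1⟩ := hg.reg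
    obtain ⟨C2, D2, hC2, hD2, h2⟩ := hh.reg
    refine ⟨C1 + C2, D1 + D2, by positivity, by positivity, fun t a ha => ?_⟩
    have e1 : Real.exp (D1 * a) ≤ Real.exp ((D1 + D2) * a) :=
      Real.exp_le_exp.2 (mul_le_mul_of_nonneg_right (by linarith) ha)
    have e2 : Real.exp (D2 * a) ≤ Real.exp ((D1 + D2) * a) :=
      Real.exp_le_exp.2 (mul_le_mul_of_nonneg_right (by linarith) ha)
    have hg0 := (hg.pos t).le
    have hh0 := (hh.pos t).le
    calc g (t + a) + h (t + a) ≤ C1 * Real.exp (D1 * a) * g t + C2 * Real.exp (D2 * a) * h t :=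
          add_le_add (h1 t a ha) (h2 t a ha)
      _ ≤ (C1 + C2) * Real.exp ((D1 + D2) * a) * g t +
          (C1 + C2) * Real.exp ((D1 + D2) * a) * h t := by
          have h3 : C1 * Real.exp (D1 * a) ≤ (C1 + C2) * Real.exp ((D1 + D2) * a) :=
            mul_le_mul (by linarith) e1 (Real.exp_pos _).le (by positivity)
          have h4 : C2 * Real.exp (D2 * a) ≤ (C1 + C2) * Real.exp ((D1 + D2) * a) :=
            mul_le_mul (by linarith) e2 (Real.exp_pos _).le (by positivity)
          exact add_le_add (mul_le_mul_of_nonneg_right h3 hg0) (mul_le_mul_of_nonneg_right h4 hh0)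
      _ = _ := by ring
  · intro a0 ε A ha0 hε
    obtain ⟨T1, h1⟩ := hg.dom a0 ε A ha0 hε
    obtain ⟨T2, h2⟩ := hh.dom a0 ε A ha0 hε
    refine ⟨max T1 T2, fun t ht a ha => ?_⟩
    have h3 := h1 t ((le_max_left _ _).trans ht) a ha
    have h4 := h2 t ((le_max_right _ _).trans ht) a ha
    calc g (t + a) + h (t + a) ≤ _ := add_le_add h3 h4
      _ = _ := by ring
  · intro T
    obtain ⟨c1, hc1, h1⟩ := hg.low T
    obtain ⟨c2, hc2, h2⟩ := hh.low T
    refine ⟨min c1 c2, lt_min hc1 hc2, fun t ht => ?_⟩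
    have h3 := h1 t ht
    have h4 := h2 t ht
    have h5 := mul_le_mul_of_nonneg_right (min_le_left c1 c2) (hg.pos t).le
    have h6 := mul_le_mul_of_nonneg_right (min_le_right c1 c2) (hh.pos t).le
    have e : min c1 c2 * (g t + h t) = min c1 c2 * g t + min c1 c2 * h t := by ring
    rw [e]
    linarith

end Pool.Agent.W355.LJ
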