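import Pool.Agent.W355.LJ.SK

set_option autoImplicit false

/-!
# Laplace transforms of the kernels
-/

namespace Pool.Agent.W355.LJ

open Complex Filter Topology MeasureTheory Set

theorem lap_int0 {g : ℝ → ℝ} (hg : IsKer g) (s : ℂ) (hs : 0 ≤ s.re) :
    Integrable (fun t : ℝ => ((g t : ℝ) : ℂ) * cexp (s * t)) := by
  obtain ⟨C, c1, c2, hC, h1, h2, h3⟩ := hg.decp
  obtain ⟨K, hK, h4⟩ := Pool.Agent.H471R3.GJ.HOdd.exp_abs_bound c1 c2 s.re h1 h2
  have hcg := hg.cont
  refine (hg.int.add (Pool.Agent.H471R3.GJ.HOdd.gauss_int c1 c2 h1 h2 (C * K))).mono'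
    (by fun_prop : Continuous (fun t : ℝ => ((g t : ℝ) : ℂ) * cexp (s * t))).aestronglyMeasurable
    (Eventually.of_forall fun t => ?_)
  rw [norm_mul, Complex.norm_real, Real.norm_of_nonneg (hg.pos t).le, Complex.norm_exp]
  have e1 : (s * (t : ℂ)).re = s.re * t := by simp
  rw [e1]
  rcases le_total 0 t with ht | ht
  · have h5 := h4 t
    rw [abs_of_nonneg ht] at h5
    have h6 : g t * Real.exp (s.re * t) ≤ C * K * Real.exp (-(c1 * c2 ^ 2 / 4) * t ^ 2) := by
      calc g t * Real.exp (s.re * t) ≤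
          (C * Real.exp (-c1 * Real.exp (c2 * t))) * Real.exp (s.re * t) :=
            mul_le_mul_of_nonneg_right (h3 t ht) (Real.exp_pos _).le
        _ = C * (Real.exp (s.re * t) * Real.exp (-c1 * Real.exp (c2 * t))) := by ring
        _ ≤ C * (K * Real.exp (-(c1 * c2 ^ 2 / 4) * t ^ 2)) := mul_le_mul_of_nonneg_left h5 hC.le
        _ = _ := by ring
    have h7 := (hg.pos t).le
    simp only [Pi.add_apply]
    linarith
  · have h5 : Real.exp (s.re * t) ≤ 1 := by
      rw [Real.exp_le_one_iff]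
      exact mul_nonpos_of_nonneg_of_nonpos hs ht
    have h6 : g t * Real.exp (s.re * t) ≤ g t * 1 := mul_le_mul_of_nonneg_left h5 (hg.pos t).le
    have h7 : 0 ≤ C * K * Real.exp (-(c1 * c2 ^ 2 / 4) * t ^ 2) := by positivity
    simp only [Pi.add_apply]
    linarith

theorem lap_int {g g0 : ℝ → ℝ} (hg : IsSK g g0) (s : ℂ) (hs : 0 ≤ s.re) :
    Integrable (fun t : ℝ => ((g t : ℝ) : ℂ) * cexp (s * t)) := by
  have hcg := hg.cont
  refine (lap_int0 hg.ker s hs).mono
    (by fun_prop : Continuous (fun t : ℝ => ((g t : ℝ) : ℂ) * cexp (s * t))).aestronglyMeasurable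
    (Eventually.of_forall fun t => ?_)
  rw [norm_mul, norm_mul, Complex.norm_real, Complex.norm_real, Real.norm_eq_abs,
    Real.norm_of_nonneg (hg.ker.pos t).le]
  exact mul_le_mul_of_nonneg_right (hg.le t) (norm_nonneg _)

/-- the Laplace transform of a convolution -/
theorem cv_lap {g g0 h h0 : ℝ → ℝ} (hg : IsSK g g0) (hh : IsSK h h0) (s : ℂ) (hs : 0 ≤ s.re) :
    ∫ t : ℝ, ((cv g h t : ℝ) : ℂ) * cexp (s * t) =
      (∫ t : ℝ, ((g t : ℝ) : ℂ) * cexp (s * t)) * ∫ t : ℝ, ((h t : ℝ) : ℂ) * cexp (s * t) := by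
  have h1 := integral_convolution (ContinuousLinearMap.mul ℝ ℂ) (lap_int hg s hs) (lap_int hh s hs)
  rw [ContinuousLinearMap.mul_apply'] at h1
  rw [← h1]
  refine integral_congr_ae (Eventually.of_forall fun t => ?_)
  simp only [convolution, ContinuousLinearMap.mul_apply', cv]
  rw [← integral_complex_ofReal, ← integral_mul_const]
  refine integral_congr_ae (Eventually.of_forall fun u => ?_)
  simp only
  push_cast
  have e1 : cexp (s * t) = cexp (s * u) * cexp (s * (t - u)) := by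
    rw [← Complex.exp_add]
    congr 1
    ring
  rw [e1]
  ring

/-! ## Complex parameters -/

/-- `2 e^(μt) exp (-π e^(2t))`. -/
noncomputable def gc (μ : ℂ) (t : ℝ) : ℂ :=
  2 * cexp (μ * t) * ((Real.exp (-Real.pi * Real.exp (2 * t)) : ℝ) : ℂ)

theorem gc_cont (μ : ℂ) : Continuous (gc μ) := by
  unfold gc
  fun_prop

theorem gc_real (a t : ℝ) : gc (a : ℂ) t = ((gb a t : ℝ) : ℂ) := by
  unfold gc gb
  push_cast
  rfl

theorem gc_norm (μ : ℂ) (t : ℝ) : ‖gc μ t‖ = gb μ.re t := by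
  unfold gc gb
  rw [norm_mul, norm_mul, Complex.norm_exp, Complex.norm_real,
    Real.norm_of_nonneg (Real.exp_pos _).le]
  simp

theorem gc_int (μ : ℂ) (hμ : 0 < μ.re) (s : ℂ) (hs : 0 ≤ s.re) :
    Integrable (fun t : ℝ => gc μ t * cexp (s * t)) := by
  have hc := gc_cont μ
  refine (lap_int0 (gb_ker μ.re hμ) s hs).mono
    (by fun_prop : Continuous (fun t : ℝ => gc μ t * cexp (s * t))).aestronglyMeasurable
    (Eventually.of_forall fun t => ?_)
  rw [norm_mul, norm_mul, Complex.norm_real, gc_norm, Real.norm_of_nonneg (gb_pos _ t).le]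

/-- the Laplace transform of the kernel of one Gamma factor -/
theorem gc_lap (μ : ℂ) (hμ : 0 < μ.re) (s : ℂ) (hs : 0 ≤ s.re) :
    ∫ t : ℝ, gc μ t * cexp (s * t) = Gammaℝ (s + μ) := by
  have hw : 0 < ((s + μ) / 2 : ℂ).re := by
    have : ((s + μ) / 2 : ℂ).re = (s.re + μ.re) / 2 := by simp
    rw [this]
    linarith
  have h1 := Complex.integral_cpow_mul_exp_neg_mul_Ioi hw Real.pi_pos
  rw [Pool.Agent.H471R3.GJ.HMel.subst (1 / 2) (by norm_num)] at h1
  have hpc : (Real.pi : ℂ) ≠ 0 := by exact_mod_cast Real.pi_ne_zero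
  have e1 : (1 / (Real.pi : ℂ)) ^ ((s + μ) / 2) * Complex.Gamma ((s + μ) / 2) =
      Gammaℝ (s + μ) := by
    rw [Complex.Gammaℝ_def]
    congr 1
    rw [one_div, Complex.inv_cpow _ _ (by
      rw [Complex.arg_ofReal_of_nonneg Real.pi_pos.le]
      exact Real.pi_pos.ne), ← Complex.cpow_neg]
    congr 1
    ring
  rw [e1] at h1
  rw [← h1]
  refine integral_congr_ae (Eventually.of_forall fun t => ?_)
  simp only
  have e2 : Real.exp (t / (1 / 2)) = Real.exp (2 * t) := by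
    congr 1
    ring
  rw [e2]
  have e3 : ((Real.exp (2 * t) : ℝ) : ℂ) ^ ((s + μ) / 2 - 1) =
      cexp (((2 * t : ℝ) : ℂ) * ((s + μ) / 2 - 1)) := by
    rw [Complex.cpow_def_of_ne_zero (by exact_mod_cast (Real.exp_pos _).ne')]
    rw [← Complex.ofReal_log (Real.exp_pos _).le, Real.log_exp]
  rw [e3]
  unfold gc
  rw [Complex.real_smul]
  push_cast
  have e4 : cexp (2 * (t : ℂ)) * cexp (2 * (t : ℂ) * ((s + μ) / 2 - 1)) =
      cexp (μ * t) * cexp (s * t) := by
    rw [← Complex.exp_add, ← Complex.exp_add]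
    congr 1
    ring
  have e5 : cexp (2 * (t : ℂ)) / (1 / 2) * (cexp (2 * (t : ℂ) * ((s + μ) / 2 - 1)) *
      cexp (-(Real.pi * cexp (2 * (t : ℂ))))) =
      2 * (cexp (2 * (t : ℂ)) * cexp (2 * (t : ℂ) * ((s + μ) / 2 - 1))) *
        cexp (-(Real.pi * cexp (2 * (t : ℂ)))) := by ring
  rw [e5, e4]
  ring_nf

theorem gb_lap (a : ℝ) (ha : 0 < a) (s : ℂ) (hs : 0 ≤ s.re) :
    ∫ t : ℝ, ((gb a t : ℝ) : ℂ) * cexp (s * t) = Gammaℝ (s + a) := by
  rw [← gc_lap (a : ℂ) (by simpa using ha) s hs]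
  refine integral_congr_ae (Eventually.of_forall fun t => ?_)
  simp only
  rw [gc_real]

end Pool.Agent.W355.LJ
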