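import Pool.Agent.W355.LJ.RayC
import Pool.Agent.W355.LJ.Final

set_option autoImplicit false

/-!
# Products of completed L-functions
-/

namespace Pool.Agent.W355.LJ

open Complex Filter Topology MeasureTheory Set
open scoped ComplexConjugate

/-- `Λ` is a completed L-function of the general type with root number `w` of absolute value one,
and `Λ = G` in a half-plane. -/
def Good (w : ℂ) (Λ G : ℂ → ℂ) : Prop :=
  ∃ (l : List Pc) (M : ℝ) (b : ℕ → ℂ), l ≠ [] ∧ ‖w‖ = 1 ∧ IsC l M b w Λ ∧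
    ∃ σ : ℝ, ∀ s : ℂ, σ ≤ s.re → Λ s = G s

theorem good_mul {w1 w2 : ℂ} {Λ1 Λ2 G1 G2 : ℂ → ℂ} (h1 : Good w1 Λ1 G1) (h2 : Good w2 Λ2 G2) :
    Good (w1 * w2) (fun s => Λ1 s * Λ2 s) (fun s => G1 s * G2 s) := by
  obtain ⟨l1, M1, b1, n1, u1, c1, σ1, e1⟩ := h1
  obtain ⟨l2, M2, b2, n2, u2, c2, σ2, e2⟩ := h2
  refine ⟨l1 ++ l2, M1 + M2, _, ?_, ?_, c1.mul c2, max σ1 σ2, fun s hs => ?_⟩
  · simp [n1]
  · rw [norm_mul, u1, u2, mul_one]
  · simp only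
    rw [e1 s ((le_max_left _ _).trans hs), e2 s ((le_max_right _ _).trans hs)]

theorem good_list {ι : Type} (G : ι → ℂ → ℂ) (h : ∀ i, ∃ (w : ℂ) (Λ : ℂ → ℂ), Good w Λ (G i))
    (l : List ι) (hl : l ≠ []) :
    ∃ (w : ℂ) (Λ : ℂ → ℂ), Good w Λ (fun s => (l.map fun i => G i s).prod) := by
  induction l with
  | nil => exact absurd rfl hl
  | cons i l ih =>
    rcases eq_or_ne l [] with rfl | hne
    · obtain ⟨w, Λ, hg⟩ := h i
      refine ⟨w, Λ, ?_⟩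
      have e : (fun s => (([i] : List ι).map fun i => G i s).prod) = G i := by
        funext s
        simp
      rw [e]
      exact hg
    · obtain ⟨w1, Λ1, h1⟩ := h i
      obtain ⟨w2, Λ2, h2⟩ := ih hne
      refine ⟨w1 * w2, fun s => Λ1 s * Λ2 s, ?_⟩
      have e : (fun s => ((i :: l).map fun i => G i s).prod) =
          fun s => G i s * (l.map fun i => G i s).prod := by
        funext s
        simp
      rw [e]
      exact good_mul h1 h2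

open Pool.Agent.H471R3.GJ.Crit (LogCriterion) in
theorem good_final {w : ℂ} {Λ G : ℂ → ℂ} (h : Good w Λ G) :
    Differentiable ℂ Λ ∧ (∃ σ : ℝ, ∀ s : ℂ, σ ≤ s.re → Λ s = G s) ∧ ‖w‖ = 1 ∧
    (∀ s : ℂ, Λ (1 - s) = w * conj (Λ (conj s))) ∧
    ∃ r : ℕ, r ≤ 1 ∧ (∀ z : ℂ, FL Λ (-z) = (-1) ^ r * FL Λ z) ∧
      LogCriterion r (FL Λ) (∀ s : ℂ, Λ s = 0 → s.re = 1 / 2) := by
  obtain ⟨l, M, b, n, u, c, e⟩ := h
  exact ⟨c.entire, e, u, c.fe, c.final u n⟩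

theorem good_of {l : List Pc} {M : ℝ} {b : ℕ → ℂ} {w : ℂ} {Λ G : ℂ → ℂ} (hl : l ≠ [])
    (hw : ‖w‖ = 1) (h : IsC l M b w Λ)
    (e : ∃ σ : ℝ, ∀ s : ℂ, σ ≤ s.re → cexp (s * M) * GF l s * LSeries b s = G s) : Good w Λ G := by
  obtain ⟨σ, hσ⟩ := e
  obtain ⟨σ0, hd⟩ := h.dir
  exact ⟨l, M, b, hl, hw, h, max σ σ0, fun s hs => by
    rw [hd s ((le_max_right _ _).trans hs), hσ s ((le_max_left _ _).trans hs)]⟩

theorem exp_half_log {x : ℝ} (hx : 0 < x) (s : ℂ) :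
    cexp (s * ((1 / 2 * Real.log x : ℝ) : ℂ)) = (x : ℂ) ^ (s / 2) := by
  have hxc : (x : ℂ) ≠ 0 := by exact_mod_cast hx.ne'
  rw [Complex.cpow_def_of_ne_zero hxc, ← Complex.ofReal_log hx.le]
  congr 1
  push_cast
  ring

theorem good_zeta : Good 1 (fun s => (s * (s - 1) * completedRiemannZeta₀ s + 1) / (2 * Real.pi))
    (fun s => (s - 1) * Gammaℝ (s + 2) * riemannZeta s) := by
  refine good_of (by simp) norm_one zeta_isC ⟨2, fun s hs => ?_⟩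
  have h1 : LSeries (fun _ => 1) s = riemannZeta s := by
    have := LSeries_one_eq_riemannZeta (s := s) (by linarith)
    exact this
  rw [h1]
  unfold GF
  simp only [List.map_cons, List.map_nil, List.prod_cons, List.prod_nil, mul_one,
    Complex.ofReal_zero, mul_zero, Complex.exp_zero, one_mul]
  show (s - ((1 : ℝ) : ℂ)) * Gammaℝ (s + ((2 : ℝ) : ℂ)) * _ = _
  push_cast
  rfl

open Classical in
theorem good_dir (N : ℕ) [NeZero N] (χ : DirichletCharacter ℂ N) (hN : 1 < N)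
    (hχ : χ.IsPrimitive) : ∃ (w : ℂ) (Λ : ℂ → ℂ), Good w Λ
      (fun s => (N : ℂ) ^ (s / 2) * (if χ.Even then Gammaℝ s else Gammaℝ (s + 1)) *
        LSeries (fun n => χ n) s) := by
  obtain ⟨w, Λ, hw, h⟩ := dir_isC N χ hN hχ
  refine ⟨w, Λ, good_of (by simp) hw h ⟨0, fun s _ => ?_⟩⟩
  have hN0 : (0 : ℝ) < N := by
    have : 0 < N := by omega
    exact_mod_cast this
  rw [exp_half_log hN0, Complex.ofReal_natCast]
  congr 2
  unfold GF
  simp only [List.map_cons, List.map_nil, List.prod_cons, List.prod_nil, mul_one]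
  show Gammaℝ (s + (parD χ : ℂ)) = _
  unfold parD
  split_ifs <;> simp

theorem GF_two (s : ℂ) : GF [Pc.one 0, Pc.one 1] s = Gammaℂ s := by
  unfold GF
  simp only [List.map_cons, List.map_nil, List.prod_cons, List.prod_nil, mul_one]
  show Gammaℝ (s + ((0 : ℝ) : ℂ)) * Gammaℝ (s + ((1 : ℝ) : ℂ)) = _
  rw [Complex.ofReal_zero, add_zero, Complex.ofReal_one, Complex.Gammaℝ_mul_Gammaℝ_add_one]

theorem good_ray (q : GaussianInt) (hq1 : 1 < Zsqrtd.norm q)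
    (χ : MulChar (ZQ q) ℂ) (h : PrimQ q χ) (hχ : chQ q χ ⟨0, 1⟩ = 1) :
    ∃ (w : ℂ) (Λ : ℂ → ℂ), Good w Λ
      (fun s => ((4 * Zsqrtd.norm q : ℤ) : ℂ) ^ (s / 2) * Gammaℂ s *
        LSeries (Pool.Agent.H82R3.AR.bH (chQ q χ)) s) := by
  have hq : q ≠ 0 := by
    rintro rfl
    rw [Zsqrtd.norm_zero] at hq1
    omega
  obtain ⟨w, Λ, hw, h⟩ := ray_isC q hq1 χ h hχ
  refine ⟨w, Λ, good_of (by simp) hw h ⟨0, fun s _ => ?_⟩⟩
  rw [GF_two]
  congr 2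
  have hN0 : (0 : ℝ) < ((4 * Zsqrtd.norm q : ℤ) : ℝ) := by
    have : 0 < 4 * Zsqrtd.norm q := by omega
    exact_mod_cast this
  have h1 : ‖Pool.Agent.H304R3.HK.tc q‖ ^ 2 = ((Zsqrtd.norm q : ℤ) : ℝ) := by
    rw [Pool.Agent.H304R3.HK.T1.tc_norm]
    rw [Zsqrtd.norm_def]
    push_cast
    ring
  have h2 : Real.log (2 * ‖Pool.Agent.H304R3.HK.tc q‖) =
      1 / 2 * Real.log ((4 * Zsqrtd.norm q : ℤ) : ℝ) := by
    have h3 : ((4 * Zsqrtd.norm q : ℤ) : ℝ) = (2 * ‖Pool.Agent.H304R3.HK.tc q‖) ^ 2 := by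
      rw [mul_pow, h1]
      push_cast
      ring
    rw [h3, Real.log_pow]
    push_cast
    ring
  rw [h2, exp_half_log hN0, Complex.ofReal_intCast]

theorem good_form {N : ℕ} [NeZero N]
    (f : CuspForm (CongruenceSubgroup.Gamma1 N : Subgroup (GL (Fin 2) ℝ)) ((1 : ℕ) : ℤ))
    {w : ℂ} (hf : IsNF N 1 f w) :
    ∃ (w' : ℂ) (Λ : ℂ → ℂ), Good w' Λ
      (fun s => (N : ℂ) ^ (s / 2) * Gammaℂ s *
        LSeries (fun n => (UpperHalfPlane.qExpansion 1 f).coeff n) s) := by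
  obtain ⟨w', Λ, hw, h⟩ := nf_isC f le_rfl hf
  have e1 : (((1 : ℕ) : ℝ) - 1) / 2 = 0 := by norm_num
  have e2 : (((1 : ℕ) : ℝ) + 1) / 2 = 1 := by norm_num
  rw [e1, e2] at h
  refine ⟨w', Λ, good_of (by simp) hw h ⟨0, fun s _ => ?_⟩⟩
  have hN0 : (0 : ℝ) < N := by exact_mod_cast Nat.pos_of_ne_zero (NeZero.ne N)
  rw [exp_half_log hN0, Complex.ofReal_natCast, GF_two]
  congr 2
  funext n
  simp

end Pool.Agent.W355.LJ
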