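import Pool.Agent.H471R3.GJ.Prod

set_option autoImplicit false

/-!
# Forms of level `N`, of any weight and any character, as Hecke series
-/

namespace Pool.Agent.W355.LJ

open Complex Filter Topology UpperHalfPlane MatrixGroups ModularForm CongruenceSubgroup
open scoped ComplexConjugate
open Pool.Agent.H471R3.GJ (Hc IsHc)

/-- `f` is normalised and `f | W_N = w f^c`, where `f^c(τ) = conj f(-conj τ)` has the conjugate
Fourier coefficients. -/
structure IsNF (N : ℕ) (k : ℕ) (f : CuspForm (Gamma1 N : Subgroup (GL (Fin 2) ℝ)) (k : ℤ)) (w : ℂ) :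
    Prop where
  one : (qExpansion 1 f).coeff 1 = 1
  norm : ‖w‖ = 1
  fricke : ∀ τ τ' τ'' : ℍ, (τ' : ℂ) * ((N : ℂ) * (τ : ℂ)) = -1 → (τ'' : ℂ) = -conj (τ : ℂ) →
    f τ' = w * ((Real.sqrt N : ℝ) * (τ : ℂ)) ^ k * conj (f τ'')

/-- The data. -/
noncomputable def nfHc (N k : ℕ) (f : CuspForm (Gamma1 N : Subgroup (GL (Fin 2) ℝ)) (k : ℤ)) (B : ℝ)
    (w : ℂ) : Hc where
  φ y := f (ofComplex (Complex.I * ((y / Real.sqrt N : ℝ) : ℂ)))
  b m := (qExpansion 1 f).coeff m
  k := k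
  h := Real.sqrt N
  p := 1
  β := k / 2
  B := B
  ε := w * Complex.I ^ k

section

variable {N k : ℕ} [NeZero N] (f : CuspForm (Gamma1 N : Subgroup (GL (Fin 2) ℝ)) (k : ℤ))

theorem one_mem1 : (1 : ℝ) ∈ (Gamma1 N : Subgroup (GL (Fin 2) ℝ)).strictPeriods := by
  rw [strictPeriods_Gamma1]
  exact AddSubgroup.mem_zmultiples 1

theorem sum_iy1 (y : ℝ) (hy : 0 < y) :
    HasSum (fun m : ℕ => (qExpansion 1 f).coeff m *
      ((Real.exp (-(2 * Real.pi * (m : ℝ) * y)) : ℝ) : ℂ)) (f (ofComplex (Complex.I * y))) := by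
  have h := ModularForm.hasSum_qExpansion (Γ := (Gamma1 N : Subgroup (GL (Fin 2) ℝ))) (k := (k : ℤ)) f
    one_pos one_mem1 (ofComplex (Complex.I * y))
  have him : 0 < (Complex.I * (y : ℂ)).im := by simpa using hy
  convert h using 2 with m
  congr 1
  rw [ofComplex_apply_of_im_pos him]
  unfold Function.Periodic.qParam
  rw [← Complex.exp_nat_mul]
  simp only
  push_cast
  congr 1
  have hI : Complex.I ^ 2 = -1 := Complex.I_sq
  linear_combination (-(2 * Real.pi * m * y) : ℂ) * hI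

theorem coeff_zero1 : (qExpansion 1 f).coeff 0 = 0 := by
  rw [CuspFormClass.qExpansion_coeff_zero (Γ := (Gamma1 N : Subgroup (GL (Fin 2) ℝ))) (k := (k : ℤ)) f
    one_pos one_mem1]

theorem coeff_bound1 : ∃ B : ℝ, 1 ≤ B ∧ ∀ m : ℕ, 1 ≤ m →
    ‖(qExpansion 1 f).coeff m‖ ≤ B * (m : ℝ) ^ ((k : ℝ) / 2) := by
  have h := CuspFormClass.qExpansion_isBigO (k := (k : ℤ))
    (Γ := (Gamma1 N : Subgroup (GL (Fin 2) ℝ))) f
  rw [strictWidthInfty_Gamma1] at h
  have e2 : (((k : ℤ) : ℝ) / 2) = (k : ℝ) / 2 := by push_cast; rfl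
  rw [e2] at h
  obtain ⟨C, hC⟩ := h.bound
  obtain ⟨M, hM⟩ := eventually_atTop.1 hC
  set S : ℝ := ∑ m ∈ Finset.range M, ‖(qExpansion 1 f).coeff m‖ / (m : ℝ) ^ ((k : ℝ) / 2) with hS
  have hS0 : 0 ≤ S := Finset.sum_nonneg fun m _ => by positivity
  refine ⟨1 + |C| + S, by have := abs_nonneg C; linarith, ?_⟩
  intro m hm
  have hm0 : (0 : ℝ) < m := by exact_mod_cast hm
  have hp : 0 < (m : ℝ) ^ ((k : ℝ) / 2) := Real.rpow_pos_of_pos hm0 _
  rcases lt_or_ge m M with hlt | hge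
  · have h1 : ‖(qExpansion 1 f).coeff m‖ / (m : ℝ) ^ ((k : ℝ) / 2) ≤ S :=
      Finset.single_le_sum (f := fun m : ℕ => ‖(qExpansion 1 f).coeff m‖ / (m : ℝ) ^ ((k : ℝ) / 2))
        (fun i _ => by positivity) (Finset.mem_range.2 hlt)
    rw [div_le_iff₀ hp] at h1
    refine h1.trans ?_
    gcongr
    have := abs_nonneg C
    linarith
  · have h1 := hM m hge
    rw [Real.norm_eq_abs, abs_of_pos hp] at h1
    refine h1.trans ?_
    gcongr
    have := le_abs_self C
    linarith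

theorem nf_isHc {w : ℂ} (hk : 1 ≤ k) (hf : IsNF N k f w) : ∃ B : ℝ, IsHc (nfHc N k f B w) := by
  obtain ⟨B, hB1, hB⟩ := coeff_bound1 f
  have hN : (0 : ℝ) < N := by exact_mod_cast Nat.pos_of_ne_zero (NeZero.ne N)
  have hsN : 0 < Real.sqrt N := Real.sqrt_pos.2 hN
  refine ⟨B, ?_, hsN, le_refl 1, ?_, hB1, hf.one, hB, ?_, ?_, ?_⟩
  · show (0 : ℝ) < k
    exact_mod_cast hk
  · show (0 : ℝ) ≤ k / 2
    positivity
  · intro y hy
    have hy' : 0 < y / Real.sqrt N := div_pos hy hsN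
    have h := sum_iy1 f (y / Real.sqrt N) hy'
    have h2 := (hasSum_nat_add_iff' 1).2 h
    simp only [Finset.range_one, Finset.sum_singleton, coeff_zero1, zero_mul, sub_zero] at h2
    refine h2.congr_fun ?_
    intro m
    show (qExpansion 1 f).coeff (m + 1) *
      ((Real.exp (-(2 * Real.pi * ((m + 1 : ℕ) : ℝ) ^ 1 * y / Real.sqrt N)) : ℝ) : ℂ) = _
    rw [pow_one, mul_div_assoc]
  · show ‖w * Complex.I ^ k‖ = 1
    rw [norm_mul, hf.norm, norm_pow, Complex.norm_I, one_pow, mul_one]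
  · intro y hy
    show f (ofComplex (Complex.I * ((1 / y / Real.sqrt N : ℝ) : ℂ))) =
      w * Complex.I ^ k * ((y ^ (k : ℝ) : ℝ) : ℂ) *
        conj (f (ofComplex (Complex.I * ((y / Real.sqrt N : ℝ) : ℂ))))
    have hy1 : 0 < y / Real.sqrt N := div_pos hy hsN
    have hy2 : 0 < 1 / y / Real.sqrt N := by positivity
    have him1 : 0 < (Complex.I * ((y / Real.sqrt N : ℝ) : ℂ)).im := by
      rw [Complex.I_mul_im, Complex.ofReal_re]
      exact hy1
    have him2 : 0 < (Complex.I * ((1 / y / Real.sqrt N : ℝ) : ℂ)).im := by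
      rw [Complex.I_mul_im, Complex.ofReal_re]
      exact hy2
    have hsq : (Real.sqrt N : ℂ) ^ 2 = N := by
      have : Real.sqrt N ^ 2 = N := Real.sq_sqrt hN.le
      exact_mod_cast this
    have hsqne : (Real.sqrt N : ℂ) ≠ 0 := by exact_mod_cast hsN.ne'
    have hyc : (y : ℂ) ≠ 0 := by exact_mod_cast hy.ne'
    have h1 := hf.fricke (ofComplex (Complex.I * ((y / Real.sqrt N : ℝ) : ℂ)))
      (ofComplex (Complex.I * ((1 / y / Real.sqrt N : ℝ) : ℂ)))
      (ofComplex (Complex.I * ((y / Real.sqrt N : ℝ) : ℂ))) (by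
        rw [ofComplex_apply_of_im_pos him1, ofComplex_apply_of_im_pos him2]
        simp only
        push_cast
        rw [← hsq]
        have hI : Complex.I ^ 2 = -1 := Complex.I_sq
        field_simp
        exact hI) (by
        rw [ofComplex_apply_of_im_pos him1]
        simp only [map_mul, Complex.conj_I, Complex.conj_ofReal]
        ring)
    rw [h1]
    rw [ofComplex_apply_of_im_pos him1]
    congr 1
    simp only
    rw [Real.rpow_natCast]
    push_cast
    have e1 : (Real.sqrt N : ℂ) * (Complex.I * ((y : ℂ) / (Real.sqrt N : ℂ))) = Complex.I * y := by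
      field_simp
    rw [e1, mul_pow]
    ring

end

end Pool.Agent.W355.LJ
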