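import Pool.Agent.W355.LJ.Lap

set_option autoImplicit false

/-!
# The three types of factors
-/

namespace Pool.Agent.W355.LJ

open Complex Filter Topology MeasureTheory Set

/-! ## Pairs of conjugate parameters -/

/-- the kernel of `Γ_ℝ(s + a + iν) Γ_ℝ(s + a - iν)` -/
noncomputable def gp (a ν t : ℝ) : ℝ := ∫ u : ℝ, Real.cos (ν * (2 * u - t)) * (gb a u * gb a (t - u))

theorem gb_mul (a t u : ℝ) : gb a u * gb a (t - u) =
    4 * Real.exp (a * t) * Real.exp (-Real.pi * (Real.exp (2 * u) + Real.exp (2 * (t - u)))) := by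
  unfold gb
  have e1 : Real.exp (a * t) = Real.exp (a * u) * Real.exp (a * (t - u)) := by
    rw [← Real.exp_add]
    congr 1
    ring
  have e2 : Real.exp (-Real.pi * (Real.exp (2 * u) + Real.exp (2 * (t - u)))) =
      Real.exp (-Real.pi * Real.exp (2 * u)) * Real.exp (-Real.pi * Real.exp (2 * (t - u))) := by
    rw [← Real.exp_add]
    congr 1
    ring
  rw [e1, e2]
  ring

theorem gp_int (a : ℝ) (ha : 0 < a) (ν t : ℝ) :
    Integrable (fun u : ℝ => Real.cos (ν * (2 * u - t)) * (gb a u * gb a (t - u))) := by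
  have hc := gb_cont a
  refine (cv_int (gb_ker a ha) (gb_ker a ha) t).mono'
    (by fun_prop : Continuous (fun u : ℝ => Real.cos (ν * (2 * u - t)) *
      (gb a u * gb a (t - u)))).aestronglyMeasurable (Eventually.of_forall fun u => ?_)
  have h1 : 0 < gb a u * gb a (t - u) := mul_pos (gb_pos a u) (gb_pos a _)
  rw [Real.norm_eq_abs, abs_mul, abs_of_pos h1]
  calc |Real.cos (ν * (2 * u - t))| * (gb a u * gb a (t - u)) ≤ 1 * (gb a u * gb a (t - u)) :=
        mul_le_mul_of_nonneg_right (Real.abs_cos_le_one _) h1.le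
    _ = _ := one_mul _

theorem gp_cont (a : ℝ) (ha : 0 < a) (ν : ℝ) : Continuous (gp a ν) := by
  have hk := gb_ker a ha
  obtain ⟨C, hC, hb⟩ := hk.bd
  unfold gp
  refine continuous_of_dominated (bound := fun u => gb a u * C) (fun t => (gp_int a ha ν t).1)
    (fun t => Eventually.of_forall fun u => ?_) (hk.int.mul_const C)
    (Eventually.of_forall fun u => ?_)
  · have h1 : 0 < gb a u * gb a (t - u) := mul_pos (gb_pos a u) (gb_pos a _)
    rw [Real.norm_eq_abs, abs_mul, abs_of_pos h1]
    calc |Real.cos (ν * (2 * u - t))| * (gb a u * gb a (t - u)) ≤ 1 * (gb a u * gb a (t - u)) :=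
          mul_le_mul_of_nonneg_right (Real.abs_cos_le_one _) h1.le
      _ = gb a u * gb a (t - u) := one_mul _
      _ ≤ _ := mul_le_mul_of_nonneg_left (hb _) (gb_pos a u).le
  · have hc := gb_cont a
    fun_prop

/-- away from the centre the product is small -/
theorem gb_off (a t u δ : ℝ) (hδ : 0 < δ) (hu : δ ≤ 2 * u - t) :
    gb a u * gb a (t - u) ≤ Real.exp (-Real.pi * ((1 - Real.exp (-(δ / 2))) ^ 2 * Real.exp t)) *
      (gb a (u - δ / 4) * gb a (t - (u - δ / 4))) := by
  rw [gb_mul, gb_mul]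
  have key : (1 - Real.exp (-(δ / 2))) ^ 2 * Real.exp t + (Real.exp (2 * (u - δ / 4)) +
      Real.exp (2 * (t - (u - δ / 4)))) ≤ Real.exp (2 * u) + Real.exp (2 * (t - u)) := by
    set v : ℝ := 2 * u - t with hv
    set q : ℝ := Real.exp (-(δ / 2)) with hq
    have hq0 : 0 < q := Real.exp_pos _
    have hq1 : q < 1 := by
      rw [hq, Real.exp_lt_one_iff]
      linarith
    have ht : 0 < Real.exp t := Real.exp_pos t
    have e1 : Real.exp (2 * u) = Real.exp t * Real.exp v := by
      rw [← Real.exp_add]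
      congr 1
      rw [hv]
      ring
    have e2 : Real.exp (2 * (t - u)) = Real.exp t * Real.exp (-v) := by
      rw [← Real.exp_add]
      congr 1
      rw [hv]
      ring
    have e3 : Real.exp (2 * (u - δ / 4)) = Real.exp t * (Real.exp v * q) := by
      rw [← Real.exp_add, ← Real.exp_add]
      congr 1
      rw [hv]
      ring
    have e4 : Real.exp (2 * (t - (u - δ / 4))) * q = Real.exp t * Real.exp (-v) := by
      rw [← Real.exp_add, ← Real.exp_add]
      congr 1
      rw [hv]
      ring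
    have e5 : Real.exp (-v) ≤ q * q := by
      rw [← Real.exp_add]
      refine Real.exp_le_exp.2 ?_
      linarith
    have e6 : 1 ≤ Real.exp v := Real.one_le_exp (by linarith)
    have e7 : Real.exp (2 * (t - (u - δ / 4))) = Real.exp t * (Real.exp (-v) / q) := by
      rw [← mul_div_assoc, eq_div_iff hq0.ne']
      exact e4
    rw [e1, e2, e3, e7]
    have e8 : Real.exp (-v) / q ≤ q := by
      rw [div_le_iff₀ hq0]
      exact e5
    have e9 : (1 - q) ^ 2 + (Real.exp v * q + Real.exp (-v) / q) ≤ Real.exp v + Real.exp (-v) := by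
      have e10 : Real.exp (-v) = Real.exp (-v) / q * q := by field_simp
      nlinarith [mul_le_mul_of_nonneg_left e8 (by linarith : (0 : ℝ) ≤ 1 - q),
        mul_le_mul_of_nonneg_left e6 (by linarith : (0 : ℝ) ≤ 1 - q)]
    have := mul_le_mul_of_nonneg_left e9 ht.le
    linarith
  have h2 : Real.exp (-Real.pi * (Real.exp (2 * u) + Real.exp (2 * (t - u)))) ≤
      Real.exp (-Real.pi * ((1 - Real.exp (-(δ / 2))) ^ 2 * Real.exp t)) *
      Real.exp (-Real.pi * (Real.exp (2 * (u - δ / 4)) + Real.exp (2 * (t - (u - δ / 4))))) := by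
    rw [← Real.exp_add]
    refine Real.exp_le_exp.2 ?_
    have := mul_le_mul_of_nonneg_left key Real.pi_pos.le
    linarith
  calc 4 * Real.exp (a * t) * Real.exp (-Real.pi * (Real.exp (2 * u) + Real.exp (2 * (t - u)))) ≤
      4 * Real.exp (a * t) * (Real.exp (-Real.pi * ((1 - Real.exp (-(δ / 2))) ^ 2 * Real.exp t)) *
      Real.exp (-Real.pi * (Real.exp (2 * (u - δ / 4)) + Real.exp (2 * (t - (u - δ / 4)))))) :=
        mul_le_mul_of_nonneg_left h2 (by positivity)
    _ = _ := by ring

theorem gb_off' (a t u δ : ℝ) (hδ : 0 < δ) (hu : 2 * u - t ≤ -δ) :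
    gb a u * gb a (t - u) ≤ Real.exp (-Real.pi * ((1 - Real.exp (-(δ / 2))) ^ 2 * Real.exp t)) *
      (gb a (u + δ / 4) * gb a (t - (u + δ / 4))) := by
  have h1 := gb_off a t (t - u) δ hδ (by linarith)
  have e1 : t - (t - u) = u := by ring
  have e2 : t - u - δ / 4 = t - (u + δ / 4) := by ring
  have e3 : t - (t - (u + δ / 4)) = u + δ / 4 := by ring
  rw [e1, e2, e3] at h1
  calc gb a u * gb a (t - u) = gb a (t - u) * gb a u := mul_comm _ _
    _ ≤ _ := h1
    _ = _ := by ring

theorem gp_sk (a : ℝ) (ha : 0 < a) (ν : ℝ) : IsSK (gp a ν) (cv (gb a) (gb a)) := by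
  have hk := gb_ker a ha
  refine ⟨cv_ker hk hk, gp_cont a ha ν, fun t => ?_, ?_⟩
  · unfold gp cv
    rw [← Real.norm_eq_abs]
    refine (norm_integral_le_integral_norm _).trans ?_
    refine integral_mono (gp_int a ha ν t).norm (cv_int hk hk t) fun u => ?_
    simp only
    have h1 : 0 < gb a u * gb a (t - u) := mul_pos (gb_pos a u) (gb_pos a _)
    rw [Real.norm_eq_abs, abs_mul, abs_of_pos h1]
    calc |Real.cos (ν * (2 * u - t))| * (gb a u * gb a (t - u)) ≤ 1 * (gb a u * gb a (t - u)) :=
          mul_le_mul_of_nonneg_right (Real.abs_cos_le_one _) h1.le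
      _ = gb a u * gb a (t - u) := one_mul _
  · set δ : ℝ := 1 / (2 * (1 + |ν|)) with hδd
    have hδ : 0 < δ := by positivity
    have hνδ : |ν| * δ ≤ 1 / 2 := by
      rw [hδd]
      have h0 : 0 < 2 * (1 + |ν|) := by positivity
      rw [mul_one_div, div_le_div_iff₀ h0 two_pos]
      linarith
    set q : ℝ := (1 - Real.exp (-(δ / 2))) ^ 2 with hq
    have hq0 : 0 < q := by
      have : Real.exp (-(δ / 2)) < 1 := by
        rw [Real.exp_lt_one_iff]
        linarith
      have : 0 < 1 - Real.exp (-(δ / 2)) := by linarith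
      positivity
    refine ⟨1 / 2, 16 / (Real.pi * q), by norm_num, fun t ht => ?_⟩
    have hη : Real.exp (-Real.pi * (q * Real.exp t)) ≤ 1 / 16 := by
      have h1 : 16 ≤ Real.pi * (q * Real.exp t) := by
        have h2 := Real.add_one_le_exp t
        have h3 : 0 < Real.pi * q := by positivity
        have h4 : 16 ≤ Real.pi * q * t := by
          rw [div_le_iff₀ h3] at ht
          linarith
        nlinarith
      have h2 := Real.add_one_le_exp (Real.pi * (q * Real.exp t))
      rw [show -Real.pi * (q * Real.exp t) = -(Real.pi * (q * Real.exp t)) by ring, Real.exp_neg,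
        inv_le_comm₀ (Real.exp_pos _) (by norm_num)]
      norm_num
      linarith
    set η : ℝ := Real.exp (-Real.pi * (q * Real.exp t)) with hηd
    have hη0 : 0 < η := Real.exp_pos _
    have hi0 := cv_int hk hk t
    have hi1 := hi0.comp_add_right (δ / 4)
    have hi2 := hi0.comp_sub_right (δ / 4)
    have hpt : ∀ u : ℝ, 3 / 4 * (gb a u * gb a (t - u)) -
        (2 * η * (gb a (u + δ / 4) * gb a (t - (u + δ / 4))) +
          2 * η * (gb a (u - δ / 4) * gb a (t - (u - δ / 4)))) ≤
        Real.cos (ν * (2 * u - t)) * (gb a u * gb a (t - u)) := by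
      intro u
      have h1 : 0 < gb a u * gb a (t - u) := mul_pos (gb_pos a u) (gb_pos a _)
      have h2 : 0 < gb a (u + δ / 4) * gb a (t - (u + δ / 4)) := mul_pos (gb_pos a _) (gb_pos a _)
      have h3 : 0 < gb a (u - δ / 4) * gb a (t - (u - δ / 4)) := mul_pos (gb_pos a _) (gb_pos a _)
      have h4 := Real.neg_one_le_cos (ν * (2 * u - t))
      have h5 := mul_le_mul_of_nonneg_right h4 h1.le
      have h6 := mul_pos hη0 h2
      have h7 := mul_pos hη0 h3
      rcases le_total δ (2 * u - t) with hu | hu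
      · have h8 := gb_off a t u δ hδ hu
        rw [← hq, ← hηd] at h8
        linarith
      · rcases le_total (2 * u - t) (-δ) with hv | hv
        · have h8 := gb_off' a t u δ hδ hv
          rw [← hq, ← hηd] at h8
          linarith
        · have h8 : |2 * u - t| ≤ δ := abs_le.2 ⟨hv, hu⟩
          have h9 : |ν * (2 * u - t)| ≤ 1 / 2 := by
            rw [abs_mul]
            exact (mul_le_mul_of_nonneg_left h8 (abs_nonneg _)).trans hνδ
          have h10 := Real.one_sub_sq_div_two_le_cos (x := ν * (2 * u - t))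
          have h11 : (ν * (2 * u - t)) ^ 2 ≤ (1 / 2) ^ 2 := by
            rw [← sq_abs]
            exact pow_le_pow_left₀ (abs_nonneg _) h9 2
          have h12 : 3 / 4 ≤ Real.cos (ν * (2 * u - t)) := by
            norm_num at h11
            linarith
          have h13 := mul_le_mul_of_nonneg_right h12 h1.le
          linarith
    have hI1 : Integrable (fun u : ℝ => 2 * η * (gb a (u + δ / 4) * gb a (t - (u + δ / 4)))) :=
      hi1.const_mul _
    have hI2 : Integrable (fun u : ℝ => 2 * η * (gb a (u - δ / 4) * gb a (t - (u - δ / 4)))) :=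
      hi2.const_mul _
    have hI0 : Integrable (fun u : ℝ => 3 / 4 * (gb a u * gb a (t - u))) := hi0.const_mul _
    have h7 := integral_mono (hI0.sub (hI1.add hI2)) (gp_int a ha ν t) hpt
    have h8 : ∫ u, (3 / 4 * (gb a u * gb a (t - u)) -
        (2 * η * (gb a (u + δ / 4) * gb a (t - (u + δ / 4))) +
          2 * η * (gb a (u - δ / 4) * gb a (t - (u - δ / 4))))) = 3 / 4 * cv (gb a) (gb a) t -
        (2 * η * cv (gb a) (gb a) t + 2 * η * cv (gb a) (gb a) t) := by
      have e0 : ∫ u, (3 / 4 * (gb a u * gb a (t - u)) -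
          (2 * η * (gb a (u + δ / 4) * gb a (t - (u + δ / 4))) +
            2 * η * (gb a (u - δ / 4) * gb a (t - (u - δ / 4))))) =
          (∫ u, 3 / 4 * (gb a u * gb a (t - u))) -
          ∫ u, (2 * η * (gb a (u + δ / 4) * gb a (t - (u + δ / 4))) +
            2 * η * (gb a (u - δ / 4) * gb a (t - (u - δ / 4)))) := integral_sub hI0 (hI1.add hI2)
      rw [e0, integral_add hI1 hI2, integral_const_mul,
        integral_const_mul, integral_const_mul,
        integral_add_right_eq_self (fun u => gb a u * gb a (t - u)) (δ / 4),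
        integral_sub_right_eq_self (fun u => gb a u * gb a (t - u)) (δ / 4)]
      rfl
    have h9 : 3 / 4 * cv (gb a) (gb a) t -
        (2 * η * cv (gb a) (gb a) t + 2 * η * cv (gb a) (gb a) t) ≤ gp a ν t := by
      rw [← h8]
      exact h7
    have h10 := cv_pos hk hk t
    have h11 := mul_le_mul_of_nonneg_right hη h10.le
    linarith

theorem gp_conv (a : ℝ) (ha : 0 < a) (ν t : ℝ) :
    ((gp a ν t : ℝ) : ℂ) = ∫ u : ℝ, gc ((a : ℂ) + ν * I) u * gc ((a : ℂ) - ν * I) (t - u) := by
  have hk := gb_ker a ha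
  have e1 : ∀ u : ℝ, gc ((a : ℂ) + ν * I) u * gc ((a : ℂ) - ν * I) (t - u) =
      ((Real.cos (ν * (2 * u - t)) * (gb a u * gb a (t - u)) : ℝ) : ℂ) +
        ((Real.sin (ν * (2 * u - t)) * (gb a u * gb a (t - u)) : ℝ) : ℂ) * I := by
    intro u
    have e2 : gc ((a : ℂ) + ν * I) u * gc ((a : ℂ) - ν * I) (t - u) =
        ((gb a u * gb a (t - u) : ℝ) : ℂ) * cexp (((ν * (2 * u - t) : ℝ) : ℂ) * I) := by
      unfold gc gb
      push_cast
      have e3 : cexp (((a : ℂ) + ν * I) * u) = cexp (a * u) * cexp (ν * I * u) := by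
        rw [← Complex.exp_add]
        congr 1
        ring
      have e4 : cexp (((a : ℂ) - ν * I) * (t - u)) =
          cexp (a * (t - u)) * cexp (-(ν * I * (t - u))) := by
        rw [← Complex.exp_add]
        congr 1
        ring
      have e5 : cexp ((ν : ℂ) * (2 * u - t) * I) = cexp (ν * I * u) * cexp (-(ν * I * (t - u))) := by
        rw [← Complex.exp_add]
        congr 1
        ring
      rw [e3, e4, e5]
      ring
    rw [e2, Complex.exp_mul_I]
    push_cast
    ring
  simp_rw [e1]
  have hc := gb_cont a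
  have hs_int : Integrable (fun u : ℝ => Real.sin (ν * (2 * u - t)) * (gb a u * gb a (t - u))) := by
    refine (cv_int hk hk t).mono'
      (by fun_prop : Continuous (fun u : ℝ => Real.sin (ν * (2 * u - t)) *
        (gb a u * gb a (t - u)))).aestronglyMeasurable (Eventually.of_forall fun u => ?_)
    have h1 : 0 < gb a u * gb a (t - u) := mul_pos (gb_pos a u) (gb_pos a _)
    rw [Real.norm_eq_abs, abs_mul, abs_of_pos h1]
    calc |Real.sin (ν * (2 * u - t))| * (gb a u * gb a (t - u)) ≤ 1 * (gb a u * gb a (t - u)) :=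
          mul_le_mul_of_nonneg_right (Real.abs_sin_le_one _) h1.le
      _ = _ := one_mul _
  have hs0 : ∫ u : ℝ, Real.sin (ν * (2 * u - t)) * (gb a u * gb a (t - u)) = 0 := by
    have h1 := integral_sub_left_eq_self
      (fun u : ℝ => Real.sin (ν * (2 * u - t)) * (gb a u * gb a (t - u))) volume t
    have h2 : (fun u : ℝ => Real.sin (ν * (2 * (t - u) - t)) * (gb a (t - u) * gb a (t - (t - u)))) =
        fun u : ℝ => -(Real.sin (ν * (2 * u - t)) * (gb a u * gb a (t - u))) := by
      funext u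
      have e3 : t - (t - u) = u := by ring
      have e4 : ν * (2 * (t - u) - t) = -(ν * (2 * u - t)) := by ring
      rw [e3, e4, Real.sin_neg]
      ring
    rw [h2, integral_neg] at h1
    linarith
  have hJ1 : Integrable (fun u : ℝ =>
      ((Real.cos (ν * (2 * u - t)) * (gb a u * gb a (t - u)) : ℝ) : ℂ)) := (gp_int a ha ν t).ofReal
  have hJ2 : Integrable (fun u : ℝ =>
      ((Real.sin (ν * (2 * u - t)) * (gb a u * gb a (t - u)) : ℝ) : ℂ) * I) :=
    (hs_int.ofReal (𝕜 := ℂ)).mul_const I
  rw [integral_add hJ1 hJ2, integral_mul_const,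
    integral_complex_ofReal, integral_complex_ofReal, hs0]
  unfold gp
  simp

theorem gp_lap (a : ℝ) (ha : 0 < a) (ν : ℝ) (s : ℂ) (hs : 0 ≤ s.re) :
    ∫ t : ℝ, ((gp a ν t : ℝ) : ℂ) * cexp (s * t) =
      Gammaℝ (s + ((a : ℂ) + ν * I)) * Gammaℝ (s + ((a : ℂ) - ν * I)) := by
  have h1 : 0 < ((a : ℂ) + ν * I).re := by simpa using ha
  have h2 : 0 < ((a : ℂ) - ν * I).re := by simpa using ha
  have h3 := integral_convolution (ContinuousLinearMap.mul ℝ ℂ) (gc_int _ h1 s hs) (gc_int _ h2 s hs)
  rw [ContinuousLinearMap.mul_apply', gc_lap _ h1 s hs, gc_lap _ h2 s hs] at h3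
  rw [← h3]
  refine integral_congr_ae (Eventually.of_forall fun t => ?_)
  simp only [convolution, ContinuousLinearMap.mul_apply']
  rw [gp_conv a ha ν t, ← integral_mul_const]
  refine integral_congr_ae (Eventually.of_forall fun u => ?_)
  simp only
  have e1 : cexp (s * t) = cexp (s * u) * cexp (s * ((t - u : ℝ) : ℂ)) := by
    rw [← Complex.exp_add]
    congr 1
    push_cast
    ring
  rw [e1]
  ring

/-! ## Linear factors -/

/-- the kernel of `(s - c) Γ_ℝ(s + a)` -/
noncomputable def gq (c a t : ℝ) : ℝ := 2 * Real.pi * gb (a + 2) t - (a + c) * gb a t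

/-- its majorant -/
noncomputable def gq0 (c a t : ℝ) : ℝ := 2 * Real.pi * gb (a + 2) t + (|a + c| + 1) * gb a t

theorem gb_add_two (a t : ℝ) : gb (a + 2) t = Real.exp (2 * t) * gb a t := by
  unfold gb
  have : Real.exp ((a + 2) * t) = Real.exp (2 * t) * Real.exp (a * t) := by
    rw [← Real.exp_add]
    congr 1
    ring
  rw [this]
  ring

theorem gq_sk (c a : ℝ) (ha : 0 < a) : IsSK (gq c a) (gq0 c a) := by
  have hk := gb_ker a ha
  have hk2 := gb_ker (a + 2) (by linarith)
  have h0 : IsKer (gq0 c a) := add_ker (smul_ker hk2 (2 * Real.pi) (by positivity))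
    (smul_ker hk (|a + c| + 1) (by positivity))
  refine ⟨h0, ?_, fun t => ?_, ?_⟩
  · have h1 := gb_cont a
    have h2 := gb_cont (a + 2)
    unfold gq
    fun_prop
  · unfold gq gq0
    have h1 := gb_pos a t
    have h2 := mul_pos (mul_pos two_pos Real.pi_pos) (gb_pos (a + 2) t)
    refine (abs_sub _ _).trans ?_
    rw [abs_of_pos h2, abs_mul, abs_of_pos h1]
    linarith
  · refine ⟨1 / 2, |a + c| + 1, by norm_num, fun t ht => ?_⟩
    unfold gq gq0
    rw [gb_add_two]
    have h1 := gb_pos a t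
    have h2 := Real.add_one_le_exp (2 * t)
    have h3 := Real.pi_gt_three
    have h4 := le_abs_self (a + c)
    have h5 := abs_nonneg (a + c)
    have h6 : 3 / 2 * (|a + c| + 1) ≤ Real.pi * Real.exp (2 * t) := by nlinarith
    have h7 := mul_le_mul_of_nonneg_right h6 h1.le
    have h8 := mul_le_mul_of_nonneg_right h4 h1.le
    nlinarith [mul_nonneg h5 h1.le]

theorem gq_lap (c a : ℝ) (ha : 0 < a) (s : ℂ) (hs : 0 ≤ s.re) :
    ∫ t : ℝ, ((gq c a t : ℝ) : ℂ) * cexp (s * t) = (s - c) * Gammaℝ (s + a) := by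
  have h1 := lap_int0 (gb_ker a ha) s hs
  have h2 := lap_int0 (gb_ker (a + 2) (by linarith)) s hs
  have e1 : (fun t : ℝ => ((gq c a t : ℝ) : ℂ) * cexp (s * t)) = fun t : ℝ =>
      (2 * Real.pi : ℂ) * (((gb (a + 2) t : ℝ) : ℂ) * cexp (s * t)) -
        ((a : ℂ) + c) * (((gb a t : ℝ) : ℂ) * cexp (s * t)) := by
    funext t
    unfold gq
    push_cast
    ring
  rw [e1, integral_sub (h2.const_mul _) (h1.const_mul _), integral_const_mul, integral_const_mul,
    gb_lap a ha s hs, gb_lap (a + 2) (by linarith) s hs]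
  have hne : s + a ≠ 0 := by
    intro h0
    have := congrArg Complex.re h0
    simp at this
    linarith
  have e2 : s + ((a + 2 : ℝ) : ℂ) = s + a + 2 := by
    push_cast
    ring
  rw [e2, Complex.Gammaℝ_add_two hne]
  have hpc : (Real.pi : ℂ) ≠ 0 := by exact_mod_cast Real.pi_ne_zero
  field_simp
  ring

end Pool.Agent.W355.LJ
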