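import Pool.Agent.W355.LJ.Hc2
import Pool.Agent.W355.LJ.NewC
import Pool.Agent.H82R3.AR.Fin

set_option autoImplicit false

/-!
# Ray class characters of `ℚ(i)`, and forms of level `N`, as completed L-functions
-/

namespace Pool.Agent.W355.LJ

open Complex Filter Topology MeasureTheory Set
open scoped ComplexConjugate
open Pool.Agent.H471R3.GJ (Hc IsHc)
open Pool.Agent.H82R3.AR (TH)

/-- The data of a theta series `∑ b(n) e^{-π n y}` of weight one. -/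
noncomputable def thHc (κ : ℝ) (b : ℕ → ℂ) (w : ℂ) : Hc where
  φ y := TH b (y / κ)
  b := b
  k := 1
  h := 2 * κ
  p := 1
  β := 1
  B := 1
  ε := w

theorem th_isHc {κ : ℝ} {b : ℕ → ℂ} {w : ℂ} (h : Pool.Agent.H82R3.AR.Th κ b w) (h1 : b 1 = 1) :
    IsHc (thHc κ b w) := by
  have hκ : 0 < κ := lt_of_lt_of_le one_pos h.k1
  refine ⟨one_pos, by show 0 < 2 * κ; positivity, le_refl 1, zero_le_one, le_refl 1, h1, ?_, ?_,
    h.w1, ?_⟩
  · intro m hm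
    show ‖b m‖ ≤ 1 * (m : ℝ) ^ (1 : ℝ)
    rw [one_mul, Real.rpow_one]
    refine (h.bd m).trans ?_
    exact_mod_cast Nat.card_divisors_le_self m
  · intro y hy
    have h2 := Pool.Agent.H82R3.AR.L1.TH_hasSum b h.bd (y := y / κ) (div_pos hy hκ)
    have h3 := (hasSum_nat_add_iff' 1).2 h2
    simp only [Finset.range_one, Finset.sum_singleton,
      Pool.Agent.H82R3.AR.L1.cf_zero b h.b0, zero_mul, sub_zero] at h3
    refine h3.congr_fun ?_
    intro m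
    show b (m + 1) * ((Real.exp (-(2 * Real.pi * ((m + 1 : ℕ) : ℝ) ^ 1 * y / (2 * κ))) : ℝ) : ℂ) = _
    unfold Pool.Agent.H82R3.AR.L1.cf
    congr 3
    rw [pow_one]
    field_simp
  · intro y hy
    show TH b (1 / y / κ) = w * ((y ^ (1 : ℝ) : ℝ) : ℂ) * conj (TH b (y / κ))
    rw [Real.rpow_one, ← h.fe y hy]
    congr 1
    field_simp

/-- the residue ring modulo `q` -/
abbrev ZQ (q : GaussianInt) := GaussianInt ⧸ Ideal.span {q}

/-- a character of `(ℤ[i]/q)ˣ` as a function on `ℤ[i]` -/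
noncomputable def chQ (q : GaussianInt) (χ : MulChar (ZQ q) ℂ) : GaussianInt →* ℂ :=
  χ.toMonoidHom.comp (Ideal.Quotient.mk (Ideal.span {q})).toMonoidHom

theorem chQ_per (q : GaussianInt) (χ : MulChar (ZQ q) ℂ) (a b : GaussianInt) (h : q ∣ a - b) :
    chQ q χ a = chQ q χ b := by
  have h1 : (Ideal.Quotient.mk (Ideal.span {q})) a = (Ideal.Quotient.mk (Ideal.span {q})) b := by
    rw [Ideal.Quotient.eq, Ideal.mem_span_singleton]
    exact h
  show χ ((Ideal.Quotient.mk (Ideal.span {q})) a) = χ ((Ideal.Quotient.mk (Ideal.span {q})) b)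
  rw [h1]

theorem zq_unit (q a : GaussianInt) (h : IsCoprime a q) :
    IsUnit ((Ideal.Quotient.mk (Ideal.span {q})) a) := by
  obtain ⟨u, v, huv⟩ := h
  refine IsUnit.of_mul_eq_one ((Ideal.Quotient.mk (Ideal.span {q})) u) ?_
  rw [← map_mul, ← map_one (Ideal.Quotient.mk (Ideal.span {q})), Ideal.Quotient.eq,
    Ideal.mem_span_singleton]
  exact ⟨-v, by linear_combination huv⟩

theorem chQ_ne (q : GaussianInt) (χ : MulChar (ZQ q) ℂ) (a : GaussianInt) (h : IsCoprime a q) :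
    chQ q χ a ≠ 0 := by
  have h1 := (zq_unit q a h).map χ.toMonoidHom
  exact h1.ne_zero

theorem zq_fin {q : GaussianInt} (hq : q ≠ 0) : Finite (ZQ q) := by
  have hN : 0 < q.norm := GaussianInt.norm_pos.2 hq
  let f : Fin q.norm.natAbs × Fin q.norm.natAbs → ZQ q := fun x =>
    Ideal.Quotient.mk (Ideal.span {q}) (⟨((x.1 : ℕ) : ℤ), ((x.2 : ℕ) : ℤ)⟩ : GaussianInt)
  refine Finite.of_surjective f ?_
  intro y
  obtain ⟨a, rfl⟩ := Ideal.Quotient.mk_surjective y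
  have h1 : (a.re % q.norm).toNat < q.norm.natAbs := by
    have := Int.emod_nonneg a.re hN.ne'
    have := Int.emod_lt_of_pos a.re hN
    omega
  have h2 : (a.im % q.norm).toNat < q.norm.natAbs := by
    have := Int.emod_nonneg a.im hN.ne'
    have := Int.emod_lt_of_pos a.im hN
    omega
  refine ⟨(⟨_, h1⟩, ⟨_, h2⟩), ?_⟩
  simp only [f]
  rw [Int.toNat_of_nonneg (Int.emod_nonneg a.re hN.ne'),
    Int.toNat_of_nonneg (Int.emod_nonneg a.im hN.ne'), Ideal.Quotient.eq,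
    Ideal.mem_span_singleton]
  have h3 : q ∣ ((q.norm : ℤ) : GaussianInt) := ⟨star q, Zsqrtd.norm_eq_mul_conj q⟩
  have h4 : (⟨a.re % q.norm, a.im % q.norm⟩ : GaussianInt) - a =
      ((q.norm : ℤ) : GaussianInt) * (⟨-(a.re / q.norm), -(a.im / q.norm)⟩ : GaussianInt) := by
    have e1 := Int.emod_add_mul_ediv a.re q.norm
    have e2 := Int.emod_add_mul_ediv a.im q.norm
    ext
    · rw [Zsqrtd.re_sub, Zsqrtd.re_mul]
      simp only [Zsqrtd.re_intCast, Zsqrtd.im_intCast]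
      linarith
    · rw [Zsqrtd.im_sub, Zsqrtd.im_mul]
      simp only [Zsqrtd.re_intCast, Zsqrtd.im_intCast]
      linarith
  rw [h4]
  exact Dvd.dvd.mul_right h3 _

theorem chQ_norm (q : GaussianInt) (hq : q ≠ 0) (χ : MulChar (ZQ q) ℂ) (a : GaussianInt)
    (h : IsCoprime a q) : ‖chQ q χ a‖ = 1 := by
  have h0 := zq_fin hq
  obtain ⟨u, hu⟩ := zq_unit q a h
  have h1 : u ^ (Nat.card (ZQ q)ˣ) = 1 := pow_card_eq_one'
  have h2 : chQ q χ a = χ (u : ZQ q) := by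
    rw [hu]
    rfl
  have h3 : (chQ q χ a) ^ (Nat.card (ZQ q)ˣ) = 1 := by
    rw [h2, ← map_pow, ← Units.val_pow_eq_pow_val, h1, Units.val_one, map_one]
  exact Complex.norm_eq_one_of_pow_eq_one h3 Nat.card_pos.ne'

/-- `χ` is primitive -/
def PrimQ (q : GaussianInt) (χ : MulChar (ZQ q) ℂ) : Prop :=
  ∀ d : GaussianInt, d ∣ q → ¬ q ∣ d →
    ∃ u : GaussianInt, IsCoprime u q ∧ d ∣ u - 1 ∧ χ (Ideal.Quotient.mk (Ideal.span {q}) u) ≠ 1

theorem zq_cop (q a : GaussianInt) (h : IsUnit ((Ideal.Quotient.mk (Ideal.span {q})) a)) :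
    IsCoprime a q := by
  obtain ⟨y, hy⟩ := h.exists_right_inv
  obtain ⟨b, rfl⟩ := Ideal.Quotient.mk_surjective y
  rw [← map_mul, ← map_one (Ideal.Quotient.mk (Ideal.span {q})), Ideal.Quotient.eq,
    Ideal.mem_span_singleton] at hy
  obtain ⟨c, hc⟩ := hy
  exact ⟨b, -c, by linear_combination hc⟩

theorem hc_of_primQ (q : GaussianInt) (hq1 : 1 < Zsqrtd.norm q) (χ : MulChar (ZQ q) ℂ)
    (h : PrimQ q χ) (hχ : chQ q χ ⟨0, 1⟩ = 1) : Pool.Agent.H82R3.AR.HC q (chQ q χ) := by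
  have hq : q ≠ 0 := by
    rintro rfl
    rw [Zsqrtd.norm_zero] at hq1
    omega
  refine ⟨hq, fun hu => ?_, chQ_per q χ, ?_, chQ_norm q hq χ, hχ, h⟩
  · have h1 : q.norm.natAbs = 1 := Zsqrtd.norm_eq_one_iff.2 hu
    omega
  intro a
  constructor
  · intro h1
    by_contra h2
    apply h1
    have h3 : ¬ IsUnit ((Ideal.Quotient.mk (Ideal.span {q})) a) := fun h4 => h2 (zq_cop q a h4)
    exact χ.map_nonunit h3
  · exact chQ_ne q χ a

/-- The ray class characters of `ℚ(i)`. -/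
theorem ray_isC (q : GaussianInt) (hq1 : 1 < Zsqrtd.norm q)
    (χ : MulChar (ZQ q) ℂ) (h : PrimQ q χ) (hχ : chQ q χ ⟨0, 1⟩ = 1) :
    ∃ (w : ℂ) (Λ : ℂ → ℂ), ‖w‖ = 1 ∧
      IsC [Pc.one 0, Pc.one 1] (Real.log (2 * ‖Pool.Agent.H304R3.HK.tc q‖))
        (Pool.Agent.H82R3.AR.bH (chQ q χ)) w Λ := by
  have hHC := hc_of_primQ q hq1 χ h hχ
  obtain ⟨w, hw⟩ := Pool.Agent.H82R3.AR.th_chi q _ hHC
  have h1 := Pool.Agent.H82R3.AR.T1.bH_one q _ hHC
  have h2 := th_isHc hw h1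
  have h3 := hc_isC1 _ h2 rfl
  refine ⟨w, Lam1 (thHc ‖Pool.Agent.H304R3.HK.tc q‖ (Pool.Agent.H82R3.AR.bH (chQ q χ)) w),
    hw.w1, ?_⟩
  have e1 : ((thHc ‖Pool.Agent.H304R3.HK.tc q‖ (Pool.Agent.H82R3.AR.bH (chQ q χ)) w).k - 1) / 2
      = 0 := by
    show ((1 : ℝ) - 1) / 2 = 0
    norm_num
  have e2 : ((thHc ‖Pool.Agent.H304R3.HK.tc q‖ (Pool.Agent.H82R3.AR.bH (chQ q χ)) w).k + 1) / 2
      = 1 := by
    show ((1 : ℝ) + 1) / 2 = 1
    norm_num
  rw [e1, e2] at h3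
  refine h3.congr fun n hn => ?_
  show Pool.Agent.H82R3.AR.bH (chQ q χ) n = Pool.Agent.H82R3.AR.bH (chQ q χ) n *
    ((((n : ℝ) ^ (-(0 : ℝ)) : ℝ)) : ℂ)
  simp

/-- Forms of level `N` and weight `k`. -/
theorem nf_isC {N k : ℕ} [NeZero N] (f : CuspForm (CongruenceSubgroup.Gamma1 N : Subgroup (GL (Fin 2) ℝ)) (k : ℤ))
    {w : ℂ} (hk : 1 ≤ k) (hf : IsNF N k f w) :
    ∃ (w' : ℂ) (Λ : ℂ → ℂ), ‖w'‖ = 1 ∧
      IsC [Pc.one (((k : ℝ) - 1) / 2), Pc.one (((k : ℝ) + 1) / 2)] (1 / 2 * Real.log N)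
        (fun n => (UpperHalfPlane.qExpansion 1 f).coeff n *
          ((((n : ℝ) ^ (-(((k : ℝ) - 1) / 2)) : ℝ)) : ℂ)) w' Λ := by
  obtain ⟨B, hB⟩ := nf_isHc f hk hf
  have h3 := hc_isC1 _ hB rfl
  refine ⟨(nfHc N k f B w).ε, Lam1 (nfHc N k f B w), hB.ε_norm, ?_⟩
  have e1 : Real.log (nfHc N k f B w).h = 1 / 2 * Real.log N := by
    show Real.log (Real.sqrt N) = _
    rw [Real.log_sqrt (Nat.cast_nonneg N)]
    ring
  rw [e1] at h3
  exact h3

end Pool.Agent.W355.LJ
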