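import Pool.Agent.W355.LJ.Ker

set_option autoImplicit false

/-!
# Signed kernels, dominated by a kernel
-/

namespace Pool.Agent.W355.LJ

open Complex Filter Topology MeasureTheory Set

/-- A signed kernel, dominated by a kernel `g0` and comparable to it on the right. -/
structure IsSK (g g0 : ℝ → ℝ) : Prop where
  ker : IsKer g0
  cont : Continuous g
  le : ∀ t, |g t| ≤ g0 t
  ge : ∃ c T : ℝ, 0 < c ∧ ∀ t, T ≤ t → c * g0 t ≤ g t

theorem IsKer.sk {g : ℝ → ℝ} (hg : IsKer g) : IsSK g g :=
  ⟨hg, hg.cont, fun t => (abs_of_pos (hg.pos t)).le, 1, 0, one_pos, fun t _ => by rw [one_mul]⟩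

theorem IsSK.int {g g0 : ℝ → ℝ} (hg : IsSK g g0) : Integrable g :=
  hg.ker.int.mono' hg.cont.aestronglyMeasurable (Eventually.of_forall fun t => hg.le t)

theorem sk_int {g g0 h h0 : ℝ → ℝ} (hg : IsSK g g0) (hh : IsSK h h0) (t : ℝ) :
    Integrable (fun u : ℝ => g u * h (t - u)) := by
  refine (cv_int hg.ker hh.ker t).mono' ?_ (Eventually.of_forall fun u => ?_)
  · exact (hg.cont.mul (hh.cont.comp (continuous_const.sub continuous_id))).aestronglyMeasurable
  · rw [Real.norm_eq_abs, abs_mul]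
    exact mul_le_mul (hg.le u) (hh.le _) (abs_nonneg _) (hg.ker.pos u).le

theorem sk_cont {g g0 h h0 : ℝ → ℝ} (hg : IsSK g g0) (hh : IsSK h h0) : Continuous (cv g h) := by
  obtain ⟨C, hC, hb⟩ := hh.ker.bd
  unfold cv
  refine continuous_of_dominated (bound := fun u => g0 u * C) (fun t => (sk_int hg hh t).1)
    (fun t => Eventually.of_forall fun u => ?_) (hg.ker.int.mul_const C)
    (Eventually.of_forall fun u => ?_)
  · rw [Real.norm_eq_abs, abs_mul]
    exact mul_le_mul (hg.le u) ((hh.le _).trans (hb _)) (abs_nonneg _) (hg.ker.pos u).le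
  · exact continuous_const.mul (hh.cont.comp (continuous_id.sub continuous_const))

theorem cv_sk {g g0 h h0 : ℝ → ℝ} (hg : IsSK g g0) (hh : IsSK h h0) :
    IsSK (cv g h) (cv g0 h0) := by
  refine ⟨cv_ker hg.ker hh.ker, sk_cont hg hh, fun t => ?_, ?_⟩
  · unfold cv
    rw [← Real.norm_eq_abs]
    refine (norm_integral_le_integral_norm _).trans ?_
    refine integral_mono (sk_int hg hh t).norm (cv_int hg.ker hh.ker t) fun u => ?_
    simp only
    rw [Real.norm_eq_abs, abs_mul]
    exact mul_le_mul (hg.le u) (hh.le _) (abs_nonneg _) (hg.ker.pos u).le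
  · obtain ⟨c1, T1, hc1, h1⟩ := hg.ge
    obtain ⟨c2, T2, hc2, h2⟩ := hh.ge
    obtain ⟨c3, hc3, h3⟩ := hg.ker.low T1
    obtain ⟨c4, hc4, h4⟩ := hh.ker.low T2
    set η : ℝ := c1 * c2 / (2 * (1 + c1 * c2) * (1 / c3 + 1 / c4)) with hη
    have hη0 : 0 < η := by positivity
    obtain ⟨T3, h5⟩ := hh.ker.dom 1 η 0 one_pos hη0
    obtain ⟨T4, h6⟩ := hg.ker.dom 1 η 0 one_pos hη0
    refine ⟨c1 * c2 / 2, max (T1 + 1 + T3) (T2 + 1 + T4), by positivity, fun t ht => ?_⟩
    have ht1 : T1 + 1 + T3 ≤ t := (le_max_left _ _).trans ht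
    have ht2 : T2 + 1 + T4 ≤ t := (le_max_right _ _).trans ht
    have hi0 := cv_int hg.ker hh.ker t
    have hi1 := hi0.comp_add_right 1
    have hi2 := hi0.comp_sub_right 1
    have hpt : ∀ u : ℝ, c1 * c2 * (g0 u * h0 (t - u)) - ((1 + c1 * c2) * (η / c3) *
        (g0 (u + 1) * h0 (t - (u + 1))) + (1 + c1 * c2) * (η / c4) *
        (g0 (u - 1) * h0 (t - (u - 1)))) ≤ g u * h (t - u) := by
      intro u
      have hgp := hg.ker.pos u
      have hhp := hh.ker.pos (t - u)
      have hp1 : 0 ≤ (1 + c1 * c2) * (η / c3) * (g0 (u + 1) * h0 (t - (u + 1))) := by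
        have h7 := (hg.ker.pos (u + 1)).le
        have h8 := (hh.ker.pos (t - (u + 1))).le
        positivity
      have hp2 : 0 ≤ (1 + c1 * c2) * (η / c4) * (g0 (u - 1) * h0 (t - (u - 1))) := by
        have h7 := (hg.ker.pos (u - 1)).le
        have h8 := (hh.ker.pos (t - (u - 1))).le
        positivity
      have habs : -(g0 u * h0 (t - u)) ≤ g u * h (t - u) := by
        have h7 : |g u * h (t - u)| ≤ g0 u * h0 (t - u) := by
          rw [abs_mul]
          exact mul_le_mul (hg.le u) (hh.le _) (abs_nonneg _) hgp.le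
        exact (abs_le.1 h7).1
      rcases le_or_gt T1 u with hu | hu
      · rcases le_or_gt T2 (t - u) with hv | hv
        · have h7 := h1 u hu
          have h8 := h2 (t - u) hv
          have h9 : c1 * g0 u * (c2 * h0 (t - u)) ≤ g u * h (t - u) :=
            mul_le_mul h7 h8 (by positivity) ((by positivity : (0 : ℝ) ≤ c1 * g0 u).trans h7)
          nlinarith
        · have h7 := h4 (t - u) hv.le
          have h8 := h6 (u - 1) (by linarith) 1 le_rfl
          rw [sub_add_cancel] at h8
          have e1 : Real.exp (-0 * 1) = 1 := by simp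
          rw [e1, mul_one] at h8
          have e2 : t - (u - 1) = t - u + 1 := by ring
          have h9 : g0 u * h0 (t - u) ≤ η / c4 * (g0 (u - 1) * h0 (t - (u - 1))) := by
            rw [e2]
            have h10 : h0 (t - u) ≤ 1 / c4 * h0 (t - u + 1) := by
              rw [one_div, ← div_eq_inv_mul, le_div_iff₀ hc4]
              linarith
            calc g0 u * h0 (t - u) ≤ (η * g0 (u - 1)) * (1 / c4 * h0 (t - u + 1)) :=
                  mul_le_mul h8 h10 hhp.le (by have := hg.ker.pos (u - 1); positivity)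
              _ = _ := by ring
          have h10 := mul_le_mul_of_nonneg_left h9 (by positivity : (0 : ℝ) ≤ 1 + c1 * c2)
          nlinarith
      · have h7 := h3 u hu.le
        have h8 := h5 (t - (u + 1)) (by linarith) 1 le_rfl
        have e2 : t - (u + 1) + 1 = t - u := by ring
        have e1 : Real.exp (-0 * 1) = 1 := by simp
        rw [e1, mul_one, e2] at h8
        have h9 : g0 u * h0 (t - u) ≤ η / c3 * (g0 (u + 1) * h0 (t - (u + 1))) := by
          have h10 : g0 u ≤ 1 / c3 * g0 (u + 1) := by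
            rw [one_div, ← div_eq_inv_mul, le_div_iff₀ hc3]
            linarith
          calc g0 u * h0 (t - u) ≤ (1 / c3 * g0 (u + 1)) * (η * h0 (t - (u + 1))) :=
                mul_le_mul h10 h8 hhp.le (by have := hg.ker.pos (u + 1); positivity)
            _ = _ := by ring
        have h10 := mul_le_mul_of_nonneg_left h9 (by positivity : (0 : ℝ) ≤ 1 + c1 * c2)
        nlinarith
    have hI1 : Integrable (fun u : ℝ => (1 + c1 * c2) * (η / c3) *
        (g0 (u + 1) * h0 (t - (u + 1)))) := hi1.const_mul _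
    have hI2 : Integrable (fun u : ℝ => (1 + c1 * c2) * (η / c4) *
        (g0 (u - 1) * h0 (t - (u - 1)))) := hi2.const_mul _
    have hI0 : Integrable (fun u : ℝ => c1 * c2 * (g0 u * h0 (t - u))) := hi0.const_mul _
    have h7 := integral_mono (hI0.sub (hI1.add hI2)) (sk_int hg hh t) hpt
    have h8 : ∫ u, (c1 * c2 * (g0 u * h0 (t - u)) - ((1 + c1 * c2) * (η / c3) *
        (g0 (u + 1) * h0 (t - (u + 1))) + (1 + c1 * c2) * (η / c4) *
        (g0 (u - 1) * h0 (t - (u - 1))))) = c1 * c2 * cv g0 h0 t -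
        ((1 + c1 * c2) * (η / c3) * cv g0 h0 t + (1 + c1 * c2) * (η / c4) * cv g0 h0 t) := by
      have e0 : ∫ u, (c1 * c2 * (g0 u * h0 (t - u)) - ((1 + c1 * c2) * (η / c3) *
          (g0 (u + 1) * h0 (t - (u + 1))) + (1 + c1 * c2) * (η / c4) *
          (g0 (u - 1) * h0 (t - (u - 1))))) = (∫ u, c1 * c2 * (g0 u * h0 (t - u))) -
          ∫ u, ((1 + c1 * c2) * (η / c3) *
          (g0 (u + 1) * h0 (t - (u + 1))) + (1 + c1 * c2) * (η / c4) *
          (g0 (u - 1) * h0 (t - (u - 1)))) := integral_sub hI0 (hI1.add hI2)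
      rw [e0, integral_add hI1 hI2, integral_const_mul,
        integral_const_mul, integral_const_mul,
        integral_add_right_eq_self (fun u => g0 u * h0 (t - u)) 1,
        integral_sub_right_eq_self (fun u => g0 u * h0 (t - u)) 1]
      rfl
    have h9 : c1 * c2 * cv g0 h0 t - ((1 + c1 * c2) * (η / c3) * cv g0 h0 t +
        (1 + c1 * c2) * (η / c4) * cv g0 h0 t) ≤ cv g h t := by
      rw [← h8]
      exact h7
    refine le_trans (le_of_eq ?_) h9
    have h10 : (1 + c1 * c2) * (η / c3) + (1 + c1 * c2) * (η / c4) = c1 * c2 / 2 := by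
      rw [hη]
      field_simp
    linear_combination (cv g0 h0 t) * h10

end Pool.Agent.W355.LJ
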