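import Pool.Agent.W355.LJ.GK

set_option autoImplicit false

/-!
# The theta series of a Dirichlet series
-/

namespace Pool.Agent.W355.LJ

open Complex Filter Topology MeasureTheory Set

/-- Coefficients. -/
structure IsB (b : ℕ → ℝ) (β B : ℝ) : Prop where
  β_nonneg : 0 ≤ β
  B_one : 1 ≤ B
  one : b 1 = 1
  le : ∀ m : ℕ, 1 ≤ m → |b m| ≤ B * (m : ℝ) ^ β

/-- The theta series. -/
noncomputable def Th (b : ℕ → ℝ) (L : ℝ) (G : ℝ → ℝ) (t : ℝ) : ℝ :=
  ∑' m : ℕ, b (m + 1) * G (t + Real.log ((m + 1 : ℕ) : ℝ) - L)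

theorem sum_two : Summable (fun m : ℕ => ((m + 1 : ℕ) : ℝ) ^ (-2 : ℝ)) := by
  have h1 : Summable (fun m : ℕ => (m : ℝ) ^ (-2 : ℝ)) := Real.summable_nat_rpow.2 (by norm_num)
  exact (summable_nat_add_iff 1).2 h1

section

variable {b : ℕ → ℝ} {β B : ℝ} (hb : IsB b β B) {G : ℝ → ℝ} {α : ℝ} {γ : ℂ → ℂ} (hG : IsG G α γ)
  (L : ℝ)

include hb in
theorem b_term (m : ℕ) (C A x : ℝ) (hA : β + 2 ≤ A) (hx : 0 ≤ x)
    (hC : x ≤ C * Real.exp (-A * Real.log ((m + 1 : ℕ) : ℝ))) (hC0 : 0 ≤ C) :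
    |b (m + 1)| * x ≤ B * C * ((m + 1 : ℕ) : ℝ) ^ (-2 : ℝ) := by
  have hm0 : (0 : ℝ) < ((m + 1 : ℕ) : ℝ) := by positivity
  have hm1 : (1 : ℝ) ≤ ((m + 1 : ℕ) : ℝ) := by
    push_cast
    have : (0 : ℝ) ≤ m := Nat.cast_nonneg m
    linarith
  have e1 : Real.exp (-A * Real.log ((m + 1 : ℕ) : ℝ)) = ((m + 1 : ℕ) : ℝ) ^ (-A) := by
    rw [Real.rpow_def_of_pos hm0]
    congr 1
    ring
  rw [e1] at hC
  have hB := hb.B_one
  calc |b (m + 1)| * x ≤ (B * ((m + 1 : ℕ) : ℝ) ^ β) * (C * ((m + 1 : ℕ) : ℝ) ^ (-A)) :=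
        mul_le_mul (hb.le (m + 1) (by omega)) hC hx (by positivity)
    _ = B * C * ((m + 1 : ℕ) : ℝ) ^ (β + -A) := by
        rw [Real.rpow_add hm0]
        ring
    _ ≤ B * C * ((m + 1 : ℕ) : ℝ) ^ (-2 : ℝ) := by
        refine mul_le_mul_of_nonneg_left ?_ (by positivity)
        exact Real.rpow_le_rpow_of_exponent_le hm1 (by linarith)

include hb hG in
/-- the terms are dominated on half lines -/
theorem th_dom (t0 : ℝ) : ∃ C : ℝ, 0 < C ∧ ∀ t, t0 ≤ t → ∀ m : ℕ,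
    |b (m + 1) * G (t + Real.log ((m + 1 : ℕ) : ℝ) - L)| ≤ C * ((m + 1 : ℕ) : ℝ) ^ (-2 : ℝ) := by
  have hA : α ≤ β + 2 + α := by linarith [hb.β_nonneg]
  obtain ⟨C, hC, h1⟩ := hG.exp_le (β + 2 + α) hA
  have hB := hb.B_one
  have hα := hG.α1
  refine ⟨B * (C * Real.exp (-(β + 2 + α) * (t0 - L))), by positivity, fun t ht m => ?_⟩
  rw [abs_mul]
  refine b_term hb m (C * Real.exp (-(β + 2 + α) * (t0 - L))) (β + 2 + α) _ (by linarith)
    (abs_nonneg _) ?_ (by positivity)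
  refine (h1 _).trans ?_
  rw [mul_assoc, ← Real.exp_add]
  refine mul_le_mul_of_nonneg_left (Real.exp_le_exp.2 ?_) hC.le
  have h2 : 0 ≤ (β + 2 + α) * (t - t0) :=
    mul_nonneg (by linarith [hb.β_nonneg]) (by linarith)
  nlinarith

include hb hG in
theorem th_summable (t : ℝ) :
    Summable (fun m : ℕ => b (m + 1) * G (t + Real.log ((m + 1 : ℕ) : ℝ) - L)) := by
  obtain ⟨C, hC, h⟩ := th_dom hb hG L t
  exact Summable.of_norm_bounded (sum_two.mul_left C) fun m => by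
    rw [Real.norm_eq_abs]
    exact h t le_rfl m

include hb hG in
theorem th_cont : Continuous (Th b L G) := by
  rw [continuous_iff_continuousAt]
  intro t
  obtain ⟨C, hC, h⟩ := th_dom hb hG L (t - 1)
  have hc := hG.cont
  have h1 : ContinuousOn (Th b L G) (Set.Ici (t - 1)) := by
    unfold Th
    refine continuousOn_tsum (u := fun m : ℕ => C * ((m + 1 : ℕ) : ℝ) ^ (-2 : ℝ)) (fun m => ?_)
      (sum_two.mul_left C) (fun m x hx => ?_)
    · exact (by fun_prop : Continuous fun t : ℝ =>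
        b (m + 1) * G (t + Real.log ((m + 1 : ℕ) : ℝ) - L)).continuousOn
    · rw [Real.norm_eq_abs]
      exact h x hx m
  exact h1.continuousAt (Ici_mem_nhds (by linarith))

include hb hG in
/-- the first term dominates on the right -/
theorem th_main : ∃ T : ℝ, ∀ t, T ≤ t → 0 < G (t - L) ∧
    |Th b L G t - G (t - L)| ≤ 1 / 2 * G (t - L) := by
  obtain ⟨T1, hT1⟩ := hG.pos
  set S : ℝ := ∑' m : ℕ, ((m + 1 : ℕ) : ℝ) ^ (-2 : ℝ) with hS
  have hS0 : 0 ≤ S := tsum_nonneg fun m => by positivity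
  have hB := hb.B_one
  obtain ⟨T2, hT2⟩ := hG.dom (Real.log 2) (1 / (2 * B * (S + 1))) (β + 2) (Real.log_pos one_lt_two)
    (by positivity)
  refine ⟨max T1 T2 + L, fun t ht => ?_⟩
  have ht1 : T1 ≤ t - L := by linarith [le_max_left T1 T2]
  have ht2 : T2 ≤ t - L := by linarith [le_max_right T1 T2]
  have hpos := hT1 _ ht1
  refine ⟨hpos, ?_⟩
  have hsum := th_summable hb hG L t
  have h0 : Th b L G t = G (t - L) +
      ∑' m : ℕ, b (m + 1 + 1) * G (t + Real.log ((m + 1 + 1 : ℕ) : ℝ) - L) := by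
    unfold Th
    rw [hsum.tsum_eq_zero_add]
    congr 1
    rw [zero_add, hb.one, one_mul]
    congr 1
    simp
  rw [h0, add_sub_cancel_left, ← Real.norm_eq_abs]
  have hb2 : ∀ m : ℕ, ‖b (m + 1 + 1) * G (t + Real.log ((m + 1 + 1 : ℕ) : ℝ) - L)‖ ≤
      1 / (2 * (S + 1)) * G (t - L) * ((m + 1 + 1 : ℕ) : ℝ) ^ (-2 : ℝ) := by
    intro m
    rw [Real.norm_eq_abs, abs_mul]
    have hlog : Real.log 2 ≤ Real.log ((m + 1 + 1 : ℕ) : ℝ) := by
      refine Real.log_le_log two_pos ?_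
      push_cast
      have : (0 : ℝ) ≤ m := Nat.cast_nonneg m
      linarith
    have h1 := hT2 (t - L) ht2 _ hlog
    have e1 : t - L + Real.log ((m + 1 + 1 : ℕ) : ℝ) = t + Real.log ((m + 1 + 1 : ℕ) : ℝ) - L := by
      ring
    rw [e1] at h1
    have h2 := b_term hb (m + 1) (1 / (2 * B * (S + 1)) * G (t - L)) (β + 2) _ le_rfl
      (abs_nonneg _) (h1.trans (le_of_eq (by ring))) (by positivity)
    refine h2.trans (le_of_eq ?_)
    field_simp
  have hs2 : Summable (fun m : ℕ => 1 / (2 * (S + 1)) * G (t - L) *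
      ((m + 1 + 1 : ℕ) : ℝ) ^ (-2 : ℝ)) :=
    ((summable_nat_add_iff 1).2 sum_two).mul_left _
  refine (tsum_of_norm_bounded hs2.hasSum hb2).trans ?_
  rw [tsum_mul_left]
  have h3 : ∑' m : ℕ, ((m + 1 + 1 : ℕ) : ℝ) ^ (-2 : ℝ) ≤ S := by
    have h4 := sum_two.tsum_eq_zero_add
    rw [← hS] at h4
    rw [h4]
    have : (0 : ℝ) ≤ ((0 + 1 : ℕ) : ℝ) ^ (-2 : ℝ) := by positivity
    linarith
  have h5 : 0 ≤ 1 / (2 * (S + 1)) * G (t - L) := by positivity
  calc 1 / (2 * (S + 1)) * G (t - L) * ∑' m : ℕ, ((m + 1 + 1 : ℕ) : ℝ) ^ (-2 : ℝ) ≤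
      1 / (2 * (S + 1)) * G (t - L) * (S + 1) := mul_le_mul_of_nonneg_left (by linarith) h5
    _ = 1 / 2 * G (t - L) := by field_simp

include hb hG in
theorem th_pos : ∃ T : ℝ, ∀ t, T ≤ t → 0 < Th b L G t := by
  obtain ⟨T, hT⟩ := th_main hb hG L
  refine ⟨T, fun t ht => ?_⟩
  obtain ⟨h1, h2⟩ := hT t ht
  have := (abs_le.1 h2).1
  linarith

include hb hG in
theorem th_dec : ∃ C c1 c2 : ℝ, 0 < C ∧ 0 < c1 ∧ 0 < c2 ∧
    ∀ t, 0 ≤ t → |Th b L G t| ≤ C * Real.exp (-c1 * Real.exp (c2 * t)) := by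
  obtain ⟨T, hT⟩ := th_main hb hG L
  obtain ⟨C, c1, c2, hC, hc1, hc2, hd⟩ := hG.dec
  have hcont := th_cont hb hG L
  -- on `[0, T']` use compactness
  set T' : ℝ := max T (max L 0) with hT'
  obtain ⟨M, hM⟩ := isCompact_Icc.exists_bound_of_continuousOn
    (f := Th b L G) (s := Set.Icc 0 T') hcont.continuousOn
  set c1' : ℝ := c1 * Real.exp (-c2 * L) with hc1'
  have hc1'0 : 0 < c1' := by positivity
  refine ⟨3 / 2 * C + (|M| + 1) * Real.exp (c1' * Real.exp (c2 * T')), c1', c2, by positivity,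
    hc1'0, hc2, fun t ht => ?_⟩
  rcases le_total t T' with h1 | h1
  · have h2 := hM t ⟨ht, h1⟩
    rw [Real.norm_eq_abs] at h2
    have h3 : Real.exp (c2 * t) ≤ Real.exp (c2 * T') :=
      Real.exp_le_exp.2 (mul_le_mul_of_nonneg_left h1 hc2.le)
    have h4 : 1 ≤ Real.exp (c1' * Real.exp (c2 * T')) * Real.exp (-c1' * Real.exp (c2 * t)) := by
      rw [← Real.exp_add]
      refine Real.one_le_exp ?_
      have := mul_le_mul_of_nonneg_left h3 hc1'0.le
      linarith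
    have h5 : 0 ≤ 3 / 2 * C * Real.exp (-c1' * Real.exp (c2 * t)) := by positivity
    have h6 : |M| + 1 ≤ (|M| + 1) * (Real.exp (c1' * Real.exp (c2 * T')) *
        Real.exp (-c1' * Real.exp (c2 * t))) :=
      le_mul_of_one_le_right (by positivity) h4
    have h7 := le_abs_self M
    calc |Th b L G t| ≤ |M| + 1 := by linarith
      _ ≤ (|M| + 1) * (Real.exp (c1' * Real.exp (c2 * T')) *
        Real.exp (-c1' * Real.exp (c2 * t))) := h6
      _ ≤ _ := by linarith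
  · have hTt : T ≤ t := (le_max_left _ _).trans h1
    have hLt : L ≤ t := ((le_max_left _ _).trans (le_max_right _ _)).trans h1
    obtain ⟨h2, h3⟩ := hT t hTt
    have h4 := hd (t - L) (by linarith)
    rw [abs_of_pos h2] at h4
    have h5 : |Th b L G t| ≤ 3 / 2 * G (t - L) := by
      have := abs_le.1 h3
      rw [abs_le]
      constructor <;> linarith [this.1, this.2]
    have e1 : -c1 * Real.exp (c2 * (t - L)) = -c1' * Real.exp (c2 * t) := by
      rw [hc1']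
      have : Real.exp (c2 * (t - L)) = Real.exp (-c2 * L) * Real.exp (c2 * t) := by
        rw [← Real.exp_add]
        congr 1
        ring
      rw [this]
      ring
    rw [e1] at h4
    have h6 : 0 ≤ (|M| + 1) * Real.exp (c1' * Real.exp (c2 * T')) *
      Real.exp (-c1' * Real.exp (c2 * t)) := by positivity
    calc |Th b L G t| ≤ 3 / 2 * (C * Real.exp (-c1' * Real.exp (c2 * t))) :=
          h5.trans (by linarith)
      _ ≤ _ := by linarith

include hb hG in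
theorem th_grow (A : ℝ) (hA1 : α ≤ A) (hA2 : β + 2 ≤ A) : ∃ C : ℝ, 0 < C ∧ ∀ t,
    |Th b L G t| ≤ C * Real.exp (-A * t) := by
  obtain ⟨C, hC, h1⟩ := hG.exp_le A hA1
  have hB := hb.B_one
  set S : ℝ := ∑' m : ℕ, ((m + 1 : ℕ) : ℝ) ^ (-2 : ℝ) with hS
  have hS0 : 0 ≤ S := tsum_nonneg fun m => by positivity
  refine ⟨B * (C * Real.exp (A * L)) * (S + 1), by positivity, fun t => ?_⟩
  have hb2 : ∀ m : ℕ, ‖b (m + 1) * G (t + Real.log ((m + 1 : ℕ) : ℝ) - L)‖ ≤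
      B * (C * Real.exp (-A * (t - L))) * ((m + 1 : ℕ) : ℝ) ^ (-2 : ℝ) := by
    intro m
    rw [Real.norm_eq_abs, abs_mul]
    refine b_term hb m (C * Real.exp (-A * (t - L))) A _ hA2 (abs_nonneg _) ?_ (by positivity)
    refine (h1 _).trans (le_of_eq ?_)
    rw [mul_assoc, ← Real.exp_add]
    congr 2
    ring
  unfold Th
  rw [← Real.norm_eq_abs]
  refine (tsum_of_norm_bounded (sum_two.mul_left (B * (C * Real.exp (-A * (t - L))))).hasSum
    hb2).trans ?_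
  rw [tsum_mul_left, ← hS]
  have e1 : Real.exp (-A * (t - L)) = Real.exp (A * L) * Real.exp (-A * t) := by
    rw [← Real.exp_add]
    congr 1
    ring
  rw [e1]
  calc B * (C * (Real.exp (A * L) * Real.exp (-A * t))) * S ≤
      B * (C * (Real.exp (A * L) * Real.exp (-A * t))) * (S + 1) :=
        mul_le_mul_of_nonneg_left (by linarith) (by positivity)
    _ = _ := by ring

include hb hG in
theorem th_int (s : ℂ) (hs1 : α < s.re) (hs2 : β + 2 < s.re) :
    Integrable (fun t : ℝ => ((Th b L G t : ℝ) : ℂ) * cexp (s * t)) := by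
  obtain ⟨C1, hC1, h1⟩ := th_grow hb hG L (max α (β + 2)) (le_max_left _ _) (le_max_right _ _)
  obtain ⟨C2, c1, c2, hC2, hc1, hc2, h2⟩ := th_dec hb hG L
  obtain ⟨K, hK, h3⟩ := Pool.Agent.H471R3.GJ.HOdd.exp_abs_bound c1 c2 |s.re| hc1 hc2
  have hcont := th_cont hb hG L
  set δ : ℝ := s.re - max α (β + 2) with hδ
  have hδ0 : 0 < δ := sub_pos.2 (max_lt hs1 hs2)
  refine (((int_exp_abs δ hδ0).const_mul C1).add
    (Pool.Agent.H471R3.GJ.HOdd.gauss_int c1 c2 hc1 hc2 (C2 * K))).mono'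
    (by fun_prop : Continuous (fun t : ℝ => ((Th b L G t : ℝ) : ℂ) *
      cexp (s * t))).aestronglyMeasurable (Eventually.of_forall fun t => ?_)
  rw [norm_mul, Complex.norm_real, Real.norm_eq_abs, Complex.norm_exp]
  have e1 : (s * (t : ℂ)).re = s.re * t := by simp
  rw [e1]
  simp only [Pi.add_apply]
  rcases le_total t 0 with ht | ht
  · have h4 := mul_le_mul_of_nonneg_right (h1 t) (Real.exp_pos (s.re * t)).le
    have e2 : C1 * Real.exp (-max α (β + 2) * t) * Real.exp (s.re * t) =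
        C1 * Real.exp (-δ * |t|) := by
      rw [mul_assoc, ← Real.exp_add, abs_of_nonpos ht]
      congr 2
      rw [hδ]
      ring
    rw [e2] at h4
    have h5 : 0 ≤ C2 * K * Real.exp (-(c1 * c2 ^ 2 / 4) * t ^ 2) := by positivity
    linarith
  · have h5 := h3 t
    rw [abs_of_nonneg ht] at h5
    have h7 : Real.exp (s.re * t) ≤ Real.exp (|s.re| * t) :=
      Real.exp_le_exp.2 (mul_le_mul_of_nonneg_right (le_abs_self _) ht)
    have h6 : |Th b L G t| * Real.exp (s.re * t) ≤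
        C2 * K * Real.exp (-(c1 * c2 ^ 2 / 4) * t ^ 2) := by
      calc |Th b L G t| * Real.exp (s.re * t) ≤
          (C2 * Real.exp (-c1 * Real.exp (c2 * t))) * Real.exp (|s.re| * t) :=
            mul_le_mul (h2 t ht) h7 (Real.exp_pos _).le (by positivity)
        _ = C2 * (Real.exp (|s.re| * t) * Real.exp (-c1 * Real.exp (c2 * t))) := by ring
        _ ≤ C2 * (K * Real.exp (-(c1 * c2 ^ 2 / 4) * t ^ 2)) :=
            mul_le_mul_of_nonneg_left h5 hC2.le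
        _ = _ := by ring
    have h8 : 0 ≤ C1 * Real.exp (-δ * |t|) := by positivity
    linarith

include hb hG in
/-- the Laplace transform of the theta series -/
theorem th_lap (s : ℂ) (hs1 : α ≤ s.re) (hs2 : β + 2 ≤ s.re) :
    ∫ t : ℝ, ((Th b L G t : ℝ) : ℂ) * cexp (s * t) =
      cexp (s * L) * γ s * ∑' m : ℕ, ((b (m + 1) : ℝ) : ℂ) * ((m + 1 : ℕ) : ℂ) ^ (-s) := by
  set F : ℕ → ℝ → ℂ := fun m t => ((b (m + 1) * G (t + Real.log ((m + 1 : ℕ) : ℝ) - L) : ℝ) : ℂ) *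
    cexp (s * t) with hF
  have hi := hG.int s hs1
  have hFm : ∀ (m : ℕ) (t : ℝ), F m t = ((b (m + 1) : ℝ) : ℂ) * cexp (-s * ((Real.log
      ((m + 1 : ℕ) : ℝ) - L : ℝ) : ℂ)) * (((G (t + (Real.log ((m + 1 : ℕ) : ℝ) - L)) : ℝ) : ℂ) *
        cexp (s * ((t + (Real.log ((m + 1 : ℕ) : ℝ) - L) : ℝ) : ℂ))) := by
    intro m t
    rw [hF]
    simp only
    have e1 : t + (Real.log ((m + 1 : ℕ) : ℝ) - L) = t + Real.log ((m + 1 : ℕ) : ℝ) - L := by ring
    rw [e1]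
    have e2 : cexp (s * t) = cexp (-s * ((Real.log ((m + 1 : ℕ) : ℝ) - L : ℝ) : ℂ)) *
        cexp (s * ((t + Real.log ((m + 1 : ℕ) : ℝ) - L : ℝ) : ℂ)) := by
      rw [← Complex.exp_add]
      congr 1
      push_cast
      ring
    rw [e2, Complex.ofReal_mul]
    ring
  have hFi : ∀ m : ℕ, Integrable (F m) := by
    intro m
    have h1 := (hi.comp_add_right (Real.log ((m + 1 : ℕ) : ℝ) - L)).const_mul
      (((b (m + 1) : ℝ) : ℂ) * cexp (-s * ((Real.log ((m + 1 : ℕ) : ℝ) - L : ℝ) : ℂ)))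
    refine h1.congr (Eventually.of_forall fun t => ?_)
    exact (hFm m t).symm
  have hexp : ∀ m : ℕ, cexp (-s * ((Real.log ((m + 1 : ℕ) : ℝ) - L : ℝ) : ℂ)) =
      cexp (s * L) * ((m + 1 : ℕ) : ℂ) ^ (-s) := by
    intro m
    have hm : ((m + 1 : ℕ) : ℂ) ≠ 0 := by exact_mod_cast Nat.succ_ne_zero m
    rw [Complex.cpow_def_of_ne_zero hm, ← Complex.exp_add]
    congr 1
    have : Complex.log ((m + 1 : ℕ) : ℂ) = ((Real.log ((m + 1 : ℕ) : ℝ) : ℝ) : ℂ) :=
      Complex.natCast_log.symm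
    rw [this]
    push_cast
    ring
  have hnorm : ∀ m : ℕ, ∫ t, ‖F m t‖ = (∫ t : ℝ, ‖((G t : ℝ) : ℂ) * cexp (s * t)‖) *
      Real.exp (s.re * L) * (|b (m + 1)| * Real.exp (-s.re * Real.log ((m + 1 : ℕ) : ℝ))) := by
    intro m
    have h1 : (fun t => ‖F m t‖) = fun t : ℝ => (|b (m + 1)| * Real.exp (-s.re * (Real.log
        ((m + 1 : ℕ) : ℝ) - L))) * ‖((G (t + (Real.log ((m + 1 : ℕ) : ℝ) - L)) : ℝ) : ℂ) *
        cexp (s * ((t + (Real.log ((m + 1 : ℕ) : ℝ) - L) : ℝ) : ℂ))‖ := by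
      funext t
      rw [hFm m t, norm_mul, norm_mul, Complex.norm_real, Real.norm_eq_abs, Complex.norm_exp]
      congr 3
      rw [Complex.mul_re, Complex.ofReal_re, Complex.ofReal_im, Complex.neg_re]
      ring
    rw [h1, integral_const_mul, integral_add_right_eq_self
      (fun t : ℝ => ‖((G t : ℝ) : ℂ) * cexp (s * (t : ℂ))‖) (Real.log ((m + 1 : ℕ) : ℝ) - L)]
    have e1 : Real.exp (-s.re * (Real.log ((m + 1 : ℕ) : ℝ) - L)) = Real.exp (s.re * L) *
        Real.exp (-s.re * Real.log ((m + 1 : ℕ) : ℝ)) := by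
      rw [← Real.exp_add]
      congr 1
      ring
    rw [e1]
    ring
  have hsumn : Summable (fun m : ℕ => ∫ t, ‖F m t‖) := by
    simp_rw [hnorm]
    refine Summable.mul_left _ ?_
    refine Summable.of_nonneg_of_le (fun m => by positivity) (fun m => ?_) (sum_two.mul_left (B * 1))
    exact b_term hb m 1 s.re _ hs2 (Real.exp_pos _).le (le_of_eq (one_mul _).symm) zero_le_one
  have hTh : ∀ t : ℝ, ((Th b L G t : ℝ) : ℂ) * cexp (s * t) = ∑' m : ℕ, F m t := by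
    intro t
    unfold Th
    rw [Complex.ofReal_tsum, ← tsum_mul_right]
  have h1 := hasSum_integral_of_summable_integral_norm hFi hsumn
  have h3 : ∀ m : ℕ, ∫ t, F m t = cexp (s * L) * γ s *
      (((b (m + 1) : ℝ) : ℂ) * ((m + 1 : ℕ) : ℂ) ^ (-s)) := by
    intro m
    have e1 : F m = fun t : ℝ => ((b (m + 1) : ℝ) : ℂ) * cexp (-s * ((Real.log
      ((m + 1 : ℕ) : ℝ) - L : ℝ) : ℂ)) * (((G (t + (Real.log ((m + 1 : ℕ) : ℝ) - L)) : ℝ) : ℂ) *
        cexp (s * ((t + (Real.log ((m + 1 : ℕ) : ℝ) - L) : ℝ) : ℂ))) := funext (hFm m)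
    rw [e1, integral_const_mul, integral_add_right_eq_self
      (fun t : ℝ => ((G t : ℝ) : ℂ) * cexp (s * (t : ℂ))) (Real.log ((m + 1 : ℕ) : ℝ) - L),
      hG.lap s hs1, hexp]
    ring
  simp_rw [hTh]
  rw [← h1.tsum_eq]
  simp_rw [h3]
  rw [tsum_mul_left]

end

end Pool.Agent.W355.LJ
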